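import Pool.Agent.Q298.Excl.Pt

/-!
# The averaged lower bound on the discrete derivatives
-/

open Set Filter Topology MeasureTheory Function

set_option linter.unusedSectionVars false

namespace Pool.Agent.Q298.Excl

variable {p : ℤ → ℝ} {hp : Kern p} {μ : Measure Cf} {ν : Measure Pf}

lemma JJ_nonneg (hp : Kern p) (z0 : ℤ) {L θ Λ : ℝ} (hL : 0 < L) (hΛ0 : 0 ≤ Λ) (η : Cf) (x : ℤ) :
    0 ≤ JJ hp z0 L θ Λ η x := by
  have hpos : 0 < L + Λ := by linarith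
  refine mul_nonneg (div_nonneg hL.le hpos.le) (res_ge (adm_rz hp z0) hpos (fun ζ => ?_) η)
  rw [ContinuousMap.mul_apply, ContinuousMap.pow_apply]
  exact mul_nonneg (ex_nonneg x ζ) (sq_nonneg _)

lemma WW_nonneg (hp : Kern p) (z0 : ℤ) {L θ : ℝ} (hL : 0 < L) (η : Cf) :
    0 ≤ WW hp z0 L θ η := res_quad_nonneg (adm_rt hp) hL _ _ η

lemma Cpl.one_ae [IsProbabilityMeasure μ] (hμ : Prof p μ) (hν : Cpl hp μ ν)
    (hirr : Irred p) (z0 : ℤ) :
    ∀ᵐ ω ∂ν, ω ∈ Oge ∧ (dd (ω z0) = 1 → pr1 ω z0 = true ∧ pr2 ω = rem z0 (pr1 ω)) := by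
  have := hν.prob
  have h1 : ∀ᵐ ω ∂ν, ∀ x : ℤ, x ≠ z0 → dd (ω x) * dd (ω z0) = 0 := by
    rw [ae_all_iff]
    intro x
    by_cases hx : x = z0
    · exact Eventually.of_forall fun ω h => absurd hx h
    · have h2 := hν.two_null hμ hirr x z0 hx
      rw [integral_eq_zero_iff_of_nonneg (fun ω => mul_nonneg (dd_nonneg _) (dd_nonneg _))
        (integrable_C ν ⟨_, continuous_val2 (fun a b => dd a * dd b) x z0⟩)] at h2
      filter_upwards [h2] with ω hω _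
      exact hω
  filter_upwards [h1, hν.oge_ae hμ hirr] with ω hω1 hω2
  refine ⟨hω2, fun hd => ?_⟩
  have hz : ω z0 = (true, false) := by
    by_contra hne
    simp [dd, hne] at hd
  refine ⟨by rw [pr1_apply, hz], ?_⟩
  funext x
  rw [rem_apply]
  by_cases hx : x = z0
  · subst hx
    rw [pr2_apply, hz]; simp
  · rw [update_of_ne hx]
    have h3 := hω1 x hx
    rw [hd, mul_one] at h3
    have h4 := (dd_eq_zero_iff _).1 h3
    have h5 : (ω x).2 ≤ (ω x).1 := hω2 x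
    exact le_antisymm h5 h4

/-- the discrepancy is recurrent at `z0` -/
lemma Cpl.rec_bound [IsProbabilityMeasure μ] (hμ : Prof p μ) (hν : Cpl hp μ ν)
    (hirr : Irred p) (z0 : ℤ) {lam : ℝ} (hlam : 0 < lam) :
    (∫ ω, dd (ω z0) ∂ν) ^ 2
      ≤ ∫ ω, dd (ω z0) * (uu hp z0 lam (pr1 ω) - uu hp z0 lam (pr2 ω)) ∂ν := by
  have := hν.prob
  set f : C(Pf, ℝ) := (ex z0).comp pr1 - (ex z0).comp pr2 with hf
  set s := res (adm_rt hp) lam f with hs
  have hse : ∀ ω, s ω = uu hp z0 lam (pr1 ω) - uu hp z0 lam (pr2 ω) := by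
    intro ω
    rw [hs, hf, res_sub (adm_rt hp) hlam, res_pr1 (adm_rt hp) hlam, res_pr2 (adm_rt hp) hlam]
    rfl
  have h1 := hν.stat.energy (hc := adm_rt hp) hlam ∅ f
  rw [Finset.sum_empty] at h1
  have h2 : 0 ≤ ∫ ω, s ω * (f ω - s ω) ∂ν := by
    by_contra hcon
    push Not at hcon
    have : 2 * lam * ∫ ω, s ω * (f ω - s ω) ∂ν < 0 := mul_neg_of_pos_of_neg (by linarith) hcon
    linarith
  have is : Integrable (fun ω => s ω) ν := integrable_C ν s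
  have i2 : Integrable (fun ω => s ω * f ω) ν := integrable_C ν (s * f)
  have i3 : Integrable (fun ω => s ω * s ω) ν := integrable_C ν (s * s)
  have h3 : ∫ ω, s ω * (f ω - s ω) ∂ν = ∫ ω, s ω * f ω ∂ν - ∫ ω, s ω * s ω ∂ν := by
    rw [← integral_sub i2 i3]
    refine integral_congr_ae (Eventually.of_forall fun ω => ?_)
    simp only
    ring
  have hae : ∀ᵐ ω ∂ν, f ω = dd (ω z0) := by
    filter_upwards [hν.oge_ae hμ hirr] with ω hω
    exact (dd_eq hω z0).symm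
  set q := ∫ ω, dd (ω z0) ∂ν with hq
  have h4 : ∫ ω, s ω ∂ν = q := by
    have h5 := hν.stat.inv (hc := adm_rt hp) hlam f
    rw [← hs] at h5
    rw [h5, hq]
    exact integral_congr_ae hae
  have h6 : 0 ≤ ∫ ω, (s ω - q) ^ 2 ∂ν := integral_nonneg fun ω => sq_nonneg _
  have h7 : ∫ ω, (s ω - q) ^ 2 ∂ν = ∫ ω, s ω * s ω ∂ν - q ^ 2 := by
    have e : ∀ ω, (s ω - q) ^ 2 = 1 * (s ω * s ω) + (-2 * q) * s ω + q ^ 2 * 1 := fun ω => by ring
    simp only [e]
    rw [int_lin3 i3 is (integrable_const 1), h4]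
    simp
    ring
  have h8 : ∫ ω, s ω * f ω ∂ν
      = ∫ ω, dd (ω z0) * (uu hp z0 lam (pr1 ω) - uu hp z0 lam (pr2 ω)) ∂ν := by
    refine integral_congr_ae ?_
    filter_upwards [hae] with ω hω
    rw [hω, hse, mul_comm]
  rw [← h8]
  linarith

lemma WW_int [IsProbabilityMeasure μ] (hμ : Stat (rt p) μ) (z0 : ℤ) {L θ : ℝ} (hL : 0 < L)
    (hθ : 0 < θ) : ∫ η, WW hp z0 L θ η ∂μ ≤ 2 * θ := by
  set u := uu hp z0 (θ * L) with hu
  set K := res (A := Bool) (adm_rt hp) L with hK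
  have i1 : Integrable (fun η => K (u ^ 2) η) μ := integrable_C μ _
  have i2 : Integrable (fun η => u η * K u η) μ := integrable_C μ (u * K u)
  have i3 : Integrable (fun η => (u ^ 2) η) μ := integrable_C μ _
  have i4 : Integrable (fun η => u η * (u η - K u η)) μ := integrable_C μ (u * (u - K u))
  have e : ∀ η, WW hp z0 L θ η = 1 * K (u ^ 2) η + (-2) * (u η * K u η) + 1 * (u ^ 2) η := by
    intro η
    simp only [WW, ContinuousMap.pow_apply]
    ring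
  simp only [e]
  rw [int_lin3 i1 i2 i3, hμ.inv (hc := adm_rt hp) hL (u ^ 2)]
  have h1 : ∫ η, u η * (u η - K u η) ∂μ ≤ ∫ _η : Cf, θ ∂μ := by
    refine integral_mono i4 (integrable_const _) fun η => ?_
    have a1 := uu_K hp z0 hL hθ η
    have a2 := uu_nonneg hp z0 hL hθ η
    have a3 := uu_le hp z0 hL hθ η
    have a4 := (abs_le.1 a1).2
    simp only
    calc u η * (u η - K u η) ≤ u η * θ := mul_le_mul_of_nonneg_left a4 a2
      _ ≤ θ := by nlinarith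
  have h2 : ∫ η, u η * (u η - K u η) ∂μ = ∫ η, (u ^ 2) η ∂μ - ∫ η, u η * K u η ∂μ := by
    rw [← integral_sub i3 i2]
    refine integral_congr_ae (Eventually.of_forall fun ω => ?_)
    simp only [ContinuousMap.pow_apply]
    ring
  rw [h2] at h1
  simp only [integral_const, probReal_univ, smul_eq_mul, one_mul] at h1
  linarith

lemma WW_int_sh [IsProbabilityMeasure μ] (hμ : Stat (rt p) μ) (z0 : ℤ) {L θ : ℝ} (hL : 0 < L)
    (hθ : 0 < θ) : ∫ η, WW hp z0 L θ (sh η) ∂μ ≤ 2 * θ := by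
  set u := uu hp z0 (θ * L) with hu
  set K := res (A := Bool) (adm_rt hp) L with hK
  have i1 : Integrable (fun η => K (u ^ 2) (sh η)) μ := integrable_C μ ((K (u ^ 2)).comp sh)
  have i2 : Integrable (fun η => u (sh η) * K u (sh η)) μ := integrable_C μ ((u * K u).comp sh)
  have i3 : Integrable (fun η => (u ^ 2) (sh η)) μ := by
    have h0 := integrable_C μ ((u ^ 2).comp sh)
    simp only [ContinuousMap.comp_apply] at h0
    exact h0
  have i4 : Integrable (fun η => u (sh η) * (u (sh η) - K u (sh η))) μ :=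
    integrable_C μ ((u * (u - K u)).comp sh)
  have e : ∀ η, WW hp z0 L θ (sh η)
      = 1 * K (u ^ 2) (sh η) + (-2) * (u (sh η) * K u (sh η)) + 1 * (u ^ 2) (sh η) := by
    intro η
    simp only [WW, ContinuousMap.pow_apply]
    ring
  simp only [e]
  have h0 : ∫ η, K (u ^ 2) (sh η) ∂μ = ∫ η, (u ^ 2) (sh η) ∂μ := by
    have h5 := hμ.inv (hc := adm_rt hp) hL ((u ^ 2).comp sh)
    rw [res_sh hp hL] at h5
    exact h5
  rw [int_lin3 i1 i2 i3, h0]
  have h1 : ∫ η, u (sh η) * (u (sh η) - K u (sh η)) ∂μ ≤ ∫ _η : Cf, θ ∂μ := by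
    refine integral_mono i4 (integrable_const _) fun η => ?_
    have a1 := uu_K hp z0 hL hθ (sh η)
    have a2 := uu_nonneg hp z0 hL hθ (sh η)
    have a3 := uu_le hp z0 hL hθ (sh η)
    have a4 := (abs_le.1 a1).2
    simp only
    calc u (sh η) * (u (sh η) - K u (sh η)) ≤ u (sh η) * θ := mul_le_mul_of_nonneg_left a4 a2
      _ ≤ θ := by nlinarith
  have h2 : ∫ η, u (sh η) * (u (sh η) - K u (sh η)) ∂μ
      = ∫ η, (u ^ 2) (sh η) ∂μ - ∫ η, u (sh η) * K u (sh η) ∂μ := by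
    rw [← integral_sub i3 i2]
    refine integral_congr_ae (Eventually.of_forall fun ω => ?_)
    simp only [ContinuousMap.pow_apply]
    ring
  rw [h2] at h1
  simp only [integral_const, probReal_univ, smul_eq_mul, one_mul] at h1
  linarith

theorem avg_bound [IsProbabilityMeasure μ] (hμ : Prof p μ) (hν : Cpl hp μ ν)
    (hirr : Irred p) (z0 : ℤ) {L θ Λ r pl : ℝ} (hL : 0 < L) (hθ : 0 < θ)
    (hr : 0 < r) (hpl : 0 < pl) (hΛ : HasSum (cz p z0) Λ) (hΛ0 : 0 ≤ Λ) (hΛL : Λ ≤ L)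
    (I : Finset ℤ) (hI : ∀ x ∈ I, x ≠ z0) (hIp : ∀ x ∈ I, pl ≤ p (z0 - x)) :
    (I.card : ℝ) * ((∫ ω, dd (ω z0) ∂ν) ^ 2 / 2 - 2 * r - θ / (2 * r))
      - ∑ x ∈ I, (1 - rho μ x) - (4 * L * θ + 2 * θ ^ 2 * ∑' k, p k) / (4 * r * pl)
      ≤ ∑ x ∈ I, ∫ η, vv hp z0 (θ * L) x η ∂μ := by
  have := hν.prob
  set u := uu hp z0 (θ * L) with hu
  set K := res (A := Bool) (adm_rt hp) L with hK
  set q := ∫ ω, dd (ω z0) ∂ν with hq
  set P := ∑' k, p k with hP
  have hP0 : 0 ≤ P := tsum_nonneg hp.nonneg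
  have hpos' : 0 < L + Λ := by linarith
  set g := L / (L + Λ) with hg
  have hg2 : 1 / 2 ≤ g := by rw [hg, div_le_div_iff₀ (by norm_num) hpos']; linarith
  have hg0 : 0 ≤ g := by linarith
  -- the pointwise estimate on the good set
  have hgood : ∀ η : Cf, η z0 = true →
      (I.card : ℝ) * (g * (u η - u (rem z0 η)) - 2 * r - WW hp z0 L θ η / (4 * r))
        - (2 * L * WW hp z0 L θ (rem z0 η) + 2 * θ ^ 2 * P) / (4 * r * pl)
        ≤ ∑ x ∈ I, K (vv hp z0 (θ * L) x) η + ∑ x ∈ I, K (1 - ex x) η := by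
    intro η hη
    have h1 := JJ_bound hp z0 hL hθ hΛ hΛ0 hη I hI
    have h2 : pl * ∑ x ∈ I, JJ hp z0 L θ Λ η x ≤ ∑ x ∈ I, p (z0 - x) * JJ hp z0 L θ Λ η x := by
      rw [Finset.mul_sum]
      exact Finset.sum_le_sum fun x hx =>
        mul_le_mul_of_nonneg_right (hIp x hx) (JJ_nonneg hp z0 hL hΛ0 η x)
    have h3 : ∑ x ∈ I, JJ hp z0 L θ Λ η x / (4 * r)
        ≤ (2 * L * WW hp z0 L θ (rem z0 η) + 2 * θ ^ 2 * P) / (4 * r * pl) := by
      rw [← Finset.sum_div, div_le_div_iff₀ (by positivity) (by positivity)]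
      have h4 := mul_le_mul_of_nonneg_right (h2.trans h1) (by positivity : (0 : ℝ) ≤ 4 * r)
      linarith
    have h5 : ∑ x ∈ I, ((u η - u (rem z0 η)) * g - K (1 - ex x) η - 2 * r
        - WW hp z0 L θ η / (4 * r) - JJ hp z0 L θ Λ η x / (4 * r))
        ≤ ∑ x ∈ I, K (vv hp z0 (θ * L) x) η :=
      Finset.sum_le_sum fun x _ => Kv_bound hp z0 hL hθ hr hΛ hΛ0 η x
    simp only [Finset.sum_sub_distrib, Finset.sum_const, nsmul_eq_mul] at h5
    linarith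
  -- almost everywhere estimate
  have hK1 : ∀ (x : ℤ) (η : Cf), 0 ≤ K (1 - ex x) η := fun x η =>
    res_ge (adm_rt hp) hL (fun ζ => by
      rw [ContinuousMap.sub_apply, ContinuousMap.one_apply]; linarith [ex_le x ζ]) η
  have hKv : ∀ (x : ℤ) (η : Cf), 0 ≤ K (vv hp z0 (θ * L) x) η := fun x η =>
    res_ge (adm_rt hp) hL (fun ζ => vv_nonneg hp z0 hL hθ x ζ) η
  have hae : ∀ᵐ ω ∂ν,
      (I.card : ℝ) * (g * (dd (ω z0) * (u (pr1 ω) - u (pr2 ω))) - 2 * r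
          - WW hp z0 L θ (pr1 ω) / (4 * r))
        - (2 * L * WW hp z0 L θ (pr2 ω) + 2 * θ ^ 2 * P) / (4 * r * pl)
        ≤ ∑ x ∈ I, K (vv hp z0 (θ * L) x) (pr1 ω) + ∑ x ∈ I, K (1 - ex x) (pr1 ω) := by
    filter_upwards [hν.one_ae hμ hirr z0] with ω hω
    rcases dd_01 (ω z0) with hd | hd
    · rw [hd]
      have w1 := WW_nonneg hp z0 (θ := θ) hL (pr1 ω)
      have w2 := WW_nonneg hp z0 (θ := θ) hL (pr2 ω)
      have a1 : 0 ≤ ∑ x ∈ I, K (vv hp z0 (θ * L) x) (pr1 ω) + ∑ x ∈ I, K (1 - ex x) (pr1 ω) :=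
        add_nonneg (Finset.sum_nonneg fun x _ => hKv x _) (Finset.sum_nonneg fun x _ => hK1 x _)
      have a2 : 0 ≤ (2 * L * WW hp z0 L θ (pr2 ω) + 2 * θ ^ 2 * P) / (4 * r * pl) := by positivity
      have a3 : 0 ≤ WW hp z0 L θ (pr1 ω) / (4 * r) := by positivity
      have a4 : (I.card : ℝ) * (g * (0 * (u (pr1 ω) - u (pr2 ω))) - 2 * r
          - WW hp z0 L θ (pr1 ω) / (4 * r)) ≤ 0 := by
        refine mul_nonpos_of_nonneg_of_nonpos (Nat.cast_nonneg _) ?_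
        rw [zero_mul, mul_zero]
        linarith
      linarith
    · obtain ⟨h1, h2⟩ := hω.2 hd
      rw [hd, h2, one_mul]
      exact hgood (pr1 ω) h1
  -- integrate
  have jW : Continuous fun η => WW hp z0 L θ η := by
    unfold WW; fun_prop
  have k1 : Integrable (fun ω => dd (ω z0) * (u (pr1 ω) - u (pr2 ω))) ν := by
    have hc : Continuous fun ω : Pf => dd (ω z0) * (u (pr1 ω) - u (pr2 ω)) :=
      (continuous_val dd z0).mul (by fun_prop)
    exact integrable_C ν ⟨_, hc⟩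
  have k2 : Integrable (fun ω => WW hp z0 L θ (pr1 ω)) ν :=
    integrable_C ν ⟨_, jW.comp pr1.continuous⟩
  have k3 : Integrable (fun ω => WW hp z0 L θ (pr2 ω)) ν :=
    integrable_C ν ⟨_, jW.comp pr2.continuous⟩
  have k4 : ∀ x, Integrable (fun ω => K (vv hp z0 (θ * L) x) (pr1 ω)) ν := fun x =>
    integrable_C ν ((K (vv hp z0 (θ * L) x)).comp pr1)
  have k5 : ∀ x, Integrable (fun ω => K (1 - ex x) (pr1 ω)) ν := fun x =>
    integrable_C ν ((K (1 - ex x)).comp pr1)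
  have k6 : Integrable (fun ω => ∑ x ∈ I, K (vv hp z0 (θ * L) x) (pr1 ω)) ν :=
    integrable_finsetSum _ fun x _ => k4 x
  have k7 : Integrable (fun ω => ∑ x ∈ I, K (1 - ex x) (pr1 ω)) ν :=
    integrable_finsetSum _ fun x _ => k5 x
  -- rewrite the left side as a linear combination
  set n : ℝ := (I.card : ℝ) with hn
  have e1 : ∀ ω : Pf, n * (g * (dd (ω z0) * (u (pr1 ω) - u (pr2 ω))) - 2 * r
          - WW hp z0 L θ (pr1 ω) / (4 * r))
        - (2 * L * WW hp z0 L θ (pr2 ω) + 2 * θ ^ 2 * P) / (4 * r * pl)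
      = ((n * g) * (dd (ω z0) * (u (pr1 ω) - u (pr2 ω)))
        + (-(n / (4 * r))) * WW hp z0 L θ (pr1 ω)
        + (-(2 * L / (4 * r * pl))) * WW hp z0 L θ (pr2 ω))
        - (n * (2 * r) + 2 * θ ^ 2 * P / (4 * r * pl)) := by
    intro ω
    field_simp
    ring
  have k8 : Integrable (fun ω => (n * g) * (dd (ω z0) * (u (pr1 ω) - u (pr2 ω)))
        + (-(n / (4 * r))) * WW hp z0 L θ (pr1 ω)
        + (-(2 * L / (4 * r * pl))) * WW hp z0 L θ (pr2 ω)) ν :=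
    ((k1.const_mul _).add (k2.const_mul _)).add (k3.const_mul _)
  have h6 := integral_mono_ae (k8.sub (integrable_const (n * (2 * r)
    + 2 * θ ^ 2 * P / (4 * r * pl)))) (k6.add k7) (by
      filter_upwards [hae] with ω hω
      rw [e1 ω] at hω
      exact hω)
  rw [integral_add' k6 k7, integral_sub' k8 (integrable_const _), int_lin3 k1 k2 k3,
    integral_finsetSum _ (fun x _ => k4 x), integral_finsetSum _ (fun x _ => k5 x)] at h6
  simp only [integral_const, probReal_univ, smul_eq_mul, one_mul] at h6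
  have e2 : ∀ x, ∫ ω, K (vv hp z0 (θ * L) x) (pr1 ω) ∂ν = ∫ η, vv hp z0 (θ * L) x η ∂μ := by
    intro x
    rw [hν.m1 (K (vv hp z0 (θ * L) x))]
    exact hμ.stat.inv (hc := adm_rt hp) hL _
  have e3 : ∀ x, ∫ ω, K (1 - ex x) (pr1 ω) ∂ν = 1 - rho μ x := by
    intro x
    rw [hν.m1 (K (1 - ex x)), hμ.stat.inv (hc := adm_rt hp) hL]
    have : ∫ η, (1 - ex x) η ∂μ = ∫ η, (1 - ex x η) ∂μ := rfl
    rw [this, integral_sub (integrable_const _) (integrable_C μ (ex x))]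
    simp [rho]
  simp only [e2, e3] at h6
  have e4 : ∫ ω, WW hp z0 L θ (pr1 ω) ∂ν = ∫ η, WW hp z0 L θ η ∂μ := hν.m1 ⟨_, jW⟩
  have e5 : ∫ ω, WW hp z0 L θ (pr2 ω) ∂ν = ∫ η, WW hp z0 L θ (sh η) ∂μ := hν.m2 ⟨_, jW⟩
  have w1 : ∫ ω, WW hp z0 L θ (pr1 ω) ∂ν ≤ 2 * θ := by rw [e4]; exact WW_int hμ.stat z0 hL hθ
  have w2 : ∫ ω, WW hp z0 L θ (pr2 ω) ∂ν ≤ 2 * θ := by rw [e5]; exact WW_int_sh hμ.stat z0 hL hθ
  have w3 := hν.rec_bound hμ hirr z0 (mul_pos hθ hL)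
  have hn0 : 0 ≤ n := Nat.cast_nonneg _
  -- combine
  have c1 : n * (q ^ 2 / 2) ≤ n * g * ∫ ω, dd (ω z0) * (u (pr1 ω) - u (pr2 ω)) ∂ν := by
    rw [mul_assoc]
    refine mul_le_mul_of_nonneg_left ?_ hn0
    have hq2 : 0 ≤ q ^ 2 := sq_nonneg q
    calc q ^ 2 / 2 = 1 / 2 * q ^ 2 := by ring
      _ ≤ g * q ^ 2 := mul_le_mul_of_nonneg_right hg2 hq2
      _ ≤ g * _ := mul_le_mul_of_nonneg_left w3 hg0
  have c2 : n / (4 * r) * ∫ ω, WW hp z0 L θ (pr1 ω) ∂ν ≤ n * (θ / (2 * r)) := by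
    have : n / (4 * r) * (2 * θ) = n * (θ / (2 * r)) := by field_simp; ring
    rw [← this]
    exact mul_le_mul_of_nonneg_left w1 (by positivity)
  have c3 : 2 * L / (4 * r * pl) * ∫ ω, WW hp z0 L θ (pr2 ω) ∂ν ≤ 4 * L * θ / (4 * r * pl) := by
    have : 2 * L / (4 * r * pl) * (2 * θ) = 4 * L * θ / (4 * r * pl) := by field_simp; ring
    rw [← this]
    exact mul_le_mul_of_nonneg_left w2 (by positivity)
  have e6 : (4 * L * θ + 2 * θ ^ 2 * P) / (4 * r * pl)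
      = 4 * L * θ / (4 * r * pl) + 2 * θ ^ 2 * P / (4 * r * pl) := by ring
  rw [e6]
  linarith

end Pool.Agent.Q298.Excl
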