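import Pool.Agent.Q298.Excl.Gen

/-!
# The closure of the graph of `h ↦ (h - gen c h / lam, h)`
-/

open Set Filter Topology MeasureTheory Function

set_option linter.unusedSectionVars false

namespace Pool.Agent.Q298.Excl

variable {A B : Type*} [TopologicalSpace A] [DiscreteTopology A] [Lattice A] [Finite A]
  [TopologicalSpace B] [DiscreteTopology B] [Lattice B] [Finite B]
variable {p : ℤ → ℝ} {c : ℤ × ℤ → ℝ}

/-- Graph of `h ↦ (h - gen c h / lam, h)` on cylinder functions. -/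
def Gr (A : Type*) [TopologicalSpace A] [DiscreteTopology A] [Lattice A] [Finite A]
    (hc : Adm p c) (lam : ℝ) : Submodule ℝ (C(ℤ → A, ℝ) × C(ℤ → A, ℝ)) where
  carrier := {q | Cyl (q.2 : (ℤ → A) → ℝ) ∧ ∀ η, q.1 η = q.2 η - gen c q.2 η / lam}
  add_mem' := by
    rintro ⟨f, g⟩ ⟨f', g'⟩ ⟨h1, h2⟩ ⟨h1', h2'⟩
    refine ⟨h1.map2 h1' (fun a b => a + b), fun η => ?_⟩
    have e := gen_add hc h1 h1' η
    have e2 : gen c ((⟨f, g⟩ + ⟨f', g'⟩ : C(ℤ → A, ℝ) × C(ℤ → A, ℝ)).2 : (ℤ → A) → ℝ) η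
        = gen c (fun ξ => g ξ + g' ξ) η := rfl
    rw [e2, e]
    simp only [Prod.fst_add, Prod.snd_add, ContinuousMap.add_apply]
    have h3 := h2 η
    have h4 := h2' η
    simp only at h3 h4
    rw [h3, h4]
    ring
  zero_mem' := by
    refine ⟨cyl_const 0, fun η => ?_⟩
    have e2 : gen c ((0 : C(ℤ → A, ℝ) × C(ℤ → A, ℝ)).2 : (ℤ → A) → ℝ) η
        = gen c (fun _ => 0) η := rfl
    rw [e2, gen_const]
    simp
  smul_mem' := by
    rintro a ⟨f, g⟩ ⟨h1, h2⟩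
    refine ⟨h1.map1 (fun b => a * b), fun η => ?_⟩
    have e2 : gen c ((a • ⟨f, g⟩ : C(ℤ → A, ℝ) × C(ℤ → A, ℝ)).2 : (ℤ → A) → ℝ) η
        = gen c (fun ξ => a * g ξ) η := rfl
    rw [e2, gen_smul]
    have h3 := h2 η
    simp only at h3
    simp only [Prod.smul_fst, Prod.smul_snd, ContinuousMap.smul_apply, smul_eq_mul]
    rw [h3]
    ring

/-- `g` is the resolvent of `f`. -/
def RR (hc : Adm p c) (lam : ℝ) (f g : C(ℤ → A, ℝ)) : Prop :=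
  (f, g) ∈ (Gr A hc lam).topologicalClosure

lemma RR.add {hc : Adm p c} {lam : ℝ} {f g f' g' : C(ℤ → A, ℝ)} (h : RR hc lam f g)
    (h' : RR hc lam f' g') : RR hc lam (f + f') (g + g') :=
  Submodule.add_mem _ h h'

lemma RR.sub {hc : Adm p c} {lam : ℝ} {f g f' g' : C(ℤ → A, ℝ)} (h : RR hc lam f g)
    (h' : RR hc lam f' g') : RR hc lam (f - f') (g - g') :=
  Submodule.sub_mem _ h h'

lemma RR.smul {hc : Adm p c} {lam : ℝ} {f g : C(ℤ → A, ℝ)} (a : ℝ) (h : RR hc lam f g) :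
    RR hc lam (a • f) (a • g) :=
  Submodule.smul_mem _ a h

lemma RR.neg {hc : Adm p c} {lam : ℝ} {f g : C(ℤ → A, ℝ)} (h : RR hc lam f g) :
    RR hc lam (-f) (-g) :=
  Submodule.neg_mem _ h

/-- the bundled `h - gen c h / lam` -/
noncomputable def pre (hc : Adm p c) (lam : ℝ) (h : C(ℤ → A, ℝ)) (hh : Cyl (h : (ℤ → A) → ℝ)) :
    C(ℤ → A, ℝ) :=
  ⟨fun η => h η - gen c h η / lam, h.continuous.sub ((gen_continuous hc hh).div_const lam)⟩

@[simp] lemma pre_apply (hc : Adm p c) (lam : ℝ) (h : C(ℤ → A, ℝ))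
    (hh : Cyl (h : (ℤ → A) → ℝ)) (η : ℤ → A) : pre hc lam h hh η = h η - gen c h η / lam := rfl

lemma RR.of_cyl (hc : Adm p c) (lam : ℝ) (h : C(ℤ → A, ℝ)) (hh : Cyl (h : (ℤ → A) → ℝ)) :
    RR hc lam (pre hc lam h hh) h :=
  Submodule.le_topologicalClosure _ ⟨hh, fun _ => rfl⟩

lemma RR.of_mem {hc : Adm p c} {lam : ℝ} {f h : C(ℤ → A, ℝ)} (hh : Cyl (h : (ℤ → A) → ℝ))
    (e : ∀ η, f η = h η - gen c h η / lam) : RR hc lam f h :=
  Submodule.le_topologicalClosure _ ⟨hh, e⟩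

lemma RR.const (hc : Adm p c) (lam a : ℝ) : RR (A := A) hc lam (ContinuousMap.const _ a)
    (ContinuousMap.const _ a) := by
  refine RR.of_mem (cyl_const a) fun η => ?_
  have e2 : gen c ((ContinuousMap.const (ℤ → A) a : C(ℤ → A, ℝ)) : (ℤ → A) → ℝ) η
        = gen c (fun _ => a) η := rfl
  rw [e2, gen_const]
  simp

lemma RR.approx {hc : Adm p c} {lam : ℝ} {f g : C(ℤ → A, ℝ)} (h : RR hc lam f g)
    {ε : ℝ} (hε : 0 < ε) : ∃ h : C(ℤ → A, ℝ), ∃ hh : Cyl (h : (ℤ → A) → ℝ),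
      (∀ η, |f η - (h η - gen c h η / lam)| ≤ ε) ∧ ∀ η, |g η - h η| ≤ ε := by
  have h1 : (f, g) ∈ closure ((Gr A hc lam : Submodule ℝ (C(ℤ → A, ℝ) × C(ℤ → A, ℝ))) :
      Set (C(ℤ → A, ℝ) × C(ℤ → A, ℝ))) := h
  rw [Metric.mem_closure_iff] at h1
  obtain ⟨⟨f', g'⟩, ⟨hm1, hm2⟩, hd⟩ := h1 ε hε
  rw [Prod.dist_eq, max_lt_iff] at hd
  refine ⟨g', hm1, fun η => ?_, fun η => ?_⟩
  · have h3 := (ContinuousMap.dist_lt_iff hε).1 hd.1 η
    rw [Real.dist_eq] at h3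
    have h4 := hm2 η
    simp only at h4
    rw [← h4]
    exact h3.le
  · have h3 := (ContinuousMap.dist_lt_iff hε).1 hd.2 η
    rw [Real.dist_eq] at h3
    exact h3.le

/-- absorbing sets -/
def Absb (c : ℤ × ℤ → ℝ) (D : Set (ℤ → A)) : Prop := ∀ b, c b ≠ 0 → ∀ η ∈ D, mv b η ∈ D

lemma absb_univ (c : ℤ × ℤ → ℝ) : Absb c (univ : Set (ℤ → A)) := fun _ _ _ _ => mem_univ _

lemma RR.ge {hc : Adm p c} {lam : ℝ} (hlam : 0 < lam) {f g : C(ℤ → A, ℝ)} (h : RR hc lam f g)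
    {D : Set (ℤ → A)} (hD : IsClosed D) (hA : Absb c D) {m : ℝ} (hm : ∀ η ∈ D, m ≤ f η) :
    ∀ η ∈ D, m ≤ g η := by
  intro η hη
  refine le_of_forall_pos_le_add fun ε hε => ?_
  obtain ⟨h', hh, h1, h2⟩ := h.approx (half_pos hε)
  obtain ⟨ζ, hζ, hmin⟩ := hD.isCompact.exists_isMinOn ⟨η, hη⟩ h'.continuous.continuousOn
  have h3 : 0 ≤ gen c h' ζ := by
    refine tsum_nonneg fun b => ?_
    by_cases hb : c b = 0
    · simp [hb]
    · exact mul_nonneg (hc.nonneg b) (sub_nonneg.2 (hmin (hA b hb ζ hζ)))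
  have h4 : 0 ≤ gen c h' ζ / lam := div_nonneg h3 hlam.le
  have h5 := hm ζ hζ
  have h6 := (abs_le.1 (h1 ζ)).2
  have h7 := (abs_le.1 (h2 η)).1
  have h8 : h' ζ ≤ h' η := hmin hη
  linarith

lemma RR.le {hc : Adm p c} {lam : ℝ} (hlam : 0 < lam) {f g : C(ℤ → A, ℝ)} (h : RR hc lam f g)
    {D : Set (ℤ → A)} (hD : IsClosed D) (hA : Absb c D) {m : ℝ} (hm : ∀ η ∈ D, f η ≤ m) :
    ∀ η ∈ D, g η ≤ m := by
  intro η hη
  have h1 := h.neg.ge hlam hD hA (m := -m) (fun ζ hζ => by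
    simp only [ContinuousMap.neg_apply]; linarith [hm ζ hζ]) η hη
  simp only [ContinuousMap.neg_apply] at h1
  linarith

lemma RR.norm_le {hc : Adm p c} {lam : ℝ} (hlam : 0 < lam) {f g : C(ℤ → A, ℝ)}
    (h : RR hc lam f g) {m : ℝ} (hm : ∀ η, |f η| ≤ m) : ∀ η, |g η| ≤ m := by
  intro η
  rw [abs_le]
  refine ⟨?_, ?_⟩
  · exact h.ge hlam isClosed_univ (absb_univ c) (fun ζ _ => (abs_le.1 (hm ζ)).1) η (mem_univ _)
  · exact h.le hlam isClosed_univ (absb_univ c) (fun ζ _ => (abs_le.1 (hm ζ)).2) η (mem_univ _)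

lemma RR.unique {hc : Adm p c} {lam : ℝ} (hlam : 0 < lam) {f g g' : C(ℤ → A, ℝ)}
    (h : RR hc lam f g) (h' : RR hc lam f g') : g = g' := by
  have h1 := (h.sub h').norm_le hlam (m := 0) (fun η => by simp)
  ext η
  have h2 := h1 η
  simp only [ContinuousMap.sub_apply] at h2
  have h3 := abs_nonpos_iff.1 h2
  linarith

end Pool.Agent.Q298.Excl
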