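import Pool.Agent.Q298.Excl.Maps

/-!
# Existence of a stationary coupling
-/

open Set Filter Topology MeasureTheory Function

set_option linter.unusedSectionVars false

namespace Pool.Agent.Q298.Excl

section riesz

variable {X : Type*} [TopologicalSpace X] [CompactSpace X] [T2Space X] [MeasurableSpace X]
  [BorelSpace X]

lemma exists_measure (Λ : C(X, ℝ) → ℝ) (hadd : ∀ f g, Λ (f + g) = Λ f + Λ g)
    (hsmul : ∀ (a : ℝ) f, Λ (a • f) = a * Λ f) (hpos : ∀ f : C(X, ℝ), (∀ x, 0 ≤ f x) → 0 ≤ Λ f)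
    (hone : Λ 1 = 1) :
    ∃ ν : Measure X, IsProbabilityMeasure ν ∧ ∀ f : C(X, ℝ), ∫ x, f x ∂ν = Λ f := by
  have hzero : Λ 0 = 0 := by
    have := hsmul 0 0
    simpa using this
  have hmono : ∀ f g : C(X, ℝ), (∀ x, f x ≤ g x) → Λ f ≤ Λ g := by
    intro f g hfg
    have h1 := hpos (g + (-1 : ℝ) • f) (fun x => by
      simp only [ContinuousMap.add_apply, ContinuousMap.smul_apply, smul_eq_mul]
      linarith [hfg x])
    rw [hadd, hsmul] at h1
    linarith
  let Φ : CompactlySupportedContinuousMap X ℝ →ₚ[ℝ] ℝ :=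
  { toFun := fun g => Λ g.toContinuousMap
    map_add' := fun g g' => hadd _ _
    map_smul' := fun a g => hsmul a _
    monotone' := fun g g' hgg' => hmono _ _ hgg' }
  have hint : ∀ f : C(X, ℝ), ∫ x, f x ∂(RealRMK.rieszMeasure Φ) = Λ f := by
    intro f
    let g' : CompactlySupportedContinuousMap X ℝ :=
    { toContinuousMap := f
      hasCompactSupport' := HasCompactSupport.of_compactSpace _ }
    exact RealRMK.integral_rieszMeasure Φ g'
  refine ⟨RealRMK.rieszMeasure Φ, ?_, hint⟩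
  have h1 := hint 1
  rw [hone] at h1
  simp only [ContinuousMap.one_apply, integral_const, smul_eq_mul, mul_one] at h1
  constructor
  have h2 : (RealRMK.rieszMeasure Φ univ).toReal = 1 := h1
  have h3 : RealRMK.rieszMeasure Φ univ ≠ ⊤ := measure_ne_top _ _
  rw [← ENNReal.ofReal_toReal h3, h2]
  simp

end riesz

/-- ultrafilter limit of a bounded sequence -/
lemma exists_ulim (a : ℕ → ℝ) (m : ℝ) (h : ∀ n, |a n| ≤ m) :
    ∃ l, Tendsto a (hyperfilter ℕ : Filter ℕ) (𝓝 l) := by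
  have hK : IsCompact (Icc (-m) m) := isCompact_Icc
  have h1 : ((hyperfilter ℕ).map a : Filter ℝ) ≤ 𝓟 (Icc (-m) m) := by
    rw [le_principal_iff]
    exact Filter.mem_map.2 (Filter.univ_mem' fun n => abs_le.1 (h n))
  obtain ⟨x, _, hx⟩ := hK.ultrafilter_le_nhds _ h1
  exact ⟨x, hx⟩

variable {p : ℤ → ℝ}

theorem exists_coupling (hp : Kern p) (μ : Measure Cf) [IsProbabilityMeasure μ]
    (hμ : Stat (rt p) μ) :
    ∃ ν : Measure Pf, IsProbabilityMeasure ν ∧ Stat (rt p) ν ∧
      (∀ f : C(Cf, ℝ), ∫ ω, f (pr1 ω) ∂ν = ∫ η, f η ∂μ) ∧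
      (∀ f : C(Cf, ℝ), ∫ ω, f (pr2 ω) ∂ν = ∫ η, f (sh η) ∂μ) ∧
      (∀ (F : C(Pf, ℝ)) (m : ℝ), (∀ lam : ℝ, 0 < lam →
        ∫ η, res (adm_rt hp) lam F (io η) ∂μ ≤ m) → ∫ ω, F ω ∂ν ≤ m) := by
  have hlam : ∀ n : ℕ, (0 : ℝ) < 1 / ((n : ℝ) + 1) := fun n => by positivity
  set ph : ℕ → C(Pf, ℝ) → ℝ := fun n F => ∫ η, res (adm_rt hp) (1 / ((n : ℝ) + 1)) F (io η) ∂μ
    with hph
  have hint : ∀ F : C(Pf, ℝ), Integrable (fun η => F (io η)) μ := fun F =>
    integrable_C μ (F.comp io)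
  have hbd : ∀ F : C(Pf, ℝ), ∀ n, |ph n F| ≤ ‖F‖ := by
    intro F n
    have h1 : ∀ η, |res (adm_rt hp) (1 / ((n : ℝ) + 1)) F (io η)| ≤ ‖F‖ := fun η =>
      res_abs (adm_rt hp) (hlam n) (fun ω => F.norm_coe_le_norm ω) (io η)
    have h2 := norm_integral_le_of_norm_le_const (μ := μ) (Eventually.of_forall
      (fun η => (Real.norm_eq_abs _).le.trans (h1 η)))
    rw [probReal_univ, mul_one, Real.norm_eq_abs] at h2
    exact h2
  choose Λ hΛ using fun F => exists_ulim (fun n => ph n F) ‖F‖ (hbd F)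
  have hadd : ∀ f g, Λ (f + g) = Λ f + Λ g := by
    intro f g
    refine tendsto_nhds_unique (hΛ (f + g)) ?_
    refine ((hΛ f).add (hΛ g)).congr fun n => ?_
    simp only [hph]
    rw [res_add (adm_rt hp) (hlam n), ← integral_add (hint _) (hint _)]
    rfl
  have hsmul : ∀ (a : ℝ) f, Λ (a • f) = a * Λ f := by
    intro a f
    refine tendsto_nhds_unique (hΛ (a • f)) ?_
    refine ((hΛ f).const_mul a).congr fun n => ?_
    simp only [hph]
    rw [res_smul (adm_rt hp) (hlam n), ← integral_const_mul]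
    rfl
  have hpos : ∀ f : C(Pf, ℝ), (∀ x, 0 ≤ f x) → 0 ≤ Λ f := by
    intro f hf
    refine ge_of_tendsto (hΛ f) (Eventually.of_forall fun n => ?_)
    exact integral_nonneg fun η => res_ge (adm_rt hp) (hlam n) hf (io η)
  have hone : Λ 1 = 1 := by
    refine tendsto_nhds_unique (hΛ 1) ?_
    refine tendsto_const_nhds.congr fun n => ?_
    simp only [hph]
    have h1 : res (adm_rt hp) (1 / ((n : ℝ) + 1)) (1 : C(Pf, ℝ)) = 1 :=
      res_const (adm_rt hp) (hlam n) 1
    rw [h1]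
    simp
  obtain ⟨ν, hν, hνΛ⟩ := exists_measure Λ hadd hsmul hpos hone
  refine ⟨ν, hν, ?_, ?_, ?_, ?_⟩
  · intro h hh
    have hc := gen_continuous (adm_rt hp) hh
    have h1 := hνΛ ⟨_, hc⟩
    have h2 : Λ ⟨_, hc⟩ = 0 := by
      refine tendsto_nhds_unique (hΛ ⟨_, hc⟩) ?_
      obtain ⟨D, hD⟩ := hh.bdd
      have hlim : Tendsto (fun n : ℕ => 1 / ((n : ℝ) + 1) * (2 * D))
          ((hyperfilter ℕ : Ultrafilter ℕ) : Filter ℕ) (𝓝 0) := by
        have h3 := (tendsto_one_div_add_atTop_nhds_zero_nat (𝕜 := ℝ)).mul_const (2 * D)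
        rw [zero_mul] at h3
        exact h3.mono_left Nat.hyperfilter_le_atTop
      refine squeeze_zero_norm (fun n => ?_) hlim
      simp only [hph]
      set lam := 1 / ((n : ℝ) + 1) with hl
      have h4 : res (adm_rt hp) lam (⟨_, hc⟩ : C(Pf, ℝ))
          = lam • (res (adm_rt hp) lam ⟨h, hh.continuous⟩ - ⟨h, hh.continuous⟩) := by
        have h5 : (⟨_, hc⟩ : C(Pf, ℝ)) = lam • ((⟨h, hh.continuous⟩ : C(Pf, ℝ))
            - pre (adm_rt hp) lam ⟨h, hh.continuous⟩ hh) := by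
          ext ω
          simp only [ContinuousMap.smul_apply, ContinuousMap.sub_apply, pre_apply, smul_eq_mul,
            ContinuousMap.coe_mk]
          have hne : lam ≠ 0 := (hlam n).ne'
          field_simp
          ring
        rw [h5, res_smul (adm_rt hp) (hlam n), res_sub (adm_rt hp) (hlam n),
          res_cyl (adm_rt hp) (hlam n)]
      rw [h4]
      have h6 : ∀ η, ‖(lam • (res (adm_rt hp) lam ⟨h, hh.continuous⟩
          - (⟨h, hh.continuous⟩ : C(Pf, ℝ)))) (io η)‖ ≤ lam * (2 * D) := by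
        intro η
        simp only [ContinuousMap.smul_apply, ContinuousMap.sub_apply, smul_eq_mul,
          ContinuousMap.coe_mk]
        rw [Real.norm_eq_abs, abs_mul, abs_of_pos (hlam n)]
        refine mul_le_mul_of_nonneg_left ?_ (hlam n).le
        have h7 := res_abs (adm_rt hp) (hlam n) (f := ⟨h, hh.continuous⟩) hD (io η)
        have h8 := hD (io η)
        calc _ ≤ |res (adm_rt hp) lam ⟨h, hh.continuous⟩ (io η)| + |h (io η)| := abs_sub _ _
          _ ≤ 2 * D := by linarith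
      have h9 := norm_integral_le_of_norm_le_const (μ := μ) (Eventually.of_forall h6)
      simpa using h9
    rw [h2] at h1
    exact h1
  · intro f
    have h1 := hνΛ (f.comp pr1)
    have h2 : Λ (f.comp pr1) = ∫ η, f η ∂μ := by
      refine tendsto_nhds_unique (hΛ (f.comp pr1)) ?_
      refine tendsto_const_nhds.congr fun n => ?_
      simp only [hph]
      rw [res_pr1 (adm_rt hp) (hlam n)]
      exact (hμ.inv (hlam n) f).symm
    rw [h2] at h1
    exact h1
  · intro f
    have h1 := hνΛ (f.comp pr2)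
    have h2 : Λ (f.comp pr2) = ∫ η, f (sh η) ∂μ := by
      refine tendsto_nhds_unique (hΛ (f.comp pr2)) ?_
      refine tendsto_const_nhds.congr fun n => ?_
      simp only [hph]
      rw [res_pr2 (adm_rt hp) (hlam n)]
      have h3 := hμ.inv (hc := adm_rt hp) (hlam n) (f.comp sh)
      rw [res_sh hp (hlam n)] at h3
      exact h3.symm
    rw [h2] at h1
    exact h1
  · intro F m hF
    rw [hνΛ F]
    refine le_of_tendsto (hΛ F) (Eventually.of_forall fun n => ?_)
    exact hF _ (hlam n)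

end Pool.Agent.Q298.Excl
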