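import Pool.Agent.Q298.Excl.Clo

/-!
# Density of the range of `h ↦ h - gen c h / lam` for large `lam`
-/

open Set Filter Topology MeasureTheory Function

set_option linter.unusedSectionVars false

namespace Pool.Agent.Q298.Excl

variable {A : Type*}

/-- weight -/
noncomputable def wt (z : ℤ) : ℝ := 1 + |(z : ℝ)|

lemma wt_pos (z : ℤ) : 0 < wt z := by unfold wt; positivity

lemma one_le_wt (z : ℤ) : 1 ≤ wt z := by unfold wt; linarith [abs_nonneg (z : ℝ)]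

lemma wt_le (x y : ℤ) : wt x ≤ wt y + |((y - x : ℤ) : ℝ)| := by
  unfold wt
  push_cast
  have h := abs_sub_abs_le_abs_sub (x : ℝ) y
  rw [abs_sub_comm] at h
  linarith

lemma wt_le' (x y : ℤ) : wt y ≤ wt x + |((y - x : ℤ) : ℝ)| := by
  unfold wt
  push_cast
  have h := abs_sub_abs_le_abs_sub (y : ℝ) x
  linarith

/-- the constant `2 (P + M)` -/
noncomputable def CC (p : ℤ → ℝ) : ℝ := 2 * ((∑' k, p k) + ∑' k : ℤ, |(k : ℝ)| * p k)

lemma CC_nonneg {p : ℤ → ℝ} (hp : Kern p) : 0 ≤ CC p := by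
  unfold CC
  have h1 : 0 ≤ ∑' k, p k := tsum_nonneg hp.nonneg
  have h2 : 0 ≤ ∑' k : ℤ, |(k : ℝ)| * p k :=
    tsum_nonneg fun k => mul_nonneg (abs_nonneg _) (hp.nonneg k)
  linarith

/-- dominating terms -/
noncomputable def dom (p : ℤ → ℝ) (δ : ℤ → ℝ) (b : ℤ × ℤ) : ℝ :=
  p (b.2 - b.1) * ((wt b.2 + |((b.2 - b.1 : ℤ) : ℝ)|) * δ b.2
    + (wt b.1 + |((b.2 - b.1 : ℤ) : ℝ)|) * δ b.1)

lemma dom_hasSum {p : ℤ → ℝ} (hp : Kern p) {δ : ℤ → ℝ} {S : Finset ℤ} (h0 : ∀ z, 0 ≤ δ z)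
    (hS : ∀ z, z ∉ S → δ z = 0) :
    ∃ s, HasSum (dom p δ) s ∧ s ≤ CC p * ∑ z ∈ S, wt z * δ z := by
  have hs1 : Summable fun z => wt z * δ z := summable_fin (S := S) fun z hz => by simp [hS z hz]
  have hs2 : Summable δ := summable_fin (S := S) hS
  have e1 : ∑' z, wt z * δ z = ∑ z ∈ S, wt z * δ z :=
    tsum_eq_sum fun z hz => by simp [hS z hz]
  have e2 : ∑' z, δ z = ∑ z ∈ S, δ z := tsum_eq_sum fun z hz => hS z hz
  have a1 := hasSum_right hs1 hp.summ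
  have a2 := hasSum_left hs1 hp.summ
  have a3 := hasSum_right hs2 hp.mom
  have a4 := hasSum_left hs2 hp.mom
  have h := (a1.add a3).add (a2.add a4)
  have e : dom p δ = fun b : ℤ × ℤ => wt b.2 * δ b.2 * p (b.2 - b.1) +
      δ b.2 * (|((b.2 - b.1 : ℤ) : ℝ)| * p (b.2 - b.1)) +
      (wt b.1 * δ b.1 * p (b.2 - b.1) + δ b.1 * (|((b.2 - b.1 : ℤ) : ℝ)| * p (b.2 - b.1))) := by
    funext b; unfold dom; ring
  rw [← e] at h
  refine ⟨_, h, ?_⟩
  · rw [e1, e2]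
    have h1 : ∑ z ∈ S, δ z ≤ ∑ z ∈ S, wt z * δ z := by
      refine Finset.sum_le_sum fun z _ => ?_
      nlinarith [one_le_wt z, h0 z]
    have h2 : 0 ≤ ∑' k : ℤ, |(k : ℝ)| * p k :=
      tsum_nonneg fun k => mul_nonneg (abs_nonneg _) (hp.nonneg k)
    unfold CC
    nlinarith [mul_le_mul_of_nonneg_right h1 h2]

lemma dom_nonneg {p : ℤ → ℝ} (hp : Kern p) {δ : ℤ → ℝ} (h0 : ∀ z, 0 ≤ δ z) (b : ℤ × ℤ) :
    0 ≤ dom p δ b := by
  unfold dom
  have := wt_pos b.1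
  have := wt_pos b.2
  have := hp.nonneg (b.2 - b.1)
  have := h0 b.1
  have := h0 b.2
  positivity

lemma le_dom {p : ℤ → ℝ} {c : ℤ × ℤ → ℝ} (hc : Adm p c) {δ : ℤ → ℝ} (h0 : ∀ z, 0 ≤ δ z)
    (b : ℤ × ℤ) : c b * (wt b.1 * δ b.2 + wt b.2 * δ b.1) ≤ dom p δ b := by
  unfold dom
  have h1 := wt_le b.1 b.2
  have h2 := wt_le' b.1 b.2
  refine mul_le_mul (hc.le b) ?_ ?_ (hc.kern.nonneg _)
  · exact add_le_add (mul_le_mul_of_nonneg_right h1 (h0 _)) (mul_le_mul_of_nonneg_right h2 (h0 _))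
  · exact add_nonneg (mul_nonneg (wt_pos _).le (h0 _)) (mul_nonneg (wt_pos _).le (h0 _))

/-- sensitivity -/
def Sens (g : (ℤ → A) → ℝ) (δ : ℤ → ℝ) : Prop :=
  ∀ η z a, |g (update η z a) - g η| ≤ δ z

lemma Sens.two {g : (ℤ → A) → ℝ} {δ : ℤ → ℝ} (h : Sens g δ) {x y : ℤ} {η ξ : ℤ → A}
    (e : ∀ z, z ≠ x → z ≠ y → η z = ξ z) : |g ξ - g η| ≤ δ x + δ y := by
  have e1 : ξ = update (update η x (ξ x)) y (ξ y) := by
    funext z
    by_cases hy : z = y
    · subst hy; simp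
    · by_cases hx : z = x
      · subst hx; simp [update_of_ne hy]
      · rw [update_of_ne hy, update_of_ne hx]; exact (e z hx hy).symm
  have h1 := h η x (ξ x)
  have h2 := h (update η x (ξ x)) y (ξ y)
  rw [← e1] at h2
  calc |g ξ - g η| = |(g ξ - g (update η x (ξ x))) + (g (update η x (ξ x)) - g η)| := by ring_nf
    _ ≤ |g ξ - g (update η x (ξ x))| + |g (update η x (ξ x)) - g η| := abs_add_le _ _
    _ ≤ δ x + δ y := by linarith

/-- sensitivity after a move -/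
noncomputable def sb (b : ℤ × ℤ) (δ : ℤ → ℝ) (z : ℤ) : ℝ :=
  δ z + (if z = b.1 then δ b.2 else 0) + (if z = b.2 then δ b.1 else 0)

lemma Sens.mv [Lattice A] {g : (ℤ → A) → ℝ} {δ : ℤ → ℝ} (h : Sens g δ) (h0 : ∀ z, 0 ≤ δ z)
    (b : ℤ × ℤ) : Sens (fun η => g (mv b η)) (sb b δ) := by
  intro η z a
  by_cases hz : z = b.1 ∨ z = b.2
  · have h1 : |g (Excl.mv b (update η z a)) - g (Excl.mv b η)| ≤ δ b.1 + δ b.2 := by
      refine h.two (x := b.1) (y := b.2) fun w hw1 hw2 => ?_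
      rw [mv_of_ne _ _ hw1 hw2, mv_of_ne _ _ hw1 hw2, update_of_ne]
      rcases hz with hz | hz <;> rw [hz] <;> assumption
    refine h1.trans ?_
    unfold sb
    rcases hz with hz | hz
    · rw [hz]
      by_cases hb : b.1 = b.2
      · simp [hb]; linarith [h0 b.2]
      · simp [hb]
    · rw [hz]
      by_cases hb : b.2 = b.1
      · simp [hb]; linarith [h0 b.1]
      · simp [hb]; linarith
  · push Not at hz
    have e : Excl.mv b (update η z a) = update (Excl.mv b η) z a := by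
      funext w
      by_cases hw : w = z
      · subst hw
        rw [mv_of_ne _ _ hz.1 hz.2]; simp
      · rw [update_of_ne hw]
        unfold Excl.mv
        rw [update_of_ne (Ne.symm hz.1), update_of_ne (Ne.symm hz.2), update_of_ne hw]
    simp only [e]
    refine (h _ z a).trans ?_
    simp [sb, hz.1, hz.2]

variable [Lattice A]

/-- one step of the finite volume recursion -/
noncomputable def stp (c : ℤ × ℤ → ℝ) (lam : ℝ) (E : Finset (ℤ × ℤ)) (f g : (ℤ → A) → ℝ)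
    (η : ℤ → A) : ℝ :=
  (lam * f η + ∑ b ∈ E, c b * g (mv b η)) / (lam + ∑ b ∈ E, c b)

lemma Sens.stp {c : ℤ × ℤ → ℝ} (hc0 : ∀ b, 0 ≤ c b) {lam : ℝ} (hlam : 0 < lam)
    (E : Finset (ℤ × ℤ)) {f g : (ℤ → A) → ℝ} {δf δ : ℤ → ℝ} (hf : Sens f δf) (hg : Sens g δ)
    (h0 : ∀ z, 0 ≤ δ z) :
    Sens (Excl.stp c lam E f g)
      (fun z => (lam * δf z + ∑ b ∈ E, c b * sb b δ z) / (lam + ∑ b ∈ E, c b)) := by
  intro η z a
  have hE : 0 ≤ ∑ b ∈ E, c b := Finset.sum_nonneg fun b _ => hc0 b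
  have hpos : 0 < lam + ∑ b ∈ E, c b := by linarith
  unfold Excl.stp
  rw [← sub_div, abs_div, abs_of_pos hpos]
  refine div_le_div_of_nonneg_right ?_ hpos.le
  have e : lam * f (update η z a) + ∑ b ∈ E, c b * g (Excl.mv b (update η z a))
      - (lam * f η + ∑ b ∈ E, c b * g (Excl.mv b η))
      = lam * (f (update η z a) - f η)
        + ∑ b ∈ E, c b * (g (Excl.mv b (update η z a)) - g (Excl.mv b η)) := by
    simp only [mul_sub, Finset.sum_sub_distrib]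
    ring
  rw [e]
  refine (abs_add_le _ _).trans (add_le_add ?_ ?_)
  · rw [abs_mul, abs_of_pos hlam]
    exact mul_le_mul_of_nonneg_left (hf η z a) hlam.le
  · refine (Finset.abs_sum_le_sum_abs _ _).trans (Finset.sum_le_sum fun b _ => ?_)
    rw [abs_mul, abs_of_nonneg (hc0 b)]
    exact mul_le_mul_of_nonneg_left (hg.mv h0 b η z a) (hc0 b)


lemma sb_nonneg {δ : ℤ → ℝ} (h0 : ∀ z, 0 ≤ δ z) (b : ℤ × ℤ) (z : ℤ) : 0 ≤ sb b δ z := by
  unfold sb
  have h1 := h0 z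
  have h2 := h0 b.1
  have h3 := h0 b.2
  split_ifs <;> linarith

lemma wsum_sb {S : Finset ℤ} (δ : ℤ → ℝ) {b : ℤ × ℤ} (h1 : b.1 ∈ S) (h2 : b.2 ∈ S) :
    ∑ z ∈ S, wt z * sb b δ z = (∑ z ∈ S, wt z * δ z) + (wt b.1 * δ b.2 + wt b.2 * δ b.1) := by
  unfold sb
  simp only [mul_add, Finset.sum_add_distrib, mul_ite, mul_zero, Finset.sum_ite_eq', h1, h2,
    if_true]
  ring

lemma wsum_step {p : ℤ → ℝ} {c : ℤ × ℤ → ℝ} (hc : Adm p c) {δ : ℤ → ℝ} {S : Finset ℤ}
    (h0 : ∀ z, 0 ≤ δ z) (hS : ∀ z, z ∉ S → δ z = 0) (E : Finset (ℤ × ℤ)) :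
    ∑ b ∈ E, c b * (wt b.1 * δ b.2 + wt b.2 * δ b.1) ≤ CC p * ∑ z ∈ S, wt z * δ z := by
  obtain ⟨s, hs, hle⟩ := dom_hasSum hc.kern h0 hS
  refine le_trans ?_ hle
  calc ∑ b ∈ E, c b * (wt b.1 * δ b.2 + wt b.2 * δ b.1) ≤ ∑ b ∈ E, dom p δ b :=
        Finset.sum_le_sum fun b _ => le_dom hc h0 b
    _ ≤ s := sum_le_hasSum E (fun b _ => dom_nonneg hc.kern h0 b) hs

/-- the box -/
noncomputable def Bx (n : ℕ) : Finset ℤ := Finset.Icc (-(n : ℤ)) n

lemma mem_Bx {n : ℕ} {z : ℤ} : z ∈ Bx n ↔ -(n : ℤ) ≤ z ∧ z ≤ n := by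
  unfold Bx; rw [Finset.mem_Icc]

lemma wt_of_not_mem {n : ℕ} {z : ℤ} (h : z ∉ Bx n) : (n : ℝ) + 1 ≤ wt z := by
  unfold wt
  rw [mem_Bx, not_and_or] at h
  have h1 : (n : ℝ) ≤ |(z : ℝ)| := by
    rcases h with h | h
    · have h2 : z ≤ -(n : ℤ) := by omega
      have h3 : (z : ℝ) ≤ -(n : ℝ) := by exact_mod_cast h2
      linarith [neg_le_abs (z : ℝ)]
    · have h2 : (n : ℤ) ≤ z := by omega
      have h3 : (n : ℝ) ≤ z := by exact_mod_cast h2
      linarith [le_abs_self (z : ℝ)]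
  linarith

/-- finite volume iterates -/
noncomputable def its (c : ℤ × ℤ → ℝ) (lam : ℝ) (E : Finset (ℤ × ℤ)) (f : (ℤ → A) → ℝ) :
    ℕ → (ℤ → A) → ℝ
  | 0 => f
  | k + 1 => stp c lam E f (its c lam E f k)

lemma its_dep {c : ℤ × ℤ → ℝ} {lam : ℝ} {n : ℕ} {f : (ℤ → A) → ℝ} (hf : DepOn f (Bx n)) (k : ℕ) :
    DepOn (its c lam (Bx n ×ˢ Bx n) f k) (Bx n) := by
  induction k with
  | zero => exact hf
  | succ k ih =>
    intro η ξ e
    unfold its stp
    rw [hf η ξ e]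
    have h : ∀ b ∈ Bx n ×ˢ Bx n, c b * its c lam (Bx n ×ˢ Bx n) f k (mv b η)
        = c b * its c lam (Bx n ×ˢ Bx n) f k (mv b ξ) := by
      intro b hb
      rw [Finset.mem_product] at hb
      rw [ih _ _ (mv_agree (S := (Bx n : Set ℤ)) b hb.1 hb.2 e)]
    rw [Finset.sum_congr rfl h]

lemma its_sens {p : ℤ → ℝ} {c : ℤ × ℤ → ℝ} (hc : Adm p c) {lam : ℝ} (hlam : 0 < lam)
    (hL : 2 * CC p ≤ lam) {n : ℕ} {f : (ℤ → A) → ℝ} {δf : ℤ → ℝ} (h0 : ∀ z, 0 ≤ δf z)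
    (hS : ∀ z, z ∉ Bx n → δf z = 0) (hf : Sens f δf) (k : ℕ) :
    ∃ δ : ℤ → ℝ, (∀ z, 0 ≤ δ z) ∧ (∀ z, z ∉ Bx n → δ z = 0) ∧
      Sens (its c lam (Bx n ×ˢ Bx n) f k) δ ∧
      ∑ z ∈ Bx n, wt z * δ z ≤ 2 * ∑ z ∈ Bx n, wt z * δf z := by
  have hW0 : 0 ≤ ∑ z ∈ Bx n, wt z * δf z :=
    Finset.sum_nonneg fun z _ => mul_nonneg (wt_pos z).le (h0 z)
  induction k with
  | zero => exact ⟨δf, h0, hS, hf, by linarith⟩
  | succ k ih =>
    obtain ⟨δ, d0, dS, ds, dW⟩ := ih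
    set E := Bx n ×ˢ Bx n with hE
    have hE0 : 0 ≤ ∑ b ∈ E, c b := Finset.sum_nonneg fun b _ => hc.nonneg b
    have hpos : 0 < lam + ∑ b ∈ E, c b := by linarith
    refine ⟨fun z => (lam * δf z + ∑ b ∈ E, c b * sb b δ z) / (lam + ∑ b ∈ E, c b), ?_, ?_, ?_, ?_⟩
    · intro z
      refine div_nonneg (add_nonneg (mul_nonneg hlam.le (h0 z)) ?_) hpos.le
      exact Finset.sum_nonneg fun b _ => mul_nonneg (hc.nonneg b) (sb_nonneg d0 b z)
    · intro z hz
      have h1 : ∑ b ∈ E, c b * sb b δ z = 0 := by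
        refine Finset.sum_eq_zero fun b hb => ?_
        rw [hE, Finset.mem_product] at hb
        have n1 : z ≠ b.1 := by rintro rfl; exact hz hb.1
        have n2 : z ≠ b.2 := by rintro rfl; exact hz hb.2
        simp [sb, n1, n2, dS z hz]
      simp [h1, hS z hz]
    · exact Sens.stp hc.nonneg hlam E hf ds d0
    · have e1 : ∑ z ∈ Bx n, wt z * ((lam * δf z + ∑ b ∈ E, c b * sb b δ z)
          / (lam + ∑ b ∈ E, c b))
          = (lam * (∑ z ∈ Bx n, wt z * δf z) + ∑ b ∈ E, c b * ∑ z ∈ Bx n, wt z * sb b δ z)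
            / (lam + ∑ b ∈ E, c b) := by
        rw [eq_div_iff hpos.ne', Finset.sum_mul]
        have e2 : ∀ z ∈ Bx n, wt z * ((lam * δf z + ∑ b ∈ E, c b * sb b δ z)
          / (lam + ∑ b ∈ E, c b)) * (lam + ∑ b ∈ E, c b)
            = lam * (wt z * δf z) + ∑ b ∈ E, c b * (wt z * sb b δ z) := by
          intro z _
          rw [mul_assoc, div_mul_cancel₀ _ hpos.ne', mul_add, Finset.mul_sum]
          congr 1
          · ring
          · refine Finset.sum_congr rfl fun b _ => by ring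
        rw [Finset.sum_congr rfl e2, Finset.sum_add_distrib, ← Finset.mul_sum, Finset.sum_comm]
        congr 1
        refine Finset.sum_congr rfl fun b _ => ?_
        rw [Finset.mul_sum]
      rw [e1, div_le_iff₀ hpos]
      have e3 : ∑ b ∈ E, c b * ∑ z ∈ Bx n, wt z * sb b δ z
          = (∑ b ∈ E, c b) * (∑ z ∈ Bx n, wt z * δ z)
            + ∑ b ∈ E, c b * (wt b.1 * δ b.2 + wt b.2 * δ b.1) := by
        rw [Finset.sum_mul, ← Finset.sum_add_distrib]
        refine Finset.sum_congr rfl fun b hb => ?_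
        rw [hE, Finset.mem_product] at hb
        rw [wsum_sb δ hb.1 hb.2]
        ring
      have h2 := wsum_step hc d0 dS E
      rw [e3]
      have h3 : CC p * ∑ z ∈ Bx n, wt z * δ z ≤ CC p * (2 * ∑ z ∈ Bx n, wt z * δf z) :=
        mul_le_mul_of_nonneg_left dW (CC_nonneg hc.kern)
      have h4 := mul_le_mul_of_nonneg_left dW hE0
      nlinarith [mul_le_mul_of_nonneg_right hL hW0]

lemma its_diff {c : ℤ × ℤ → ℝ} (hc0 : ∀ b, 0 ≤ c b) {lam : ℝ} (hlam : 0 < lam)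
    (E : Finset (ℤ × ℤ)) {f : (ℤ → A) → ℝ} {D : ℝ} (hD : ∀ η, |f η| ≤ D) (k : ℕ) (η : ℤ → A) :
    |its c lam E f (k + 1) η - its c lam E f k η|
      ≤ ((∑ b ∈ E, c b) / (lam + ∑ b ∈ E, c b)) ^ k * (2 * D) := by
  have hE : 0 ≤ ∑ b ∈ E, c b := Finset.sum_nonneg fun b _ => hc0 b
  have hpos : 0 < lam + ∑ b ∈ E, c b := by linarith
  induction k generalizing η with
  | zero =>
    simp only [pow_zero, one_mul]
    have h1 : |its c lam E f 1 η| ≤ D := by
      unfold its stp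
      rw [abs_div, abs_of_pos hpos, div_le_iff₀ hpos]
      refine (abs_add_le _ _).trans ?_
      rw [abs_mul, abs_of_pos hlam]
      have h2 : |∑ b ∈ E, c b * its c lam E f 0 (mv b η)| ≤ (∑ b ∈ E, c b) * D := by
        refine (Finset.abs_sum_le_sum_abs _ _).trans ?_
        rw [Finset.sum_mul]
        refine Finset.sum_le_sum fun b _ => ?_
        rw [abs_mul, abs_of_nonneg (hc0 b)]
        exact mul_le_mul_of_nonneg_left (hD _) (hc0 b)
      nlinarith [mul_le_mul_of_nonneg_left (hD η) hlam.le]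
    calc |its c lam E f (0 + 1) η - its c lam E f 0 η|
        ≤ |its c lam E f (0 + 1) η| + |its c lam E f 0 η| := abs_sub _ _
      _ ≤ 2 * D := by
        have := hD η
        have e : its c lam E f 0 η = f η := rfl
        rw [e]
        simp only [zero_add]
        linarith
  | succ k ih =>
    have e : its c lam E f (k + 1 + 1) η - its c lam E f (k + 1) η
        = (∑ b ∈ E, c b * (its c lam E f (k + 1) (mv b η) - its c lam E f k (mv b η)))
          / (lam + ∑ b ∈ E, c b) := by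
      have e1 : its c lam E f (k + 1 + 1) η
        = (lam * f η + ∑ b ∈ E, c b * its c lam E f (k + 1) (mv b η)) / (lam + ∑ b ∈ E, c b) := rfl
      have e2 : its c lam E f (k + 1) η
        = (lam * f η + ∑ b ∈ E, c b * its c lam E f k (mv b η)) / (lam + ∑ b ∈ E, c b) := rfl
      rw [e1, e2, ← sub_div]
      congr 1
      simp only [mul_sub, Finset.sum_sub_distrib]
      ring
    rw [e, abs_div, abs_of_pos hpos, div_le_iff₀ hpos]
    refine (Finset.abs_sum_le_sum_abs _ _).trans ?_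
    have h1 : ∀ b ∈ E, |c b * (its c lam E f (k + 1) (mv b η) - its c lam E f k (mv b η))|
        ≤ c b * (((∑ b ∈ E, c b) / (lam + ∑ b ∈ E, c b)) ^ k * (2 * D)) := by
      intro b _
      rw [abs_mul, abs_of_nonneg (hc0 b)]
      exact mul_le_mul_of_nonneg_left (ih _) (hc0 b)
    refine (Finset.sum_le_sum h1).trans (le_of_eq ?_)
    rw [← Finset.sum_mul, pow_succ]
    field_simp


lemma Sens.one {g : (ℤ → A) → ℝ} {δ : ℤ → ℝ} (h : Sens g δ) {x : ℤ} {η ξ : ℤ → A}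
    (e : ∀ z, z ≠ x → η z = ξ z) : |g ξ - g η| ≤ δ x := by
  have e1 : ξ = update η x (ξ x) := by
    funext z
    by_cases hx : z = x
    · subst hx; simp
    · rw [update_of_ne hx]; exact (e z hx).symm
  rw [e1]
  exact h η x (ξ x)

lemma DepOn.diff_le {g : (ℤ → A) → ℝ} {δ : ℤ → ℝ} {S : Finset ℤ} (hg : DepOn g S)
    (h : Sens g δ) {x y : ℤ} (hy : y ∉ S) {η ξ : ℤ → A}
    (e : ∀ z, z ≠ x → z ≠ y → η z = ξ z) : |g ξ - g η| ≤ δ x := by
  have e1 : g ξ = g (update ξ y (η y)) := by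
    refine hg _ _ fun z hz => ?_
    rw [update_of_ne]
    rintro rfl
    exact hy hz
  rw [e1]
  refine h.one (x := x) fun z hz => ?_
  by_cases hzy : z = y
  · subst hzy; simp
  · rw [update_of_ne hzy]; exact e z hz hzy

lemma bdry {p : ℤ → ℝ} {c : ℤ × ℤ → ℝ} (hc : Adm p c) {n : ℕ} {g : (ℤ → A) → ℝ}
    (hg : DepOn g (Bx n)) {δ : ℤ → ℝ} (h0 : ∀ z, 0 ≤ δ z) (hS : ∀ z, z ∉ Bx n → δ z = 0)
    (hs : Sens g δ) (η : ℤ → A) (hsum : Summable fun b : ℤ × ℤ => c b * (g (mv b η) - g η)) :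
    |gen c g η - ∑ b ∈ Bx n ×ˢ Bx n, c b * (g (mv b η) - g η)|
      ≤ CC p * (∑ z ∈ Bx n, wt z * δ z) / (n + 1) := by
  obtain ⟨s, hs1, hs2⟩ := dom_hasSum hc.kern h0 hS
  set E := Bx n ×ˢ Bx n with hE
  have hn : (0 : ℝ) < n + 1 := by positivity
  have e1 : gen c g η - ∑ b ∈ E, c b * (g (mv b η) - g η)
      = ∑' b : ℤ × ℤ, (c b * (g (mv b η) - g η) - if b ∈ E then c b * (g (mv b η) - g η) else 0) := by
    have hs3 : Summable fun b : ℤ × ℤ => if b ∈ E then c b * (g (mv b η) - g η) else 0 :=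
      summable_of_ne_finset_zero (s := E) (fun b hb => by simp [hb])
    rw [hsum.tsum_sub hs3]
    congr 1
    rw [tsum_eq_sum (s := E) (fun b hb => by simp [hb])]
    exact Finset.sum_congr rfl fun b hb => by simp [hb]
  rw [e1]
  have h1 : HasSum (fun b => dom p δ b / (n + 1)) (s / (n + 1)) := hs1.div_const _
  have h2 : ∀ b : ℤ × ℤ, ‖c b * (g (mv b η) - g η)
      - (if b ∈ E then c b * (g (mv b η) - g η) else 0)‖ ≤ dom p δ b / (n + 1) := by
    intro b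
    have hd := dom_nonneg hc.kern h0 b
    by_cases hb : b ∈ E
    · simp only [hb, if_true, sub_self, norm_zero]
      exact div_nonneg hd hn.le
    · simp only [hb, if_false, sub_zero]
      rw [Real.norm_eq_abs, abs_mul, abs_of_nonneg (hc.nonneg b), le_div_iff₀ hn]
      refine le_trans ?_ (le_dom hc h0 b)
      rw [mul_assoc]
      refine mul_le_mul_of_nonneg_left ?_ (hc.nonneg b)
      rw [hE, Finset.mem_product, not_and_or] at hb
      have w1 := wt_pos b.1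
      have w2 := wt_pos b.2
      have d1 := h0 b.1
      have d2 := h0 b.2
      have hmv : ∀ z, z ≠ b.1 → z ≠ b.2 → η z = mv b η z := fun z h1 h2 => (mv_of_ne b η h1 h2).symm
      by_cases hb1 : b.1 ∈ Bx n
      · have hb2 : b.2 ∉ Bx n := by
          rcases hb with hb | hb
          · exact absurd hb1 hb
          · exact hb
        have h3 := hg.diff_le hs hb2 hmv
        have h4 := wt_of_not_mem hb2
        calc |g (mv b η) - g η| * ((n : ℝ) + 1) ≤ δ b.1 * wt b.2 :=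
              mul_le_mul h3 h4 hn.le d1
          _ ≤ wt b.1 * δ b.2 + wt b.2 * δ b.1 := by nlinarith [mul_nonneg w1.le d2]
      · by_cases hb2 : b.2 ∈ Bx n
        · have h3 := hg.diff_le (x := b.2) hs hb1 (fun z h1 h2 => hmv z h2 h1)
          have h4 := wt_of_not_mem hb1
          calc |g (mv b η) - g η| * ((n : ℝ) + 1) ≤ δ b.2 * wt b.1 :=
                mul_le_mul h3 h4 hn.le d2
            _ ≤ wt b.1 * δ b.2 + wt b.2 * δ b.1 := by nlinarith [mul_nonneg w2.le d1]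
        · rw [hg.mv_eq hb1 hb2]
          simp only [sub_self, abs_zero, zero_mul]
          positivity
  have h3 := tsum_of_norm_bounded h1 h2
  rw [Real.norm_eq_abs] at h3
  refine h3.trans ?_
  exact div_le_div_of_nonneg_right hs2 hn.le

end Pool.Agent.Q298.Excl
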