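import Pool.Agent.Q298.Excl.Fin

/-!
# Conclusion
-/

open Set Filter Topology MeasureTheory Function

set_option linter.unusedSectionVars false

namespace Pool.Agent.Q298.Excl

variable {p : ℤ → ℝ}

lemma num1 {r q2 L A t C θ : ℝ} (hr : 0 < r) (hq : 0 < q2) (hL : 0 < L)
    (ht : 0 < t) (hθ : θ = A / (t * L)) (hC2 : 8 * A / (L * q2 * r) ≤ C)
    (hCt : C ≤ t) : θ / (2 * r) ≤ q2 / 16 := by
  rw [div_le_div_iff₀ (by positivity) (by norm_num)]
  have h6 : 8 * A / (L * q2 * r) ≤ t := hC2.trans hCt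
  rw [div_le_iff₀ (by positivity)] at h6
  have h9 : 0 < t * L := by positivity
  have h7 : θ * (t * L) = A := by rw [hθ]; field_simp
  have h10 : (θ * 8) * (t * L) ≤ (q2 * r) * (t * L) := by
    calc (θ * 8) * (t * L) = 8 * (θ * (t * L)) := by ring
      _ = 8 * A := by rw [h7]
      _ ≤ t * (L * q2 * r) := h6
      _ = (q2 * r) * (t * L) := by ring
  have h11 := le_of_mul_le_mul_right h10 h9
  linarith

lemma num2 {r q2 L P A t C X θ : ℝ} (hr : 0 < r) (hq : 0 < q2) (hL : 0 < L) (hP : 0 ≤ P)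
    (hA : 0 < A) (ht : 0 < t) (hX : 0 < X) (hC : 0 < C) (hθ : θ = A / (t * L)) (hθ1 : θ ≤ 1)
    (hC1 : (4 * L + 2 * P) * (A / L) * 16 / (4 * r * q2) ≤ C) :
    (4 * L * θ + 2 * θ ^ 2 * P) / (4 * r * (C / (t * X))) ≤ X * (q2 / 16) := by
  have hθ0 : 0 < θ := by rw [hθ]; positivity
  have h6 : 4 * L * θ + 2 * θ ^ 2 * P ≤ (4 * L + 2 * P) * θ := by
    have : θ ^ 2 ≤ θ := by nlinarith
    nlinarith
  rw [div_le_iff₀ (by positivity)]
  refine h6.trans ?_
  have h8 : X * (q2 / 16) * (4 * r * (C / (t * X))) = (q2 / 16) * (4 * r) * C / t := by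
    field_simp
  rw [h8, hθ]
  have h9 : (4 * L + 2 * P) * (A / (t * L)) = ((4 * L + 2 * P) * (A / L)) / t := by field_simp
  rw [h9]
  refine div_le_div_of_nonneg_right ?_ ht.le
  rw [div_le_iff₀ (by positivity)] at hC1
  have : (4 * L + 2 * P) * (A / L) = ((4 * L + 2 * P) * (A / L) * 16) / 16 := by ring
  rw [this]
  have e : q2 / 16 * (4 * r) * C = C * (4 * r * q2) / 16 := by ring
  rw [e]
  linarith

theorem no_profile (hp : Kern p) (hirr : Irred p) (hH : Heavy p)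
    (μ : Measure Cf) [IsProbabilityMeasure μ] : ¬ Prof p μ := by
  intro hμ
  obtain ⟨ν, h1, h2, h3, h4, h5⟩ := exists_coupling hp μ hμ.stat
  have hν : Cpl hp μ ν := ⟨h1, h2, h3, h4, h5⟩
  have := hν.prob
  obtain ⟨z0, hq⟩ := hν.exists_z hμ hirr
  obtain ⟨Λ, hΛ, hΛ0, hΛP⟩ := cz_hasSum hp z0
  set q := ∫ ω, dd (ω z0) ∂ν with hqdef
  clear_value q
  set q2 := q ^ 2 with hq2
  have hq20 : 0 < q2 := by positivity
  clear_value q2
  set P := ∑' k, p k with hP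
  have hP0 : 0 ≤ P := tsum_nonneg hp.nonneg
  clear_value P
  have hM0 := MM_nonneg hp
  obtain ⟨L, hLdef⟩ : ∃ L, L = 2 * P + 1 := ⟨_, rfl⟩
  have hL : 0 < L := by linarith
  have hL1 : 1 ≤ L := by linarith
  have hΛL : Λ ≤ L := by linarith
  obtain ⟨c, hc⟩ : ∃ c, c = q2 / 8 := ⟨_, rfl⟩
  have hc0 : 0 < c := by rw [hc]; positivity
  obtain ⟨r, hr⟩ : ∃ r, r = q2 / 32 := ⟨_, rfl⟩
  have hr0 : 0 < r := by rw [hr]; positivity
  obtain ⟨A, hA⟩ : ∃ A, A = 8 * (MM p + 1) / c := ⟨_, rfl⟩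
  have hA0 : 0 < A := by rw [hA]; positivity
  obtain ⟨N, hN1, hN2⟩ := rho_small hμ (κ := c / 2) (by positivity)
  obtain ⟨C1, hC1⟩ : ∃ C1, C1 = (4 * L + 2 * P) * (A / L) * 16 / (4 * r * q2) := ⟨_, rfl⟩
  have hC10 : 0 ≤ C1 := by rw [hC1]; positivity
  obtain ⟨C2, hC2⟩ : ∃ C2, C2 = 8 * A / (L * q2 * r) := ⟨_, rfl⟩
  have hC20 : 0 ≤ C2 := by rw [hC2]; positivity
  obtain ⟨C3, hC3⟩ : ∃ C3, C3 = 2 * A / c ^ 2 := ⟨_, rfl⟩
  have hC30 : 0 ≤ C3 := by rw [hC3]; positivity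
  obtain ⟨C, hCdef⟩ : ∃ C : ℝ, C = z0.natAbs + N + 7 + C1 + C2 + C3 + A := ⟨_, rfl⟩
  have hzc : (0 : ℝ) ≤ (z0.natAbs : ℝ) := Nat.cast_nonneg _
  have hNc : (0 : ℝ) ≤ (N : ℝ) := Nat.cast_nonneg _
  have hC0 : 0 < C := by linarith
  have hC7 : 7 ≤ C := by linarith
  have hCz : (z0.natAbs : ℝ) ≤ C := by linarith
  have hCN : (N : ℝ) ≤ C := by linarith
  have hCA : A ≤ C := by linarith
  have hCC1 : C1 ≤ C := by linarith
  have hCC2 : C2 ≤ C := by linarith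
  have hCC3 : C3 + 1 ≤ C := by linarith
  obtain ⟨t, J, hJ, hpl, htail⟩ := hH C
  obtain ⟨X, hXdef⟩ : ∃ X : ℕ, X = J.card := ⟨_, rfl⟩
  rw [← hXdef] at hpl htail
  have hX0n : 0 < X := by
    rcases Nat.eq_zero_or_pos X with h | h
    · rw [h] at htail
      simp only [Nat.cast_zero, mul_zero, zero_mul] at htail
      exact absurd htail (not_le.2 hC0)
    · exact h
  have hX1 : (1 : ℝ) ≤ X := by exact_mod_cast hX0n
  have hX0 : (0 : ℝ) < X := by linarith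
  have hJn : J.Nonempty := by
    rw [← Finset.card_pos, ← hXdef]; exact hX0n
  have hJz : ∀ j ∈ J, z0.natAbs + N ≤ j := by
    intro j hj
    have h6 : ((z0.natAbs + N : ℕ) : ℝ) ≤ j := by
      push_cast
      linarith [(hJ j hj).1]
    exact_mod_cast h6
  have hJ1 : ∀ j ∈ J, 7 ≤ j := by
    intro j hj
    have h6 : ((7 : ℕ) : ℝ) ≤ j := by
      push_cast
      linarith [(hJ j hj).1]
    exact_mod_cast h6
  have ht7 : ∀ j ∈ J, 7 * j ≤ t := by
    intro j hj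
    have h6 : (7 : ℝ) * j ≤ t :=
      (mul_le_mul_of_nonneg_right hC7 (Nat.cast_nonneg j)).trans (hJ j hj).2
    exact_mod_cast h6
  have htC : C ≤ t := by
    obtain ⟨j, hj⟩ := hJn
    have h6 : (7 : ℝ) ≤ j := by exact_mod_cast hJ1 j hj
    refine le_trans ?_ (hJ j hj).2
    nlinarith only [hC0, h6]
  have ht0 : (0 : ℝ) < t := hC0.trans_le htC
  -- parameters
  obtain ⟨θ, hθdef⟩ : ∃ θ, θ = A / (t * L) := ⟨_, rfl⟩
  have hθ : 0 < θ := by rw [hθdef]; positivity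
  have hlam : θ * L = A / t := by rw [hθdef]; field_simp
  have hθ1 : θ ≤ 1 := by
    rw [hθdef, div_le_one (by positivity)]
    nlinarith only [hCA, htC, hL1, ht0]
  obtain ⟨I, hI⟩ : ∃ I : Finset ℤ, I = J.image (fun j : ℕ => z0 + (j : ℤ)) := ⟨_, rfl⟩
  have hIcard : (I.card : ℝ) = X := by
    rw [hI, Finset.card_image_of_injective _ (fun a b h => by simpa using h), hXdef]
  have hIm : ∀ x ∈ I, ∃ j ∈ J, x = z0 + (j : ℤ) := by
    intro x hx
    rw [hI, Finset.mem_image] at hx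
    obtain ⟨j, hj, hjx⟩ := hx
    exact ⟨j, hj, hjx.symm⟩
  have hIz : ∀ x ∈ I, x ≠ z0 := by
    intro x hx
    obtain ⟨j, hj, rfl⟩ := hIm x hx
    have := hJ1 j hj
    omega
  have hpl0 : 0 < C / (t * X) := by positivity
  have hIp : ∀ x ∈ I, C / (t * X) ≤ p (z0 - x) := by
    intro x hx
    obtain ⟨j, hj, rfl⟩ := hIm x hx
    have h6 := hpl j hj
    have e : z0 - (z0 + (j : ℤ)) = -(j : ℤ) := by ring
    rw [e, div_le_iff₀ (by positivity)]
    linarith only [h6]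
  have havg := avg_bound hμ hν hirr z0 hL hθ hr0 hpl0 hΛ hΛ0 hΛL I hIz hIp
  rw [hIcard, ← hqdef, ← hP, ← hq2] at havg
  -- simplify the average bound
  have b1 : θ / (2 * r) ≤ q2 / 16 :=
    num1 hr0 hq20 hL ht0 hθdef (hC2 ▸ hCC2) htC
  have b2 : ∑ x ∈ I, (1 - rho μ x) ≤ X * (q2 / 16) := by
    have h6 : ∀ x ∈ I, 1 - rho μ x ≤ q2 / 16 := by
      intro x hx
      obtain ⟨j, hj, rfl⟩ := hIm x hx
      have h8 := hJz j hj
      have h7 := hN2 (z0 + (j : ℤ)) (by omega)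
      have : c / 2 = q2 / 16 := by rw [hc]; ring
      linarith only [h7, this]
    have h8 := Finset.sum_le_sum h6
    rw [Finset.sum_const, nsmul_eq_mul, hIcard] at h8
    exact h8
  have b3 : (4 * L * θ + 2 * θ ^ 2 * P) / (4 * r * (C / (t * X))) ≤ X * (q2 / 16) :=
    num2 hr0 hq20 hL hP0 hA0 ht0 hX0 hC0 hθdef hθ1 (hC1 ▸ hCC1)
  have havg2 : 2 * c * X ≤ ∑ x ∈ I, ∫ η, vv hp z0 (θ * L) x η ∂μ := by
    have h6 : (X : ℝ) * (q2 / 2 - q2 / 16 - q2 / 16) ≤ X * (q2 / 2 - 2 * r - θ / (2 * r)) := by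
      refine mul_le_mul_of_nonneg_left ?_ hX0.le
      have : 2 * r = q2 / 16 := by rw [hr]; ring
      linarith only [this, b1]
    have h7 : 2 * c * X = X * (q2 / 2 - q2 / 16 - q2 / 16) - X * (q2 / 16)
        - X * (q2 / 16) := by rw [hc]; ring
    rw [h7]
    linarith only [h6, b2, b3, havg]
  -- the far insertion bound
  have hins : ∀ (y : ℤ) (j : ℕ), j ∈ J → y ≤ z0 + j - t → ∀ η : Cf, η y = false →
      uu hp z0 (θ * L) (update η y true) - uu hp z0 (θ * L) η ≤ c / 2 := by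
    intro y j hj hy η hη
    have hl : (0 : ℝ) < t / 2 := by positivity
    have h7j := ht7 j hj
    have hdist : (t : ℝ) / 2 ≤ |((y - z0 : ℤ) : ℝ)| := by
      have h6 : (t : ℤ) ≤ 2 * |y - z0| := by
        rcases abs_cases (y - z0) with ⟨h, _⟩ | ⟨h, _⟩ <;> rw [h] <;> omega
      have h7 : (t : ℝ) ≤ 2 * |((y - z0 : ℤ) : ℝ)| := by
        rw [← Int.cast_abs]
        exact_mod_cast h6
      linarith only [h7]
    have h6 := insert_le hp (mul_pos hθ hL) z0 y hl hdist η hη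
    refine h6.trans ?_
    rw [hlam]
    have e : (t : ℝ) / 2 * (A / t) = A / 2 := by field_simp
    rw [e, div_le_iff₀ (by positivity), hA]
    have e2 : c / 2 * (8 * (MM p + 1) / c / 2) = 2 * (MM p + 1) := by field_simp; ring
    rw [e2]
    linarith only
  have hone : ∀ (x y : ℤ), x ∈ I → y ≤ x - t →
      2 * c * (∫ η, vv hp z0 (θ * L) x η ∂μ - c) - c ^ 2
        ≤ ∫ η, (uu hp z0 (θ * L) (mv (x, y) η) - uu hp z0 (θ * L) η) ^ 2 ∂μ := by
    intro x y hx hy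
    obtain ⟨j, hj, rfl⟩ := hIm x hx
    have h1 := hJz j hj
    have h2 := hJ1 j hj
    have h3 := ht7 j hj
    exact one_jump hp z0 hL hθ hc0 (by omega) (hins y j hj hy) (hN1 y (by omega))
  have henergy := energy_far hμ hp z0 hL hθ I t hone
  rw [hIcard, hlam] at henergy
  have henergy2 : ∀ n : ℕ, (∑ k ∈ Finset.range n, p (-((t : ℤ) + k))) * (c ^ 2 * X)
      ≤ 2 * (A / t) := by
    intro n
    refine le_trans (mul_le_mul_of_nonneg_left ?_ (Finset.sum_nonneg fun k _ => hp.nonneg _))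
      (henergy n)
    have h6 : 2 * c * (2 * c * X) ≤ 2 * c * ∑ x ∈ I, ∫ η, vv hp z0 (θ * L) x η ∂μ :=
      mul_le_mul_of_nonneg_left havg2 (by linarith only [hc0])
    rw [hlam] at h6
    linarith only [h6]
  -- conclusion
  have hsum : Summable fun k : ℕ => p (-((t : ℤ) + k)) := by
    have hi : Function.Injective fun k : ℕ => -((t : ℤ) + k) := by
      intro a b h
      simp only at h
      omega
    exact hp.summ.comp_injective hi
  have hfin : (∑' k : ℕ, p (-((t : ℤ) + k))) * (c ^ 2 * X) ≤ 2 * (A / t) := by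
    have h6 := (hsum.hasSum.tendsto_sum_nat).mul_const (c ^ 2 * (X : ℝ))
    exact le_of_tendsto h6 (Eventually.of_forall henergy2)
  have h13 : C * c ^ 2 ≤ 2 * A := by
    have h15 := mul_le_mul_of_nonneg_left hfin ht0.le
    have e1 : (t : ℝ) * (2 * (A / t)) = 2 * A := by field_simp
    rw [e1] at h15
    have h16 := mul_le_mul_of_nonneg_right htail (sq_nonneg c)
    linarith only [h15, h16]
  have h18 : (C3 + 1) * c ^ 2 ≤ 2 * A := (mul_le_mul_of_nonneg_right hCC3 (sq_nonneg c)).trans h13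
  have h19 : C3 * c ^ 2 = 2 * A := by rw [hC3]; field_simp
  have h20 : 0 < c ^ 2 := by positivity
  linarith only [h18, h19, h20]

end Pool.Agent.Q298.Excl
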