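import Pool.Agent.Q298.Excl.Avg

/-!
# Nonexistence of stationary profile measures for heavy left tails
-/

open Set Filter Topology MeasureTheory Function

set_option linter.unusedSectionVars false

namespace Pool.Agent.Q298.Excl

variable {p : ℤ → ℝ}

lemma vv_le (hp : Kern p) (z0 : ℤ) {L θ : ℝ} (hL : 0 < L) (hθ : 0 < θ) (x : ℤ) (ζ : Cf) :
    vv hp z0 (θ * L) x ζ ≤ 1 := by
  have h1 := uu_le hp z0 hL hθ ζ
  have h2 := uu_nonneg hp z0 hL hθ (rem x ζ)
  simp only [vv, ContinuousMap.sub_apply, ContinuousMap.comp_apply]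
  linarith

/-- moving a particle from `x` to a far site `y` -/
lemma move_bound (hp : Kern p) (z0 : ℤ) {L θ : ℝ} (hL : 0 < L) (hθ : 0 < θ) {x y : ℤ}
    (hxy : y ≠ x) {b0 : ℝ} (hb0 : 0 ≤ b0)
    (hins : ∀ η : Cf, η y = false →
      uu hp z0 (θ * L) (update η y true) - uu hp z0 (θ * L) η ≤ b0) (ζ : Cf) :
    vv hp z0 (θ * L) x ζ - b0 - ex y ζ
      ≤ uu hp z0 (θ * L) ζ - uu hp z0 (θ * L) (mv (x, y) ζ) := by
  have hv1 := vv_le hp z0 hL hθ x ζ
  by_cases hx : ζ x = true
  · by_cases hy : ζ y = true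
    · have e : mv (x, y) ζ = ζ := by
        funext w
        unfold mv
        simp only
        by_cases h1 : w = y
        · subst h1; simp [hx, hy]
        · by_cases h2 : w = x
          · subst h2; simp [h1, hx, hy]
          · simp [h1, h2]
      rw [e, ex_apply]
      simp only [hy, if_true]
      linarith
    · have hy' : ζ y = false := by simpa using hy
      have e : mv (x, y) ζ = update (rem x ζ) y true := by
        funext w
        unfold mv
        simp only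
        by_cases h1 : w = y
        · subst h1; simp [hx]
        · by_cases h2 : w = x
          · subst h2; simp [h1, hx, hy', rem_apply]
          · simp [h1, h2, rem_apply]
      have h1 := hins (rem x ζ) (by rw [rem_apply, update_of_ne hxy]; exact hy')
      rw [e, ex_apply]
      simp only [hy', Bool.false_eq_true, if_false]
      have e3 : vv hp z0 (θ * L) x ζ = uu hp z0 (θ * L) ζ - uu hp z0 (θ * L) (rem x ζ) := rfl
      rw [e3]
      linarith
  · have hx' : ζ x = false := by simpa using hx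
    have e : mv (x, y) ζ = ζ := by
      funext w
      unfold mv
      simp only
      by_cases h1 : w = y
      · subst h1; simp [hx']
      · by_cases h2 : w = x
        · subst h2; simp [h1, hx']
        · simp [h1, h2]
    have e3 : vv hp z0 (θ * L) x ζ = uu hp z0 (θ * L) ζ - uu hp z0 (θ * L) (rem x ζ) := rfl
    rw [e, e3, rem_of_false hx']
    have := ex_nonneg y ζ
    linarith

/-- the heavy left tail condition -/
def Heavy (p : ℤ → ℝ) : Prop :=
  ∀ C : ℝ, ∃ (t : ℕ) (J : Finset ℕ), (∀ j ∈ J, C ≤ j ∧ C * j ≤ t) ∧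
    (∀ j ∈ J, C ≤ t * J.card * p (-(j : ℤ))) ∧
    C ≤ t * J.card * ∑' k : ℕ, p (-((t : ℤ) + k))

lemma one_jump {μ : Measure Cf} [IsProbabilityMeasure μ] (hp : Kern p) (z0 : ℤ) {L θ c : ℝ}
    (hL : 0 < L) (hθ : 0 < θ) (hc : 0 < c) {x y : ℤ} (hxy : y ≠ x)
    (hins : ∀ η : Cf, η y = false →
      uu hp z0 (θ * L) (update η y true) - uu hp z0 (θ * L) η ≤ c / 2)
    (hy : rho μ y ≤ c / 2) :
    2 * c * (∫ η, vv hp z0 (θ * L) x η ∂μ - c) - c ^ 2
      ≤ ∫ η, (uu hp z0 (θ * L) (mv (x, y) η) - uu hp z0 (θ * L) η) ^ 2 ∂μ := by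
  set u := uu hp z0 (θ * L) with hu
  have i1 : Integrable (fun η => vv hp z0 (θ * L) x η) μ := integrable_C μ _
  have i2 : Integrable (fun η => ex y η) μ := integrable_C μ _
  have i3 : Integrable (fun η => (u (mv (x, y) η) - u η) ^ 2) μ := by
    have h0 := integrable_C μ ((u.comp (mvC (x, y)) - u) ^ 2)
    simp only [ContinuousMap.pow_apply, ContinuousMap.sub_apply, ContinuousMap.comp_apply,
      mvC_apply] at h0
    exact h0
  have hc2 : 0 ≤ c / 2 := by linarith
  have hpt : ∀ η, 2 * c * vv hp z0 (θ * L) x η + (-(2 * c)) * ex y η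
      + (-(2 * c * (c / 2)) - c ^ 2) * 1 ≤ (u (mv (x, y) η) - u η) ^ 2 := by
    intro η
    have h6 := move_bound hp z0 hL hθ hxy hc2 hins η
    have h7 : 2 * c * (vv hp z0 (θ * L) x η - c / 2 - ex y η)
        ≤ 2 * c * (u η - u (mv (x, y) η)) := mul_le_mul_of_nonneg_left h6 (by linarith)
    nlinarith [sq_nonneg (u η - u (mv (x, y) η) - c)]
  have i4 : Integrable (fun η => 2 * c * vv hp z0 (θ * L) x η + (-(2 * c)) * ex y η
      + (-(2 * c * (c / 2)) - c ^ 2) * 1) μ :=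
    ((i1.const_mul (2 * c)).add (i2.const_mul (-(2 * c)))).add (integrable_const _)
  have h8 := integral_mono i4 i3 hpt
  rw [int_lin3 i1 i2 (integrable_const (1 : ℝ)) (2 * c) (-(2 * c)) (-(2 * c * (c / 2)) - c ^ 2)]
    at h8
  have h11 : ∫ η, ex y η ∂μ ≤ c / 2 := hy
  simp only [integral_const, probReal_univ, smul_eq_mul, mul_one] at h8
  have h12 : 2 * c * ∫ η, ex y η ∂μ ≤ 2 * c * (c / 2) :=
    mul_le_mul_of_nonneg_left h11 (by linarith)
  linarith

lemma energy_far {μ : Measure Cf} [IsProbabilityMeasure μ] (hμ : Prof p μ) (hp : Kern p)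
    (z0 : ℤ) {L θ c : ℝ} (hL : 0 < L) (hθ : 0 < θ) (I : Finset ℤ) (t : ℕ)
    (hone : ∀ (x y : ℤ), x ∈ I → y ≤ x - t →
      2 * c * (∫ η, vv hp z0 (θ * L) x η ∂μ - c) - c ^ 2
        ≤ ∫ η, (uu hp z0 (θ * L) (mv (x, y) η) - uu hp z0 (θ * L) η) ^ 2 ∂μ) (n : ℕ) :
    (∑ k ∈ Finset.range n, p (-((t : ℤ) + k)))
      * (2 * c * ((∑ x ∈ I, ∫ η, vv hp z0 (θ * L) x η ∂μ) - I.card * c) - I.card * c ^ 2)
      ≤ 2 * (θ * L) := by
  set T : Finset (ℤ × ℕ) := I ×ˢ Finset.range n with hT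
  set e : ℤ × ℕ → ℤ × ℤ := fun a => (a.1, a.1 - ((t : ℤ) + a.2)) with he
  have hinj : Set.InjOn e (T : Set (ℤ × ℕ)) := by
    rintro ⟨a, b⟩ _ ⟨a', b'⟩ _ h
    simp only [he, Prod.mk.injEq] at h
    obtain ⟨h1, h2⟩ := h
    subst h1
    simp only [Prod.mk.injEq, true_and]
    omega
  have h6 := hμ.stat.energy (hc := adm_rt hp) (mul_pos hθ hL) (T.image e) (ex z0)
  rw [Finset.sum_image hinj] at h6
  have h7 : 2 * (θ * L) * ∫ η, res (adm_rt hp) (θ * L) (ex z0) η
      * (ex z0 η - res (adm_rt hp) (θ * L) (ex z0) η) ∂μ ≤ 2 * (θ * L) := by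
    have h8 : ∫ η, res (adm_rt hp) (θ * L) (ex z0) η
      * (ex z0 η - res (adm_rt hp) (θ * L) (ex z0) η) ∂μ ≤ ∫ _η : Cf, (1 : ℝ) ∂μ := by
      refine integral_mono (integrable_C μ (uu hp z0 (θ * L) * (ex z0 - uu hp z0 (θ * L))))
        (integrable_const _) fun η => ?_
      have a1 := uu_nonneg hp z0 hL hθ η
      have a2 := uu_le hp z0 hL hθ η
      have a3 := ex_le z0 η
      have a4 := ex_nonneg z0 η
      change uu hp z0 (θ * L) η * (ex z0 η - uu hp z0 (θ * L) η) ≤ 1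
      nlinarith
    simp only [integral_const, probReal_univ, smul_eq_mul, one_mul] at h8
    have h9 : 0 < θ * L := mul_pos hθ hL
    calc _ ≤ 2 * (θ * L) * 1 := mul_le_mul_of_nonneg_left h8 (by linarith)
      _ = 2 * (θ * L) := mul_one _
  have h8 : ∑ a ∈ T, p (-((t : ℤ) + a.2))
      * (2 * c * (∫ η, vv hp z0 (θ * L) a.1 η ∂μ - c) - c ^ 2)
      ≤ ∑ a ∈ T, rt p (e a) * ∫ η, (res (adm_rt hp) (θ * L) (ex z0) (mv (e a) η)
        - res (adm_rt hp) (θ * L) (ex z0) η) ^ 2 ∂μ := by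
    refine Finset.sum_le_sum fun a ha => ?_
    rw [hT, Finset.mem_product] at ha
    have e1 : rt p (e a) = p (-((t : ℤ) + a.2)) := by
      simp only [rt, he]
      congr 1
      ring
    rw [e1]
    refine mul_le_mul_of_nonneg_left ?_ (hp.nonneg _)
    exact hone a.1 (a.1 - ((t : ℤ) + a.2)) ha.1 (by omega)
  have h9 := h8.trans (h6.trans h7)
  refine le_trans (le_of_eq ?_) h9
  rw [hT, Finset.sum_product]
  simp only [← Finset.sum_mul]
  rw [← Finset.mul_sum]
  congr 1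
  rw [Finset.sum_sub_distrib, ← Finset.mul_sum, Finset.sum_sub_distrib, Finset.sum_const,
    Finset.sum_const, nsmul_eq_mul, nsmul_eq_mul]

end Pool.Agent.Q298.Excl
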