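import Pool.Agent.Q298.Excl.Mv

/-!
# Generators of exclusion-type processes on cylinder functions
-/

open Set Filter Topology MeasureTheory Function

set_option linter.unusedSectionVars false

namespace Pool.Agent.Q298.Excl

variable {A B : Type*}

/-- A summable nonnegative kernel with finite first absolute moment. -/
structure Kern (p : ℤ → ℝ) : Prop where
  nonneg : ∀ k, 0 ≤ p k
  summ : Summable p
  mom : Summable (fun k : ℤ => |(k : ℝ)| * p k)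

/-- Rates dominated by a kernel. -/
structure Adm (p : ℤ → ℝ) (c : ℤ × ℤ → ℝ) : Prop where
  kern : Kern p
  nonneg : ∀ b, 0 ≤ c b
  le : ∀ b, c b ≤ p (b.2 - b.1)

/-- The generator. -/
noncomputable def gen [Lattice A] (c : ℤ × ℤ → ℝ) (f : (ℤ → A) → ℝ) (η : ℤ → A) : ℝ :=
  ∑' b : ℤ × ℤ, c b * (f (mv b η) - f η)

/-- `(x, k) ↦ (x, x + k)` -/
def eqL : ℤ × ℤ ≃ ℤ × ℤ where
  toFun q := (q.1, q.1 + q.2)
  invFun b := (b.1, b.2 - b.1)
  left_inv q := by ext <;> simp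
  right_inv b := by ext <;> simp

/-- `(y, k) ↦ (y - k, y)` -/
def eqR : ℤ × ℤ ≃ ℤ × ℤ where
  toFun q := (q.1 - q.2, q.1)
  invFun b := (b.2, b.2 - b.1)
  left_inv q := by ext <;> simp
  right_inv b := by ext <;> simp

lemma hasSum_left {φ q : ℤ → ℝ} (hφ : Summable φ) (hq : Summable q) :
    HasSum (fun b : ℤ × ℤ => φ b.1 * q (b.2 - b.1)) ((∑' x, φ x) * ∑' k, q k) := by
  rw [← eqL.hasSum_iff]
  have h := HasSum.mul hφ.hasSum hq.hasSum (summable_mul_of_summable_norm hφ.abs hq.abs)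
  have e : (fun b : ℤ × ℤ => φ b.1 * q (b.2 - b.1)) ∘ eqL = fun x => φ x.1 * q x.2 := by
    funext b; simp [eqL]
  rw [e]
  exact h

lemma hasSum_right {φ q : ℤ → ℝ} (hφ : Summable φ) (hq : Summable q) :
    HasSum (fun b : ℤ × ℤ => φ b.2 * q (b.2 - b.1)) ((∑' x, φ x) * ∑' k, q k) := by
  rw [← eqR.hasSum_iff]
  have h := HasSum.mul hφ.hasSum hq.hasSum (summable_mul_of_summable_norm hφ.abs hq.abs)
  have e : (fun b : ℤ × ℤ => φ b.2 * q (b.2 - b.1)) ∘ eqR = fun x => φ x.1 * q x.2 := by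
    funext b; simp [eqR]
  rw [e]
  exact h

/-- indicator of a finite set -/
noncomputable def ind (S : Finset ℤ) (x : ℤ) : ℝ := if x ∈ S then 1 else 0

lemma ind_nonneg (S : Finset ℤ) (x : ℤ) : 0 ≤ ind S x := by unfold ind; split_ifs <;> norm_num

lemma ind_of_mem {S : Finset ℤ} {x : ℤ} (h : x ∈ S) : ind S x = 1 := by simp [ind, h]

lemma ind_of_not_mem {S : Finset ℤ} {x : ℤ} (h : x ∉ S) : ind S x = 0 := by simp [ind, h]

lemma summable_fin {φ : ℤ → ℝ} {S : Finset ℤ} (h : ∀ x, x ∉ S → φ x = 0) : Summable φ :=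
  summable_of_ne_finset_zero (s := S) (fun x hx => h x hx)

lemma summable_ind (S : Finset ℤ) : Summable (ind S) :=
  summable_fin (S := S) (fun _ h => ind_of_not_mem h)

lemma tsum_ind (S : Finset ℤ) : ∑' x, ind S x = S.card := by
  rw [tsum_eq_sum (s := S) (fun x hx => ind_of_not_mem hx)]
  rw [Finset.sum_congr rfl (fun x hx => ind_of_mem hx)]
  simp

/-- the rates touching `S` -/
noncomputable def tch (p : ℤ → ℝ) (S : Finset ℤ) (b : ℤ × ℤ) : ℝ :=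
  (ind S b.1 + ind S b.2) * p (b.2 - b.1)

lemma Kern.hasSum_tch {p : ℤ → ℝ} (hp : Kern p) (S : Finset ℤ) :
    HasSum (tch p S) (2 * S.card * ∑' k, p k) := by
  have h := (hasSum_left (summable_ind S) hp.summ).add (hasSum_right (summable_ind S) hp.summ)
  rw [tsum_ind] at h
  have e : (fun b : ℤ × ℤ => ind S b.1 * p (b.2 - b.1) + ind S b.2 * p (b.2 - b.1)) = tch p S := by
    funext b; unfold tch; ring
  rw [e] at h
  have e2 : (S.card : ℝ) * ∑' k, p k + S.card * ∑' k, p k = 2 * S.card * ∑' k, p k := by ring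
  rw [e2] at h
  exact h

lemma tch_nonneg {p : ℤ → ℝ} (hp : Kern p) (S : Finset ℤ) (b : ℤ × ℤ) : 0 ≤ tch p S b :=
  mul_nonneg (add_nonneg (ind_nonneg _ _) (ind_nonneg _ _)) (hp.nonneg _)

lemma Adm.le_tch {p : ℤ → ℝ} {c : ℤ × ℤ → ℝ} (hc : Adm p c) {S : Finset ℤ} {b : ℤ × ℤ}
    (h : b.1 ∈ S ∨ b.2 ∈ S) : c b ≤ tch p S b := by
  refine (hc.le b).trans ?_
  unfold tch
  have h1 : (1 : ℝ) ≤ ind S b.1 + ind S b.2 := by
    rcases h with h | h
    · rw [ind_of_mem h]; linarith [ind_nonneg S b.2]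
    · rw [ind_of_mem h]; linarith [ind_nonneg S b.1]
  nlinarith [hc.kern.nonneg (b.2 - b.1)]

/-- `f` only depends on the coordinates in `S`. -/
def DepOn (f : (ℤ → A) → ℝ) (S : Finset ℤ) : Prop :=
  ∀ η ξ : ℤ → A, (∀ x ∈ S, η x = ξ x) → f η = f ξ

/-- Cylinder functions. -/
def Cyl (f : (ℤ → A) → ℝ) : Prop := ∃ S : Finset ℤ, DepOn f S

lemma DepOn.mono {f : (ℤ → A) → ℝ} {S T : Finset ℤ} (h : DepOn f S) (hST : S ⊆ T) : DepOn f T :=
  fun η ξ e => h η ξ fun x hx => e x (hST hx)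

lemma DepOn.map2 {f g : (ℤ → A) → ℝ} {S T : Finset ℤ} (hf : DepOn f S) (hg : DepOn g T)
    (F : ℝ → ℝ → ℝ) : DepOn (fun η => F (f η) (g η)) (S ∪ T) := by
  intro η ξ e
  have h1 := (hf.mono (Finset.subset_union_left (s₂ := T))) η ξ e
  have h2 := (hg.mono (Finset.subset_union_right (s₁ := S))) η ξ e
  simp only [h1, h2]

lemma Cyl.map2 {f g : (ℤ → A) → ℝ} (hf : Cyl f) (hg : Cyl g)
    (F : ℝ → ℝ → ℝ) : Cyl (fun η => F (f η) (g η)) := by
  obtain ⟨S, hS⟩ := hf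
  obtain ⟨T, hT⟩ := hg
  exact ⟨S ∪ T, hS.map2 hT F⟩

lemma Cyl.map1 {f : (ℤ → A) → ℝ} (hf : Cyl f) (F : ℝ → ℝ) : Cyl (fun η => F (f η)) := by
  obtain ⟨S, hS⟩ := hf
  exact ⟨S, fun η ξ e => by simp only [hS η ξ e]⟩

lemma cyl_const (a : ℝ) : Cyl (fun _ : ℤ → A => a) := ⟨∅, fun _ _ _ => rfl⟩

lemma cyl_coord (x : ℤ) (F : A → ℝ) : Cyl (fun η : ℤ → A => F (η x)) :=
  ⟨{x}, fun η ξ e => by simp only [e x (Finset.mem_singleton_self x)]⟩

lemma DepOn.mv_eq [Lattice A] {f : (ℤ → A) → ℝ} {S : Finset ℤ} (hf : DepOn f S) {b : ℤ × ℤ}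
    (h1 : b.1 ∉ S) (h2 : b.2 ∉ S) (η : ℤ → A) : f (mv b η) = f η :=
  hf _ _ (mv_agree_off (S := (S : Set ℤ)) b η h1 h2)

section top

variable [TopologicalSpace A] [DiscreteTopology A]

lemma Cyl.continuous {f : (ℤ → A) → ℝ} (hf : Cyl f) : Continuous f := by
  obtain ⟨S, hS⟩ := hf
  rw [continuous_iff_continuousAt]
  intro η
  have h : ∀ᶠ ξ in 𝓝 η, ∀ x ∈ S, ξ x = η x := by
    rw [Filter.eventually_all_finset]
    intro x hx
    have hc : Tendsto (fun ξ : ℤ → A => ξ x) (𝓝 η) (𝓝 (η x)) := (continuous_apply x).continuousAt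
    have h2 : ∀ᶠ a in 𝓝 (η x), a = η x := by
      rw [nhds_discrete]; simp
    exact hc.eventually h2
  refine (continuousAt_const (y := f η)).congr ?_
  filter_upwards [h] with ξ hξ
  exact (hS ξ η hξ).symm

variable [Lattice A] [Finite A]

lemma term_bound {p : ℤ → ℝ} {c : ℤ × ℤ → ℝ} (hc : Adm p c) {f : (ℤ → A) → ℝ} {S : Finset ℤ}
    (hf : DepOn f S) {D : ℝ} (hD : ∀ η, |f η| ≤ D) (b : ℤ × ℤ) (η : ℤ → A) :
    ‖c b * (f (mv b η) - f η)‖ ≤ tch p S b * (2 * D) := by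
  have hD0 : 0 ≤ D := (abs_nonneg _).trans (hD η)
  rw [Real.norm_eq_abs, abs_mul, abs_of_nonneg (hc.nonneg b)]
  by_cases h : b.1 ∈ S ∨ b.2 ∈ S
  · refine mul_le_mul (hc.le_tch h) ?_ (abs_nonneg _) (tch_nonneg hc.kern S b)
    calc |f (mv b η) - f η| ≤ |f (mv b η)| + |f η| := abs_sub _ _
      _ ≤ 2 * D := by linarith [hD (mv b η), hD η]
  · push Not at h
    rw [hf.mv_eq h.1 h.2]
    simp only [sub_self, abs_zero, mul_zero]
    exact mul_nonneg (tch_nonneg hc.kern S b) (by linarith)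

lemma Cyl.bdd {f : (ℤ → A) → ℝ} (hf : Cyl f) : ∃ D : ℝ, ∀ η, |f η| ≤ D := by
  have hc : CompactSpace A := Finite.compactSpace
  have h := isCompact_univ.exists_bound_of_continuousOn (f := f) hf.continuous.continuousOn
  obtain ⟨D, hD⟩ := h
  exact ⟨D, fun η => by simpa using hD η (mem_univ _)⟩

lemma gen_summable {p : ℤ → ℝ} {c : ℤ × ℤ → ℝ} (hc : Adm p c) {f : (ℤ → A) → ℝ} (hf : Cyl f)
    (η : ℤ → A) : Summable fun b : ℤ × ℤ => c b * (f (mv b η) - f η) := by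
  obtain ⟨D, hD⟩ := hf.bdd
  obtain ⟨S, hS⟩ := hf
  exact Summable.of_norm_bounded ((hc.kern.hasSum_tch S).summable.mul_right (2 * D))
    (fun b => term_bound hc hS hD b η)

lemma gen_continuous {p : ℤ → ℝ} {c : ℤ × ℤ → ℝ} (hc : Adm p c) {f : (ℤ → A) → ℝ} (hf : Cyl f) :
    Continuous (gen c f) := by
  obtain ⟨D, hD⟩ := hf.bdd
  have hcont := hf.continuous
  obtain ⟨S, hS⟩ := hf
  refine continuous_tsum (fun b => ?_) ((hc.kern.hasSum_tch S).summable.mul_right (2 * D))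
    (fun b η => term_bound hc hS hD b η)
  exact continuous_const.mul ((hcont.comp (continuous_mv b)).sub hcont)

lemma gen_add {p : ℤ → ℝ} {c : ℤ × ℤ → ℝ} (hc : Adm p c) {f g : (ℤ → A) → ℝ} (hf : Cyl f)
    (hg : Cyl g) (η : ℤ → A) : gen c (fun ξ => f ξ + g ξ) η = gen c f η + gen c g η := by
  unfold gen
  rw [← (gen_summable hc hf η).tsum_add (gen_summable hc hg η)]
  congr 1
  funext b
  ring

lemma gen_smul (c : ℤ × ℤ → ℝ) (a : ℝ) (f : (ℤ → A) → ℝ) (η : ℤ → A) :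
    gen c (fun ξ => a * f ξ) η = a * gen c f η := by
  unfold gen
  rw [← tsum_mul_left]
  congr 1
  funext b
  ring

lemma gen_const (c : ℤ × ℤ → ℝ) (a : ℝ) (η : ℤ → A) :
    gen c (fun _ => a) η = 0 := by
  unfold gen
  simp

lemma gen_add_const (c : ℤ × ℤ → ℝ) (a : ℝ) (f : (ℤ → A) → ℝ) (η : ℤ → A) :
    gen c (fun ξ => f ξ + a) η = gen c f η := by
  unfold gen
  congr 1
  funext b
  ring

end top

end Pool.Agent.Q298.Excl
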