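import Pool.Agent.Q298.Excl.One

/-!
# Insertion of a far particle
-/

open Set Filter Topology MeasureTheory Function

set_option linter.unusedSectionVars false

namespace Pool.Agent.Q298.Excl

variable {p : ℤ → ℝ}

/-- ordered pairs with at most one discrepancy -/
def D1 : Set Pf := {ω | ω ∈ Oge ∧ ∀ n : ℕ, ∑ z ∈ Bx n, dd (ω z) ≤ 1}

lemma isClosed_D1 : IsClosed D1 := by
  have h : D1 = Oge ∩ ⋂ n : ℕ, {ω : Pf | ∑ z ∈ Bx n, dd (ω z) ≤ 1} := by
    ext ω; simp [D1]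
  rw [h]
  refine isClosed_Oge.inter (isClosed_iInter fun n => isClosed_le ?_ continuous_const)
  exact continuous_finsetSum _ fun z _ => continuous_val dd z

lemma dd_move (a a' : Bool × Bool) (h : a.2 ≤ a.1) (h' : a'.2 ≤ a'.1) :
    dd (a ⊓ a') + dd (a ⊔ a') = dd a + dd a' := by
  rcases a with ⟨a1, a2⟩
  rcases a' with ⟨b1, b2⟩
  revert h h'
  cases a1 <;> cases a2 <;> cases b1 <;> cases b2 <;> simp [dd]

lemma dd_sup (a a' : Bool × Bool) (h : a.2 ≤ a.1) (h' : a'.2 ≤ a'.1) :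
    |dd (a ⊔ a') - dd a'| ≤ dd a + dd a' := by
  rcases a with ⟨a1, a2⟩
  rcases a' with ⟨b1, b2⟩
  revert h h'
  cases a1 <;> cases a2 <;> cases b1 <;> cases b2 <;> simp [dd]

lemma Bx_mono {m n : ℕ} (h : m ≤ n) : Bx m ⊆ Bx n := by
  intro z hz
  rw [mem_Bx] at hz ⊢
  omega

lemma absb_D1 (c : ℤ × ℤ → ℝ) : Absb c D1 := by
  intro b hb ω hω
  refine ⟨absb_Oge c b hb ω hω.1, fun n => ?_⟩
  set m : ℕ := n + b.1.natAbs + b.2.natAbs with hm
  have hb1 : b.1 ∈ Bx m := by rw [mem_Bx]; omega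
  have hb2 : b.2 ∈ Bx m := by rw [mem_Bx]; omega
  have h1 := sum_mv (Bx m) (fun _ => (1 : ℝ)) dd b ω
  simp only [hb1, hb2, if_true, one_mul] at h1
  have h2 := dd_move (ω b.1) (ω b.2) (hω.1 _) (hω.1 _)
  have h3 := hω.2 m
  have h4 : ∑ z ∈ Bx n, dd (mv b ω z) ≤ ∑ z ∈ Bx m, dd (mv b ω z) :=
    Finset.sum_le_sum_of_subset_of_nonneg (Bx_mono (by omega)) fun _ _ _ => dd_nonneg _
  linarith

lemma D1_summable {ω : Pf} (hω : ω ∈ D1) :
    Summable (fun x => dd (ω x)) ∧ ∑' x, dd (ω x) ≤ 1 := by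
  have h1 : ∀ T : Finset ℤ, ∑ x ∈ T, dd (ω x) ≤ 1 := by
    intro T
    obtain ⟨n0, hn0⟩ := exists_Bx T
    exact (Finset.sum_le_sum_of_subset_of_nonneg (hn0 n0 le_rfl) fun _ _ _ => dd_nonneg _).trans
      (hω.2 n0)
  have h2 : Summable (fun x => dd (ω x)) := summable_of_sum_le (fun x => dd_nonneg _) h1
  exact ⟨h2, h2.tsum_le_of_sum_le h1⟩

/-- tent function -/
noncomputable def tent (z0 : ℤ) (l : ℝ) (w : ℤ) : ℝ := max (1 - |((w - z0 : ℤ) : ℝ)| / l) 0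

lemma tent_nonneg (z0 : ℤ) (l : ℝ) (w : ℤ) : 0 ≤ tent z0 l w := le_max_right _ _

lemma tent_self (z0 : ℤ) (l : ℝ) : tent z0 l z0 = 1 := by simp [tent]

lemma tent_zero {z0 : ℤ} {l : ℝ} (hl : 0 < l) {w : ℤ} (h : l ≤ |((w - z0 : ℤ) : ℝ)|) :
    tent z0 l w = 0 := by
  unfold tent
  refine max_eq_right ?_
  have : 1 ≤ |((w - z0 : ℤ) : ℝ)| / l := by rw [le_div_iff₀ hl]; linarith
  linarith

lemma tent_lip (z0 : ℤ) {l : ℝ} (hl : 0 < l) (x y : ℤ) :
    |tent z0 l y - tent z0 l x| ≤ |((y - x : ℤ) : ℝ)| / l := by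
  unfold tent
  refine (abs_max_sub_max_le_abs _ _ _).trans ?_
  have e : 1 - |((y - z0 : ℤ) : ℝ)| / l - (1 - |((x - z0 : ℤ) : ℝ)| / l)
      = (|((x - z0 : ℤ) : ℝ)| - |((y - z0 : ℤ) : ℝ)|) / l := by ring
  rw [e, abs_div, abs_of_pos hl]
  refine div_le_div_of_nonneg_right ?_ hl.le
  refine (abs_abs_sub_abs_le_abs_sub _ _).trans (le_of_eq ?_)
  rw [abs_sub_comm]
  push_cast
  congr 1
  ring

lemma gen_tent (hp : Kern p) (z0 : ℤ) {l : ℝ} (hl : 0 < l) {S : Finset ℤ}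
    (hS : ∀ w, w ∉ S → tent z0 l w = 0) {ω : Pf} (hω : ω ∈ D1) :
    gen (rt p) (fun ω : Pf => ∑ w ∈ S, tent z0 l w * dd (ω w)) ω ≤ 2 * MM p / l := by
  obtain ⟨hs, hs1⟩ := D1_summable hω
  have a1 := hasSum_left hs hp.mom
  have a2 := hasSum_right hs hp.mom
  have a3 := (a1.add a2).div_const l
  have hcyl : Cyl (fun ω : Pf => ∑ w ∈ S, tent z0 l w * dd (ω w)) :=
    ⟨S, fun ω ω' e => Finset.sum_congr rfl fun z hz => by rw [e z hz]⟩
  have hgs := gen_summable (adm_rt hp) hcyl ω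
  have hle : ∀ b : ℤ × ℤ, rt p b * ((∑ w ∈ S, tent z0 l w * dd (mv b ω w))
      - ∑ w ∈ S, tent z0 l w * dd (ω w))
      ≤ (dd (ω b.1) * (|((b.2 - b.1 : ℤ) : ℝ)| * p (b.2 - b.1))
        + dd (ω b.2) * (|((b.2 - b.1 : ℤ) : ℝ)| * p (b.2 - b.1))) / l := by
    intro b
    rw [sum_mv S (tent z0 l) dd b ω]
    have i1 : (if b.1 ∈ S then tent z0 l b.1 * (dd (ω b.1 ⊓ ω b.2) - dd (ω b.1)) else 0)
        = tent z0 l b.1 * (dd (ω b.1 ⊓ ω b.2) - dd (ω b.1)) := by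
      split_ifs with h
      · rfl
      · rw [hS _ h]; ring
    have i2 : (if b.2 ∈ S then tent z0 l b.2 * (dd (ω b.1 ⊔ ω b.2) - dd (ω b.2)) else 0)
        = tent z0 l b.2 * (dd (ω b.1 ⊔ ω b.2) - dd (ω b.2)) := by
      split_ifs with h
      · rfl
      · rw [hS _ h]; ring
    rw [i1, i2]
    have m1 := dd_move (ω b.1) (ω b.2) (hω.1 _) (hω.1 _)
    have m2 := dd_sup (ω b.1) (ω b.2) (hω.1 _) (hω.1 _)
    have m3 := tent_lip z0 hl b.1 b.2
    have e1 : tent z0 l b.1 * (dd (ω b.1 ⊓ ω b.2) - dd (ω b.1))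
        + tent z0 l b.2 * (dd (ω b.1 ⊔ ω b.2) - dd (ω b.2))
        = (tent z0 l b.2 - tent z0 l b.1) * (dd (ω b.1 ⊔ ω b.2) - dd (ω b.2)) := by
      have : dd (ω b.1 ⊓ ω b.2) - dd (ω b.1) = -(dd (ω b.1 ⊔ ω b.2) - dd (ω b.2)) := by linarith
      rw [this]; ring
    rw [e1]
    have e2 : (tent z0 l b.2 - tent z0 l b.1) * (dd (ω b.1 ⊔ ω b.2) - dd (ω b.2))
        ≤ |((b.2 - b.1 : ℤ) : ℝ)| / l * (dd (ω b.1) + dd (ω b.2)) := by
      refine (le_abs_self _).trans ?_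
      rw [abs_mul]
      exact mul_le_mul m3 m2 (abs_nonneg _) (div_nonneg (abs_nonneg _) hl.le)
    have e3 := mul_le_mul_of_nonneg_left e2 ((adm_rt hp).nonneg b)
    refine e3.trans (le_of_eq ?_)
    unfold rt
    ring
  have h1 : gen (rt p) (fun ω : Pf => ∑ w ∈ S, tent z0 l w * dd (ω w)) ω
      ≤ ((∑' x, dd (ω x)) * ∑' k : ℤ, |(k : ℝ)| * p k
        + (∑' x, dd (ω x)) * ∑' k : ℤ, |(k : ℝ)| * p k) / l := by
    rw [← a3.tsum_eq]
    exact hgs.tsum_le_tsum hle a3.summable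
  refine h1.trans (div_le_div_of_nonneg_right ?_ hl.le)
  have hM : 0 ≤ ∑' k : ℤ, |(k : ℝ)| * p k := MM_nonneg hp
  unfold MM
  nlinarith [mul_le_mul_of_nonneg_right hs1 hM]

/-- inserting a particle far from `z0` changes the resolvent of the occupation of `z0` a little -/
lemma insert_le (hp : Kern p) {lam : ℝ} (hlam : 0 < lam) (z0 y : ℤ) {l : ℝ} (hl : 0 < l)
    (hy : l ≤ |((y - z0 : ℤ) : ℝ)|) (η : Cf) (hη : η y = false) :
    res (adm_rt hp) lam (ex z0) (update η y true) - res (adm_rt hp) lam (ex z0) η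
      ≤ 2 * MM p / (l * lam) := by
  -- the pair
  set ω0 : Pf := fun x => (update η y true x, η x) with hω0
  have hdd : ∀ x, dd (ω0 x) = if x = y then 1 else 0 := by
    intro x
    by_cases hx : x = y
    · subst hx
      simp [hω0, hη, dd]
    · simp only [hω0, update_of_ne hx, hx, if_false]
      unfold dd
      cases η x <;> simp
  have hD1 : ω0 ∈ D1 := by
    refine ⟨fun x => ?_, fun n => ?_⟩
    · by_cases hx : x = y
      · subst hx
        simp [hω0, hη]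
      · simp [hω0, update_of_ne hx]
    · simp only [hdd, Finset.sum_ite_eq']
      split_ifs <;> norm_num
  -- the box
  obtain ⟨N, hN⟩ := exists_nat_ge l
  set S := Bx (N + z0.natAbs) with hSdef
  have hS : ∀ w, w ∉ S → tent z0 l w = 0 := by
    intro w hw
    refine tent_zero hl (hN.trans ?_)
    rw [hSdef, mem_Bx] at hw
    have h1 : (N : ℤ) ≤ |w - z0| := by
      rcases abs_cases (w - z0) with ⟨h, _⟩ | ⟨h, _⟩ <;> rw [h] <;> omega
    rw [← Int.cast_abs]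
    exact_mod_cast h1
  set H : Pf → ℝ := fun ω => ∑ w ∈ S, tent z0 l w * dd (ω w) with hH
  have hcyl : Cyl H := ⟨S, fun ω ω' e => Finset.sum_congr rfl fun z hz => by rw [e z hz]⟩
  set Hc : C(Pf, ℝ) := ⟨H, hcyl.continuous⟩ with hHc
  have hz0 : z0 ∈ S := by rw [hSdef, mem_Bx]; omega
  have hHz : ∀ ω, dd (ω z0) ≤ H ω := by
    intro ω
    have h1 : tent z0 l z0 * dd (ω z0) ≤ H ω :=
      Finset.single_le_sum (f := fun w => tent z0 l w * dd (ω w))
        (fun w _ => mul_nonneg (tent_nonneg _ _ _) (dd_nonneg _)) hz0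
    rwa [tent_self, one_mul] at h1
  have hcomp : ∀ ω ∈ D1, ((ex z0).comp pr1 - (ex z0).comp pr2) ω
      ≤ (pre (adm_rt hp) lam Hc hcyl
        + ContinuousMap.const (ℤ → Bool × Bool) (2 * MM p / (l * lam)) : C(ℤ → Bool × Bool, ℝ)) ω := by
    intro ω hω
    simp only [ContinuousMap.sub_apply, ContinuousMap.comp_apply, ContinuousMap.add_apply,
      ContinuousMap.const_apply, pre_apply]
    rw [← dd_eq hω.1 z0]
    have h1 := gen_tent hp z0 hl hS hω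
    have h2 := hHz ω
    have h3 : gen (rt p) Hc ω / lam ≤ 2 * MM p / (l * lam) := by
      rw [← div_div]
      exact div_le_div_of_nonneg_right h1 hlam.le
    have h4 : Hc ω = H ω := rfl
    rw [h4]
    linarith
  have h5 := res_mono_on (adm_rt hp) hlam isClosed_D1 (absb_D1 _) hcomp ω0 hD1
  rw [res_sub (adm_rt hp) hlam, res_pr1 (adm_rt hp) hlam, res_pr2 (adm_rt hp) hlam,
    res_add (adm_rt hp) hlam, res_cyl (adm_rt hp) hlam, res_const (adm_rt hp) hlam] at h5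
  simp only [ContinuousMap.sub_apply, ContinuousMap.comp_apply, ContinuousMap.add_apply,
      ContinuousMap.const_apply] at h5
  have h6 : Hc ω0 = 0 := by
    change ∑ w ∈ S, tent z0 l w * dd (ω0 w) = 0
    refine Finset.sum_eq_zero fun w _ => ?_
    rw [hdd]
    by_cases hw : w = y
    · subst hw; rw [tent_zero hl hy]; ring
    · simp [hw]
  rw [h6, zero_add] at h5
  exact h5

end Pool.Agent.Q298.Excl
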