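import Pool.Agent.Q298.Excl.Kf

/-!
# Invariant measures
-/

open Set Filter Topology MeasureTheory Function

set_option linter.unusedSectionVars false

namespace Pool.Agent.Q298.Excl

section general

variable {X : Type*} [TopologicalSpace X] [CompactSpace X] [MeasurableSpace X] [BorelSpace X]

lemma integrable_C (μ : Measure X) [IsFiniteMeasure μ] (f : C(X, ℝ)) : Integrable (fun x => f x) μ :=
  f.continuous.integrable_of_hasCompactSupport (HasCompactSupport.of_compactSpace _)

lemma continuous_int (μ : Measure X) [IsFiniteMeasure μ] :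
    Continuous fun f : C(X, ℝ) => ∫ x, f x ∂μ := by
  have h : LipschitzWith (Real.toNNReal (μ.real univ)) fun f : C(X, ℝ) => ∫ x, f x ∂μ := by
    refine LipschitzWith.of_dist_le_mul fun f g => ?_
    rw [Real.coe_toNNReal _ measureReal_nonneg, Real.dist_eq,
      ← integral_sub (integrable_C μ f) (integrable_C μ g), mul_comm, ← Real.norm_eq_abs]
    refine norm_integral_le_of_norm_le_const (Eventually.of_forall fun x => ?_)
    have h := ContinuousMap.dist_apply_le_dist (f := f) (g := g) x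
    rwa [Real.dist_eq, ← Real.norm_eq_abs] at h
  exact h.continuous

end general

variable {A B : Type*} [TopologicalSpace A] [DiscreteTopology A] [Lattice A] [Finite A]
  [TopologicalSpace B] [DiscreteTopology B] [Lattice B] [Finite B]
  [MeasurableSpace (ℤ → A)] [BorelSpace (ℤ → A)]
variable {p : ℤ → ℝ} {c : ℤ × ℤ → ℝ}

/-- infinitesimal stationarity -/
def Stat (c : ℤ × ℤ → ℝ) (μ : Measure (ℤ → A)) : Prop :=
  ∀ h : (ℤ → A) → ℝ, Cyl h → ∫ η, gen c h η ∂μ = 0

lemma Stat.RR {hc : Adm p c} {μ : Measure (ℤ → A)} [IsFiniteMeasure μ] (hμ : Stat c μ)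
    {lam : ℝ} {f g : C(ℤ → A, ℝ)} (h : RR hc lam f g) : ∫ η, g η ∂μ = ∫ η, f η ∂μ := by
  have hclosed : IsClosed {q : C(ℤ → A, ℝ) × C(ℤ → A, ℝ) | ∫ η, q.2 η ∂μ = ∫ η, q.1 η ∂μ} :=
    isClosed_eq ((continuous_int μ).comp continuous_snd) ((continuous_int μ).comp continuous_fst)
  refine closure_minimal ?_ hclosed h
  rintro ⟨f, h⟩ ⟨h1, h2⟩
  simp only [mem_setOf_eq]
  have e : ∀ η, f η = h η - gen c h η / lam := h2
  have hcont := gen_continuous hc h1
  have hint : Integrable (fun η => gen c h η / lam) μ :=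
    integrable_C μ ⟨fun η => gen c h η / lam, hcont.div_const lam⟩
  rw [integral_congr_ae (Eventually.of_forall e), integral_sub (integrable_C μ h) hint,
    integral_div, hμ _ h1]
  simp

lemma Stat.inv {hc : Adm p c} {μ : Measure (ℤ → A)} [IsFiniteMeasure μ] (hμ : Stat c μ)
    {lam : ℝ} (hlam : 0 < lam) (f : C(ℤ → A, ℝ)) :
    ∫ η, res hc lam f η ∂μ = ∫ η, f η ∂μ :=
  hμ.RR (res_spec hc hlam f)

/-- the energy inequality -/
lemma Stat.energyR {hc : Adm p c} {μ : Measure (ℤ → A)} [IsFiniteMeasure μ] (hμ : Stat c μ)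
    {lam : ℝ} (hlam : 0 < lam) (E : Finset (ℤ × ℤ)) {f g : C(ℤ → A, ℝ)} (h : Excl.RR hc lam f g) :
    ∑ b ∈ E, c b * ∫ η, (g (mv b η) - g η) ^ 2 ∂μ ≤ 2 * lam * ∫ η, g η * (f η - g η) ∂μ := by
  have hclosed : IsClosed {q : C(ℤ → A, ℝ) × C(ℤ → A, ℝ) |
      ∑ b ∈ E, c b * ∫ η, ((q.2.comp (mvC b) - q.2) ^ 2 : C(ℤ → A, ℝ)) η ∂μ
        ≤ 2 * lam * ∫ η, (q.2 * (q.1 - q.2) : C(ℤ → A, ℝ)) η ∂μ} := by
    refine isClosed_le ?_ ?_
    · refine continuous_finsetSum _ fun b _ => continuous_const.mul ?_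
      refine (continuous_int μ).comp ?_
      have h1 : Continuous fun q : C(ℤ → A, ℝ) × C(ℤ → A, ℝ) => q.2.comp (mvC b) :=
        (ContinuousMap.continuous_precomp (mvC b)).comp continuous_snd
      exact (h1.sub continuous_snd).pow 2
    · refine continuous_const.mul ((continuous_int μ).comp ?_)
      exact continuous_snd.mul (continuous_fst.sub continuous_snd)
  have key := closure_minimal (s := ((Gr A hc lam : Submodule ℝ (C(ℤ → A, ℝ) × C(ℤ → A, ℝ))) :
    Set _)) ?_ hclosed h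
  · exact key
  rintro ⟨f, h⟩ ⟨h1, h2⟩
  simp only [mem_setOf_eq]
  have e : ∀ η, f η = h η - gen c h η / lam := h2
  have hh1 : Cyl (h : (ℤ → A) → ℝ) := h1
  have hsq : Cyl (fun η => h η ^ 2) := hh1.map1 (fun x => x ^ 2)
  have hcs := gen_continuous hc hsq
  -- pointwise inequality
  have hpt : ∀ η, ∑ b ∈ E, c b * (h (mv b η) - h η) ^ 2
      ≤ gen c (fun ζ => h ζ ^ 2) η + 2 * lam * (h η * (f η - h η)) := by
    intro η
    have s1 := gen_summable hc hsq η
    have s2 := gen_summable hc hh1 η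
    have e1 : 2 * lam * (h η * (f η - h η)) = -(2 * h η) * gen c h η := by
      rw [e η]; field_simp; ring
    have s3 : Summable fun b => c b * (h (mv b η) - h η) ^ 2 := by
      refine (s1.add (s2.mul_left (-(2 * h η)))).congr fun b => ?_
      ring
    have e2 : gen c (fun ζ => h ζ ^ 2) η + -(2 * h η) * gen c h η
        = ∑' b, c b * (h (mv b η) - h η) ^ 2 := by
      unfold gen
      rw [← tsum_mul_left, ← s1.tsum_add (s2.mul_left _)]
      refine tsum_congr fun b => ?_
      ring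
    rw [e1, e2]
    exact s3.sum_le_tsum E fun b _ => mul_nonneg (hc.nonneg b) (sq_nonneg _)
  have i1 : ∀ b, Integrable (fun η => c b * (h (mv b η) - h η) ^ 2) μ := fun b =>
    (integrable_C μ ((h.comp (mvC b) - h) ^ 2)).const_mul (c b)
  have i2 : Integrable (fun η => gen c (fun ζ => h ζ ^ 2) η) μ := integrable_C μ ⟨_, hcs⟩
  have i3 : Integrable (fun η => 2 * lam * (h η * (f η - h η))) μ :=
    (integrable_C μ (h * (f - h))).const_mul _
  have h3 := integral_mono (integrable_finsetSum E fun b _ => i1 b) (i2.add i3) hpt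
  rw [integral_finsetSum _ (fun b _ => i1 b)] at h3
  have e3 : ∫ η, ((fun η => gen c (fun ζ => h ζ ^ 2) η) + fun η => 2 * lam * (h η * (f η - h η))) η ∂μ
      = 2 * lam * ∫ η, h η * (f η - h η) ∂μ := by
    rw [integral_add' i2 i3, hμ _ hsq, zero_add, integral_const_mul]
  rw [e3] at h3
  refine le_trans (le_of_eq ?_) (h3.trans (le_of_eq ?_))
  · refine Finset.sum_congr rfl fun b _ => ?_
    rw [integral_const_mul]
    rfl
  · rfl

lemma Stat.energy {hc : Adm p c} {μ : Measure (ℤ → A)} [IsFiniteMeasure μ] (hμ : Stat c μ)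
    {lam : ℝ} (hlam : 0 < lam) (E : Finset (ℤ × ℤ)) (f : C(ℤ → A, ℝ)) :
    ∑ b ∈ E, c b * ∫ η, (res hc lam f (mv b η) - res hc lam f η) ^ 2 ∂μ
      ≤ 2 * lam * ∫ η, res hc lam f η * (f η - res hc lam f η) ∂μ :=
  hμ.energyR hlam E (res_spec hc hlam f)

/-- restriction to a closed absorbing set is still invariant -/
lemma Stat.restrict {hc : Adm p c} {μ : Measure (ℤ → A)} [IsFiniteMeasure μ] (hμ : Stat c μ)
    [μ.OuterRegular] [T2Space A]
    {D : Set (ℤ → A)} (hD : IsClosed D) (hA : Absb c D)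
    {lam : ℝ} (hlam : 0 < lam) (f : C(ℤ → A, ℝ)) :
    ∫ η in D, res hc lam f η ∂μ = ∫ η in D, f η ∂μ := by
  -- bound on f
  obtain ⟨m, hm⟩ : ∃ m : ℝ, ∀ η, |f η| ≤ m := ⟨‖f‖, fun η => f.norm_coe_le_norm η⟩
  have hDm : MeasurableSet D := hD.measurableSet
  suffices hε : ∀ ε : ℝ, 0 < ε → |∫ η in D, res hc lam f η ∂μ - ∫ η in D, f η ∂μ| ≤ 2 * |m| * ε by
    have h0 : |∫ η in D, res hc lam f η ∂μ - ∫ η in D, f η ∂μ| ≤ 0 := by
      refine le_of_forall_pos_le_add fun ε hε' => ?_
      have hpos : 0 < 2 * |m| + 1 := by positivity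
      have h1 := hε (ε / (2 * |m| + 1)) (div_pos hε' hpos)
      have h2 : 2 * |m| * (ε / (2 * |m| + 1)) ≤ ε := by
        rw [mul_div_assoc', div_le_iff₀ hpos]; nlinarith [abs_nonneg m]
      linarith
    have h1 := abs_nonpos_iff.1 h0
    linarith
  intro ε hε
  -- open neighbourhood
  have hε' : ENNReal.ofReal ε ≠ 0 := by simpa using hε
  obtain ⟨U, hDU, hU, hUm⟩ := D.exists_isOpen_lt_add (μ := μ) (measure_ne_top μ D) hε'
  obtain ⟨φ, hφ0, hφ1, hφI⟩ := exists_continuous_zero_one_of_isClosed hU.isClosed_compl hD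
    (disjoint_compl_left_iff_subset.2 hDU)
  have hφn : ∀ η, 0 ≤ φ η := fun η => (hφI η).1
  have hφle : ∀ η, φ η ≤ 1 := fun η => (hφI η).2
  have hφint : ∫ η, φ η ∂μ ≤ μ.real D + ε := by
    have h1 : ∫ η, φ η ∂μ ≤ ∫ η, U.indicator (fun _ => (1 : ℝ)) η ∂μ := by
      refine integral_mono (integrable_C μ φ) ((integrable_const 1).indicator hU.measurableSet) ?_
      intro η
      by_cases hη : η ∈ U
      · simp [hη, hφle η]
      · have : φ η = 0 := hφ0 hη
        simp [hη, this]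
    rw [integral_indicator_const _ hU.measurableSet] at h1
    simp only [smul_eq_mul, mul_one] at h1
    have h2 : μ.real U ≤ μ.real D + ε := by
      unfold Measure.real
      have h3 : (μ D + ENNReal.ofReal ε).toReal = (μ D).toReal + ε := by
        rw [ENNReal.toReal_add (measure_ne_top μ D) ENNReal.ofReal_ne_top,
          ENNReal.toReal_ofReal hε.le]
      rw [← h3]
      exact ENNReal.toReal_mono (ENNReal.add_ne_top.2 ⟨measure_ne_top μ D, ENNReal.ofReal_ne_top⟩)
        hUm.le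
    linarith
  -- integral of φ over D
  have hφD : ∫ η in D, φ η ∂μ = μ.real D := by
    rw [setIntegral_congr_fun (g := fun _ => (1 : ℝ)) hDm (fun η hη => hφ1 hη)]
    simp
  have hφDc : ∫ η in Dᶜ, φ η ∂μ ≤ ε := by
    have h1 := integral_add_compl hDm (integrable_C μ φ)
    linarith
  -- resolvent of φ
  have hKφD : ∫ η in D, res hc lam φ η ∂μ = μ.real D := by
    rw [setIntegral_congr_fun (g := fun _ => (1 : ℝ)) hDm (fun η hη => ?_)]
    · simp
    · have h1 := res_eq_on hc hlam hD hA (f := φ) (g := ContinuousMap.const _ 1)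
        (fun ζ hζ => hφ1 hζ) η hη
      rw [h1, res_const hc hlam]
      rfl
  have hKφDc : ∫ η in Dᶜ, res hc lam φ η ∂μ ≤ ε := by
    have h1 := integral_add_compl hDm (integrable_C μ (res hc lam φ))
    have h2 := hμ.inv (hc := hc) hlam φ
    linarith
  -- the product
  have hprod := hμ.inv (hc := hc) hlam (f * φ)
  have hL := integral_add_compl hDm (integrable_C μ (res hc lam (f * φ)))
  have hR := integral_add_compl hDm (integrable_C μ (f * φ))
  have e1 : ∫ η in D, res hc lam (f * φ) η ∂μ = ∫ η in D, res hc lam f η ∂μ := by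
    refine setIntegral_congr_fun hDm fun η hη => ?_
    refine res_eq_on hc hlam hD hA (fun ζ hζ => ?_) η hη
    rw [ContinuousMap.mul_apply]
    have : φ ζ = 1 := hφ1 hζ
    rw [this, mul_one]
  have e2 : ∫ η in D, (f * φ) η ∂μ = ∫ η in D, f η ∂μ := by
    refine setIntegral_congr_fun hDm fun ζ hζ => ?_
    simp only [ContinuousMap.mul_apply]
    have : φ ζ = 1 := hφ1 hζ
    rw [this, mul_one]
  have hm' : ∀ η, |f η| ≤ |m| := fun η => (hm η).trans (le_abs_self m)
  have b1 : |∫ η in Dᶜ, (f * φ) η ∂μ| ≤ |m| * ε := by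
    calc |∫ η in Dᶜ, (f * φ) η ∂μ| ≤ ∫ η in Dᶜ, |m| * φ η ∂μ := by
          rw [← Real.norm_eq_abs]
          refine norm_integral_le_of_norm_le ((integrable_C _ φ).const_mul _)
            (Eventually.of_forall fun η => ?_)
          rw [Real.norm_eq_abs, ContinuousMap.mul_apply, abs_mul, abs_of_nonneg (hφn η)]
          exact mul_le_mul_of_nonneg_right (hm' η) (hφn η)
      _ = |m| * ∫ η in Dᶜ, φ η ∂μ := integral_const_mul _ _
      _ ≤ |m| * ε := mul_le_mul_of_nonneg_left hφDc (abs_nonneg m)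
  have b2 : |∫ η in Dᶜ, res hc lam (f * φ) η ∂μ| ≤ |m| * ε := by
    calc |∫ η in Dᶜ, res hc lam (f * φ) η ∂μ| ≤ ∫ η in Dᶜ, |m| * res hc lam φ η ∂μ := by
          rw [← Real.norm_eq_abs]
          refine norm_integral_le_of_norm_le ((integrable_C _ (res hc lam φ)).const_mul _)
            (Eventually.of_forall fun η => ?_)
          rw [Real.norm_eq_abs, abs_le]
          have h1 : ∀ ζ, (f * φ) ζ ≤ (|m| • φ) ζ := fun ζ => by
            simp only [ContinuousMap.mul_apply, ContinuousMap.smul_apply, smul_eq_mul]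
            exact mul_le_mul_of_nonneg_right (abs_le.1 (hm' ζ)).2 (hφn ζ)
          have h2 : ∀ ζ, ((-|m|) • φ) ζ ≤ (f * φ) ζ := fun ζ => by
            simp only [ContinuousMap.mul_apply, ContinuousMap.smul_apply, smul_eq_mul]
            exact mul_le_mul_of_nonneg_right (abs_le.1 (hm' ζ)).1 (hφn ζ)
          have h3 := res_mono hc hlam h1 η
          have h4 := res_mono hc hlam h2 η
          rw [res_smul hc hlam] at h3 h4
          simp only [ContinuousMap.smul_apply, smul_eq_mul] at h3 h4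
          exact ⟨by linarith, h3⟩
      _ = |m| * ∫ η in Dᶜ, res hc lam φ η ∂μ := integral_const_mul _ _
      _ ≤ |m| * ε := mul_le_mul_of_nonneg_left hKφDc (abs_nonneg m)
  rw [e1] at hL
  rw [e2] at hR
  have e3 : ∫ η in D, res hc lam f η ∂μ - ∫ η in D, f η ∂μ
      = ∫ η in Dᶜ, (f * φ) η ∂μ - ∫ η in Dᶜ, res hc lam (f * φ) η ∂μ := by linarith
  rw [e3]
  calc _ ≤ |∫ η in Dᶜ, (f * φ) η ∂μ| + |∫ η in Dᶜ, res hc lam (f * φ) η ∂μ| := abs_sub _ _
    _ ≤ 2 * |m| * ε := by linarith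

end Pool.Agent.Q298.Excl
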