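import Pool.Agent.Q298.Excl.Opp

/-!
# Opposite discrepancies for irreducible kernels
-/

open Set Filter Topology MeasureTheory Function

set_option linter.unusedSectionVars false

namespace Pool.Agent.Q298.Excl

variable {p : ℤ → ℝ}

/-- paths with positive steps -/
def RP (p : ℤ → ℝ) : ℕ → ℤ → ℤ → Prop
  | 0, x, y => x = y
  | n + 1, x, y => ∃ w, RP p n x w ∧ 0 < p (y - w)

lemma RP_cons {x w : ℤ} (h : 0 < p (w - x)) : ∀ {n : ℕ} {y : ℤ}, RP p n w y → RP p (n + 1) x y := by
  intro n
  induction n with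
  | zero =>
    intro y hy
    have e : w = y := hy
    subst e
    exact ⟨x, rfl, h⟩
  | succ n ih =>
    rintro y ⟨v, hv, hvy⟩
    exact ⟨v, ih hv, hvy⟩

lemma RP_trans {m : ℕ} {x w : ℤ} (h : RP p m x w) : ∀ {n : ℕ} {y : ℤ}, RP p n w y →
    RP p (m + n) x y := by
  intro n
  induction n with
  | zero =>
    intro y hy
    have e : w = y := hy
    subst e
    exact h
  | succ n ih =>
    rintro y ⟨v, hv, hvy⟩
    exact ⟨v, ih hv, hvy⟩

/-- irreducibility of the random walk with step distribution `p` -/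
def Irred (p : ℤ → ℝ) : Prop := AddSubmonoid.closure {k : ℤ | 0 < p k} = ⊤

lemma Irred.path (h : Irred p) (x y : ℤ) : ∃ n, RP p n x y := by
  have key : ∀ k : ℤ, ∀ x : ℤ, ∃ n, RP p n x (x + k) := by
    intro k
    have hk : k ∈ AddSubmonoid.closure {k : ℤ | 0 < p k} := by rw [h]; trivial
    induction hk using AddSubmonoid.closure_induction with
    | mem k hk =>
      intro x
      refine ⟨1, x, rfl, ?_⟩
      have e : x + k - x = k := by ring
      rw [e]
      exact hk
    | zero =>
      intro x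
      exact ⟨0, (add_zero x).symm⟩
    | add a b _ _ iha ihb =>
      intro x
      obtain ⟨m, hm⟩ := iha x
      obtain ⟨n, hn⟩ := ihb (x + a)
      refine ⟨m + n, ?_⟩
      rw [← add_assoc]
      exact RP_trans hm hn
  obtain ⟨n, hn⟩ := key (y - x) x
  refine ⟨n, ?_⟩
  have e : x + (y - x) = y := by ring
  rwa [e] at hn

/-- cylinder null sets are stable under allowed moves -/
lemma quasi (hp : Kern p) (ν : Measure Pf) [IsProbabilityMeasure ν] (hν : Stat (rt p) ν)
    {T : Set Pf} (hT : Cyl (T.indicator fun _ => (1 : ℝ))) (hT0 : ν T = 0) (b : ℤ × ℤ)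
    (hb : 0 < rt p b) : ν {ω | mv b ω ∈ T} = 0 := by
  set h : Pf → ℝ := T.indicator fun _ => (1 : ℝ) with hh
  have hcont : Continuous h := hT.continuous
  have hTm : MeasurableSet T := by
    have e : T = h ⁻¹' {1} := by
      ext ω
      simp only [hh, mem_preimage, mem_singleton_iff]
      by_cases hω : ω ∈ T <;> simp [hω]
    rw [e]
    exact hcont.measurable (measurableSet_singleton 1)
  have hsum := int_gen (adm_rt hp) hT ν
  rw [hν _ hT] at hsum
  have hi0 : ∫ ω, h ω ∂ν = 0 := by
    rw [hh, integral_indicator_const _ hTm]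
    simp [Measure.real, hT0]
  have hint : ∀ b', Integrable (fun ω => h (mv b' ω)) ν := fun b' =>
    integrable_C ν ⟨fun ω => h (mv b' ω), hcont.comp (continuous_mv b')⟩
  have hint0 : Integrable (fun ω => h ω) ν := integrable_C ν ⟨h, hcont⟩
  have e1 : ∀ b' : ℤ × ℤ, ∫ ω, (h (mv b' ω) - h ω) ∂ν = ∫ ω, h (mv b' ω) ∂ν := by
    intro b'
    rw [integral_sub (hint b') hint0, hi0, sub_zero]
  have hnn : ∀ ω, 0 ≤ h ω := by
    intro ω
    rw [hh]
    exact indicator_nonneg (fun _ _ => zero_le_one) ω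
  have hz := (hasSum_zero_iff_of_nonneg (fun b' => by
    rw [e1 b']
    exact mul_nonneg ((adm_rt hp).nonneg b') (integral_nonneg fun ω => hnn _))).1 hsum
  have h1 : rt p b * ∫ ω, (h (mv b ω) - h ω) ∂ν = 0 := congrFun hz b
  rw [e1 b] at h1
  have h2 : ∫ ω, h (mv b ω) ∂ν = 0 := by
    rcases mul_eq_zero.1 h1 with h | h
    · exact absurd h hb.ne'
    · exact h
  have hpre : MeasurableSet {ω : Pf | mv b ω ∈ T} := (continuous_mv b).measurable hTm
  have e2 : (fun ω => h (mv b ω)) = {ω : Pf | mv b ω ∈ T}.indicator fun _ => (1 : ℝ) := by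
    funext ω
    simp only [hh, indicator]
    rfl
  rw [e2, integral_indicator_const _ hpre] at h2
  simp only [smul_eq_mul, mul_one] at h2
  exact (measureReal_eq_zero_iff (measure_ne_top _ _)).1 h2

/-- patterns -/
def P2 (x : ℤ) (a : Bool × Bool) (y : ℤ) (b : Bool × Bool) : Set Pf := {ω | ω x = a ∧ ω y = b}

def P3 (x : ℤ) (a : Bool × Bool) (w : ℤ) (c : Bool × Bool) (y : ℤ) (b : Bool × Bool) : Set Pf :=
  {ω | ω x = a ∧ ω w = c ∧ ω y = b}

lemma cyl_P2 (x : ℤ) (a : Bool × Bool) (y : ℤ) (b : Bool × Bool) :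
    Cyl ((P2 x a y b).indicator fun _ => (1 : ℝ)) := by
  refine ⟨{x, y}, fun ω ω' e => ?_⟩
  have h1 := e x (by simp)
  have h2 := e y (by simp)
  have h3 : ω ∈ P2 x a y b ↔ ω' ∈ P2 x a y b := by simp only [P2, Set.mem_ofPred_eq, h1, h2]
  by_cases h : ω ∈ P2 x a y b
  · rw [indicator_of_mem h, indicator_of_mem (h3.1 h)]
  · rw [indicator_of_notMem h, indicator_of_notMem (fun h' => h (h3.2 h'))]

lemma cyl_P3 (x : ℤ) (a : Bool × Bool) (w : ℤ) (c : Bool × Bool) (y : ℤ) (b : Bool × Bool) :
    Cyl ((P3 x a w c y b).indicator fun _ => (1 : ℝ)) := by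
  refine ⟨{x, w, y}, fun ω ω' e => ?_⟩
  have h1 := e x (by simp)
  have h2 := e w (by simp)
  have h4 := e y (by simp)
  have h3 : ω ∈ P3 x a w c y b ↔ ω' ∈ P3 x a w c y b := by
    simp only [P3, Set.mem_ofPred_eq, h1, h2, h4]
  by_cases h : ω ∈ P3 x a w c y b
  · rw [indicator_of_mem h, indicator_of_mem (h3.1 h)]
  · rw [indicator_of_notMem h, indicator_of_notMem (fun h' => h (h3.2 h'))]

section chain

variable (hp : Kern p) (ν : Measure Pf) [IsProbabilityMeasure ν] (hν : Stat (rt p) ν)
  (d d' : Bool × Bool) (hd : d ≠ d')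
  (hall : ∀ a : Bool × Bool, a = (false, false) ∨ a = (true, true) ∨ a = d ∨ a = d')
  (hd0 : d ≠ (false, false)) (hd1 : d ≠ (true, true))
  (hd0' : d' ≠ (false, false)) (hd1' : d' ≠ (true, true))
  (hadj : ∀ x y : ℤ, 0 < p (y - x) → ν (P2 x d y d') = 0)

include hp hν hall hd0 hd1 hd0' hd1' hadj hd

/-- the pattern `d ... (0,0) ... d'` is null -/
lemma Q_null (N : ℕ) (hP : ∀ n, 1 ≤ n → n < N → ∀ x y, RP p n x y → ν (P2 x d y d') = 0) :
    ∀ f g : ℕ, 1 ≤ f → 1 ≤ g → f + g = N → ∀ x w y, RP p f x w → RP p g w y →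
      ν (P3 x d w (false, false) y d') = 0 := by
  intro f
  induction f with
  | zero => intro g h1; omega
  | succ f ih =>
    intro g _ hg hN x w y hxw hwy
    obtain ⟨v, hxv, hvw⟩ := hxw
    by_cases hf : f = 0
    · -- one step
      subst hf
      have e : x = v := hxv
      subst e
      have h1 := hP g hg (by omega) w y hwy
      have h2 := quasi hp ν hν (cyl_P2 w d y d') h1 (x, w) hvw
      refine measure_mono_null ?_ h2
      rintro ω ⟨hx, hw, hy⟩
      simp only [Set.mem_ofPred_eq, P2]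
      have hyx : y ≠ x := by rintro rfl; exact hd (hx.symm.trans hy)
      have hyw : y ≠ w := by rintro rfl; exact hd0' (hy.symm.trans hw)
      refine ⟨?_, ?_⟩
      · have := mv_snd (x, w) ω
        simp only at this
        rw [this, hx, hw]
        rcases d with ⟨a, b⟩
        simp
      · rw [mv_of_ne _ _ hyx hyw]; exact hy
    · -- inspect the state at v
      have hf1 : 1 ≤ f := by omega
      have hvy : RP p (g + 1) v y := RP_cons hvw hwy
      have c0 : ν (P3 x d v (false, false) y d') = 0 :=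
        ih (g + 1) hf1 (by omega) (by omega) x v y hxv hvy
      have c1 : ν (P2 v d y d') = 0 := hP (g + 1) (by omega) (by omega) v y hvy
      have c2 : ν (P2 x d v d') = 0 := hP f hf1 (by omega) x v hxv
      have c3 := quasi hp ν hν (cyl_P3 x d v (false, false) y d') c0 (v, w) hvw
      have hun : ν (P3 x d v (false, false) y d' ∪ (P2 v d y d' ∪ (P2 x d v d' ∪
          {ω | mv (v, w) ω ∈ P3 x d v (false, false) y d'}))) = 0 := by
        refine measure_union_null c0 (measure_union_null c1 (measure_union_null c2 c3))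
      refine measure_mono_null ?_ hun
      rintro ω ⟨hx, hw, hy⟩
      rcases hall (ω v) with h | h | h | h
      · exact Or.inl ⟨hx, h, hy⟩
      · refine Or.inr (Or.inr (Or.inr ?_))
        have hxv' : x ≠ v := by rintro rfl; exact hd1 (hx.symm.trans h)
        have hxw' : x ≠ w := by rintro rfl; exact hd0 (hx.symm.trans hw)
        have hyv' : y ≠ v := by rintro rfl; exact hd1' (hy.symm.trans h)
        have hyw' : y ≠ w := by rintro rfl; exact hd0' (hy.symm.trans hw)
        refine ⟨?_, ?_, ?_⟩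
        · rw [mv_of_ne _ _ hxv' hxw']; exact hx
        · have := mv_fst (v, w) ω
          simp only at this
          rw [this, h, hw]; rfl
        · rw [mv_of_ne _ _ hyv' hyw']; exact hy
      · exact Or.inr (Or.inl ⟨h, hy⟩)
      · exact Or.inr (Or.inr (Or.inl ⟨hx, h⟩))

lemma P_null : ∀ n, 1 ≤ n → ∀ x y, RP p n x y → ν (P2 x d y d') = 0 := by
  intro n
  induction n using Nat.strong_induction_on with
  | _ n ih =>
    intro hn x y hxy
    obtain ⟨m, rfl⟩ : ∃ m, n = m + 1 := ⟨n - 1, by omega⟩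
    obtain ⟨w, hxw, hwy⟩ := hxy
    by_cases hm : m = 0
    · subst hm
      have e : x = w := hxw
      subst e
      exact hadj x y hwy
    · have hm1 : 1 ≤ m := by omega
      have hP : ∀ k, 1 ≤ k → k < m + 1 → ∀ x y, RP p k x y → ν (P2 x d y d') = 0 :=
        fun k hk1 hk2 x y h => ih k hk2 hk1 x y h
      have c0 : ν (P3 x d w (false, false) y d') = 0 :=
        Q_null hp ν hν d d' hd hall hd0 hd1 hd0' hd1' hadj (m + 1) hP m 1 hm1 le_rfl rfl x w y hxw
          ⟨w, rfl, hwy⟩
      have c1 : ν (P2 w d y d') = 0 := hadj w y hwy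
      have c2 : ν (P2 x d w d') = 0 := hP m hm1 (by omega) x w hxw
      have c3 := quasi hp ν hν (cyl_P2 x d w d') c2 (w, y) hwy
      have hun : ν (P3 x d w (false, false) y d' ∪ (P2 w d y d' ∪ (P2 x d w d' ∪
          {ω | mv (w, y) ω ∈ P2 x d w d'}))) = 0 :=
        measure_union_null c0 (measure_union_null c1 (measure_union_null c2 c3))
      refine measure_mono_null ?_ hun
      rintro ω ⟨hx, hy⟩
      rcases hall (ω w) with h | h | h | h
      · exact Or.inl ⟨hx, h, hy⟩
      · refine Or.inr (Or.inr (Or.inr ?_))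
        have hxw' : x ≠ w := by rintro rfl; exact hd1 (hx.symm.trans h)
        have hxy' : x ≠ y := by rintro rfl; exact hd (hx.symm.trans hy)
        refine ⟨?_, ?_⟩
        · rw [mv_of_ne _ _ hxw' hxy']; exact hx
        · have := mv_fst (w, y) ω
          simp only at this
          rw [this, h, hy]
          rcases d' with ⟨a, b⟩
          simp
      · exact Or.inr (Or.inl ⟨h, hy⟩)
      · exact Or.inr (Or.inr (Or.inl ⟨hx, h⟩))

end chain

end Pool.Agent.Q298.Excl
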