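import Pool.Agent.Q298.Excl.Res

/-!
# Properties of the resolvent
-/

open Set Filter Topology MeasureTheory Function

set_option linter.unusedSectionVars false

namespace Pool.Agent.Q298.Excl

variable {A B : Type*} [TopologicalSpace A] [DiscreteTopology A] [Lattice A] [Finite A]
  [TopologicalSpace B] [DiscreteTopology B] [Lattice B] [Finite B]
variable {p : ℤ → ℝ} {c : ℤ × ℤ → ℝ}

section basic

variable (hc : Adm p c) {lam : ℝ} (hlam : 0 < lam)
include hlam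

lemma res_add (f g : C(ℤ → A, ℝ)) : res hc lam (f + g) = res hc lam f + res hc lam g :=
  res_eq hlam ((res_spec hc hlam f).add (res_spec hc hlam g))

lemma res_sub (f g : C(ℤ → A, ℝ)) : res hc lam (f - g) = res hc lam f - res hc lam g :=
  res_eq hlam ((res_spec hc hlam f).sub (res_spec hc hlam g))

lemma res_smul (a : ℝ) (f : C(ℤ → A, ℝ)) : res hc lam (a • f) = a • res hc lam f :=
  res_eq hlam ((res_spec hc hlam f).smul a)

lemma res_const (a : ℝ) : res hc lam (ContinuousMap.const (ℤ → A) a) = ContinuousMap.const _ a :=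
  res_eq hlam (RR.const hc lam a)

lemma res_cyl (h : C(ℤ → A, ℝ)) (hh : Cyl (h : (ℤ → A) → ℝ)) :
    res hc lam (pre hc lam h hh) = h :=
  res_eq hlam (RR.of_cyl hc lam h hh)

lemma res_mono_on {D : Set (ℤ → A)} (hD : IsClosed D) (hA : Absb c D) {f g : C(ℤ → A, ℝ)}
    (hfg : ∀ η ∈ D, f η ≤ g η) : ∀ η ∈ D, res hc lam f η ≤ res hc lam g η := by
  intro η hη
  have h := ((res_spec hc hlam g).sub (res_spec hc hlam f)).ge hlam hD hA (m := 0)
    (fun ζ hζ => by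
      simp only [ContinuousMap.sub_apply]; linarith [hfg ζ hζ]) η hη
  simp only [ContinuousMap.sub_apply] at h
  linarith

lemma res_eq_on {D : Set (ℤ → A)} (hD : IsClosed D) (hA : Absb c D) {f g : C(ℤ → A, ℝ)}
    (hfg : ∀ η ∈ D, f η = g η) : ∀ η ∈ D, res hc lam f η = res hc lam g η := fun η hη =>
  le_antisymm (res_mono_on hc hlam hD hA (fun ζ hζ => (hfg ζ hζ).le) η hη)
    (res_mono_on hc hlam hD hA (fun ζ hζ => (hfg ζ hζ).ge) η hη)

lemma res_mono {f g : C(ℤ → A, ℝ)} (hfg : ∀ η, f η ≤ g η) (η : ℤ → A) :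
    res hc lam f η ≤ res hc lam g η :=
  res_mono_on hc hlam isClosed_univ (absb_univ c) (fun ζ _ => hfg ζ) η (mem_univ _)

lemma res_ge {f : C(ℤ → A, ℝ)} {m : ℝ} (hf : ∀ η, m ≤ f η) (η : ℤ → A) :
    m ≤ res hc lam f η :=
  (res_spec hc hlam f).ge hlam isClosed_univ (absb_univ c) (fun ζ _ => hf ζ) η (mem_univ _)

lemma res_le {f : C(ℤ → A, ℝ)} {m : ℝ} (hf : ∀ η, f η ≤ m) (η : ℤ → A) :
    res hc lam f η ≤ m :=
  (res_spec hc hlam f).le hlam isClosed_univ (absb_univ c) (fun ζ _ => hf ζ) η (mem_univ _)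

lemma res_abs {f : C(ℤ → A, ℝ)} {m : ℝ} (hf : ∀ η, |f η| ≤ m) (η : ℤ → A) :
    |res hc lam f η| ≤ m :=
  (res_spec hc hlam f).norm_le hlam hf η

/-- resolvent identity -/
lemma res_res {lam' : ℝ} (hlam' : 0 < lam') (f : C(ℤ → A, ℝ)) :
    res hc lam' f = res hc lam ((lam' / lam) • (f - res hc lam' f) + res hc lam' f) :=
  (res_eq hlam ((res_spec hc hlam' f).change hlam' hlam)).symm

end basic

lemma RR.comp {p' : ℤ → ℝ} {c' : ℤ × ℤ → ℝ} {hcA : Adm p c} {hcB : Adm p' c'} {lam : ℝ}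
    (φ : C(ℤ → A, ℤ → B)) (hcyl : ∀ h : (ℤ → B) → ℝ, Cyl h → Cyl (fun ζ => h (φ ζ)))
    (hgen : ∀ h : (ℤ → B) → ℝ, Cyl h → ∀ η, gen c (fun ζ => h (φ ζ)) η = gen c' h (φ η))
    {f g : C(ℤ → B, ℝ)} (h : RR hcB lam f g) : RR hcA lam (f.comp φ) (g.comp φ) := by
  have hcont : Continuous fun q : C(ℤ → B, ℝ) × C(ℤ → B, ℝ) => (q.1.comp φ, q.2.comp φ) :=
    ((ContinuousMap.continuous_precomp φ).comp continuous_fst).prodMk
      ((ContinuousMap.continuous_precomp φ).comp continuous_snd)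
  have hmaps : MapsTo (fun q : C(ℤ → B, ℝ) × C(ℤ → B, ℝ) => (q.1.comp φ, q.2.comp φ))
      ((Gr B hcB lam : Submodule ℝ (C(ℤ → B, ℝ) × C(ℤ → B, ℝ))) : Set _)
      ((Gr A hcA lam : Submodule ℝ (C(ℤ → A, ℝ) × C(ℤ → A, ℝ))) : Set _) := by
    rintro ⟨f, h⟩ ⟨h1, h2⟩
    refine ⟨hcyl _ h1, fun η => ?_⟩
    have h3 := h2 (φ η)
    have h4 := hgen _ h1 η
    simp only at h3
    have e : gen c ((h.comp φ : C(ℤ → A, ℝ)) : (ℤ → A) → ℝ) η = gen c (fun ζ => h (φ ζ)) η := rfl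
    simp only [ContinuousMap.comp_apply]
    rw [e, h4, h3]
  have h7 := map_mem_closure hcont h hmaps
  exact h7

lemma res_comp {p' : ℤ → ℝ} {c' : ℤ × ℤ → ℝ} (hcA : Adm p c) (hcB : Adm p' c') {lam : ℝ}
    (hlam : 0 < lam)
    (φ : C(ℤ → A, ℤ → B)) (hcyl : ∀ h : (ℤ → B) → ℝ, Cyl h → Cyl (fun ζ => h (φ ζ)))
    (hgen : ∀ h : (ℤ → B) → ℝ, Cyl h → ∀ η, gen c (fun ζ => h (φ ζ)) η = gen c' h (φ η))
    (f : C(ℤ → B, ℝ)) : res hcA lam (f.comp φ) = (res hcB lam f).comp φ :=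
  res_eq hlam (RR.comp φ hcyl hgen (res_spec hcB hlam f))

/-- comparison with a process where some bonds are switched off -/
lemma compare {c' cc : ℤ × ℤ → ℝ} (hc : Adm p c) (hc' : Adm p c') (hcc : ∀ b, 0 ≤ cc b)
    (hsplit : ∀ b, c b = c' b + cc b) {Λ : ℝ} (hΛ : HasSum cc Λ) {lam : ℝ} (hlam : 0 < lam)
    {f : C(ℤ → A, ℝ)} (hf : ∀ η, 0 ≤ f η) (E : Finset (ℤ × ℤ)) (η : ℤ → A) :
    lam / (lam + Λ) * res hc' (lam + Λ)
      (f + ∑ b ∈ E, (cc b / lam) • (res hc lam f).comp (mvC b)) η ≤ res hc lam f η := by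
  have hΛ0 : 0 ≤ Λ := hΛ.nonneg hcc
  have hpos : 0 < lam + Λ := by linarith
  set g := res hc lam f with hg
  refine le_of_forall_pos_le_add fun ε hε => ?_
  obtain ⟨h, hh, h1, h2⟩ := (res_spec hc hlam f).approx (half_pos hε)
  rw [← hg] at h2
  have g0 : ∀ ζ, 0 ≤ g ζ := fun ζ => res_ge hc hlam hf ζ
  -- the shifted function
  set hp : C(ℤ → A, ℝ) := h + ContinuousMap.const _ (ε / 2) with hhp
  have hpc : Cyl (hp : (ℤ → A) → ℝ) := hh.map1 (fun x => x + ε / 2)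
  have hpa : ∀ ζ, hp ζ = h ζ + ε / 2 := fun ζ => rfl
  have hpg : ∀ ζ, g ζ ≤ hp ζ := by
    intro ζ
    rw [hpa]
    linarith [(abs_le.1 (h2 ζ)).2]
  have hgen : ∀ ζ, gen c h ζ = gen c hp ζ := fun ζ => (gen_add_const c (ε / 2) h ζ).symm
  have key : ∀ ζ, lam / (lam + Λ) * (f + ∑ b ∈ E, (cc b / lam) • g.comp (mvC b)) ζ
      ≤ pre hc' (lam + Λ) hp hpc ζ := by
    intro ζ
    rw [pre_apply]
    have e1 : (f + ∑ b ∈ E, (cc b / lam) • g.comp (mvC b)) ζ
        = f ζ + (∑ b ∈ E, cc b * g (mv b ζ)) / lam := by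
      simp only [ContinuousMap.add_apply, ContinuousMap.sum_apply, ContinuousMap.smul_apply,
        smul_eq_mul, ContinuousMap.comp_apply, mvC_apply]
      rw [Finset.sum_div]
      congr 1
      refine Finset.sum_congr rfl fun b _ => by ring
    rw [e1]
    -- split the generator
    obtain ⟨D, hD⟩ := hpc.bdd
    have s1 : Summable fun b => cc b * hp (mv b ζ) := by
      refine Summable.of_norm_bounded (hΛ.summable.mul_right D) fun b => ?_
      rw [Real.norm_eq_abs, abs_mul, abs_of_nonneg (hcc b)]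
      exact mul_le_mul_of_nonneg_left (hD _) (hcc b)
    have s2 : Summable fun b => cc b * hp ζ := hΛ.summable.mul_right _
    have s3 := gen_summable hc' hpc ζ
    have e2 : gen c hp ζ = gen c' hp ζ + ((∑' b, cc b * hp (mv b ζ)) - Λ * hp ζ) := by
      have e3 : Λ * hp ζ = ∑' b, cc b * hp ζ := by rw [tsum_mul_right, hΛ.tsum_eq]
      rw [e3, ← s1.tsum_sub s2]
      unfold gen
      rw [← s3.tsum_add (s1.sub s2)]
      refine tsum_congr fun b => ?_
      rw [hsplit b]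
      ring
    have h5 : ∑ b ∈ E, cc b * g (mv b ζ) ≤ ∑' b, cc b * hp (mv b ζ) := by
      calc ∑ b ∈ E, cc b * g (mv b ζ) ≤ ∑ b ∈ E, cc b * hp (mv b ζ) :=
            Finset.sum_le_sum fun b _ => mul_le_mul_of_nonneg_left (hpg _) (hcc b)
        _ ≤ ∑' b, cc b * hp (mv b ζ) := s1.sum_le_tsum E fun b _ =>
            mul_nonneg (hcc b) ((g0 _).trans (hpg _))
    have h6 : lam * f ζ ≤ lam * hp ζ - gen c hp ζ := by
      have h7 := (abs_le.1 (h1 ζ)).2
      rw [hgen ζ] at h7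
      rw [hpa]
      have h8 : lam * f ζ ≤ lam * (h ζ - gen c hp ζ / lam + ε / 2) :=
        mul_le_mul_of_nonneg_left (by linarith) hlam.le
      have e4 : lam * (h ζ - gen c hp ζ / lam + ε / 2) = lam * (h ζ + ε / 2) - gen c hp ζ := by
        field_simp
        ring
      linarith
    have e5 : lam / (lam + Λ) * (f ζ + (∑ b ∈ E, cc b * g (mv b ζ)) / lam)
        = (lam * f ζ + ∑ b ∈ E, cc b * g (mv b ζ)) / (lam + Λ) := by
      field_simp
    have e6 : hp ζ - gen c' hp ζ / (lam + Λ) = ((lam + Λ) * hp ζ - gen c' hp ζ) / (lam + Λ) := by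
      field_simp
    rw [e5, e6]
    refine div_le_div_of_nonneg_right ?_ hpos.le
    linarith
  have h9 := res_mono hc' hpos (f := (lam / (lam + Λ)) • (f + ∑ b ∈ E, (cc b / lam) • g.comp (mvC b)))
    (g := pre hc' (lam + Λ) hp hpc) (fun ζ => by
      have := key ζ
      simpa only [ContinuousMap.smul_apply, smul_eq_mul] using this) η
  rw [res_smul hc' hpos, res_cyl hc' hpos hp hpc] at h9
  simp only [ContinuousMap.smul_apply, smul_eq_mul] at h9
  refine h9.trans ?_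
  rw [hpa]
  linarith [(abs_le.1 (h2 η)).1]

end Pool.Agent.Q298.Excl
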