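import Pool.Agent.Q298.Excl.Inv

/-!
# Concrete rates and maps
-/

open Set Filter Topology MeasureTheory Function

set_option linter.unusedSectionVars false

namespace Pool.Agent.Q298.Excl

variable {p : ℤ → ℝ}

/-- single configurations -/
abbrev Cf := ℤ → Bool

/-- pairs of configurations -/
abbrev Pf := ℤ → Bool × Bool

/-- the full rates -/
def rt (p : ℤ → ℝ) (b : ℤ × ℤ) : ℝ := p (b.2 - b.1)

lemma adm_rt (hp : Kern p) : Adm p (rt p) := ⟨hp, fun _ => hp.nonneg _, fun _ => le_rfl⟩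

/-- the rates avoiding the site `z` -/
noncomputable def rz (p : ℤ → ℝ) (z : ℤ) (b : ℤ × ℤ) : ℝ :=
  if b.1 = z ∨ b.2 = z then 0 else p (b.2 - b.1)

/-- the rates touching the site `z` -/
noncomputable def cz (p : ℤ → ℝ) (z : ℤ) (b : ℤ × ℤ) : ℝ :=
  if b.1 = z ∨ b.2 = z then p (b.2 - b.1) else 0

lemma adm_rz (hp : Kern p) (z : ℤ) : Adm p (rz p z) := by
  refine ⟨hp, fun b => ?_, fun b => ?_⟩
  · unfold rz; split_ifs
    · exact le_rfl
    · exact hp.nonneg _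
  · unfold rz; split_ifs
    · exact hp.nonneg _
    · exact le_rfl

lemma cz_nonneg (hp : Kern p) (z : ℤ) (b : ℤ × ℤ) : 0 ≤ cz p z b := by
  unfold cz; split_ifs
  · exact hp.nonneg _
  · exact le_rfl

lemma rz_add_cz (z : ℤ) (b : ℤ × ℤ) : rt p b = rz p z b + cz p z b := by
  unfold rt rz cz; split_ifs <;> simp

lemma cz_hasSum (hp : Kern p) (z : ℤ) : ∃ Λ, HasSum (cz p z) Λ ∧ 0 ≤ Λ ∧ Λ ≤ 2 * ∑' k, p k := by
  have h1 := hp.hasSum_tch {z}
  have h2 : ∀ b, cz p z b ≤ tch p {z} b := by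
    intro b
    unfold cz
    split_ifs with h
    · refine (adm_rt hp).le_tch ?_
      simpa using h
    · exact tch_nonneg hp _ _
  have h3 : Summable (cz p z) := Summable.of_nonneg_of_le (cz_nonneg hp z) h2 h1.summable
  refine ⟨_, h3.hasSum, tsum_nonneg (cz_nonneg hp z), ?_⟩
  have h4 := h3.tsum_le_tsum h2 h1.summable
  rw [h1.tsum_eq] at h4
  simpa using h4

/-- first marginal -/
def pr1 : C(Pf, Cf) := ⟨fun ω x => (ω x).1, by fun_prop⟩

/-- second marginal -/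
def pr2 : C(Pf, Cf) := ⟨fun ω x => (ω x).2, by fun_prop⟩

/-- shift -/
def sh : C(Cf, Cf) := ⟨fun η x => η (x - 1), by fun_prop⟩

/-- the pair (configuration, shifted configuration) -/
def io : C(Cf, Pf) := ⟨fun η x => (η x, η (x - 1)), by fun_prop⟩

/-- erase the particle at `z` -/
def rem (z : ℤ) : C(Cf, Cf) := ⟨fun η => update η z false, by fun_prop⟩

@[simp] lemma pr1_apply (ω : Pf) (x : ℤ) : pr1 ω x = (ω x).1 := rfl
@[simp] lemma pr2_apply (ω : Pf) (x : ℤ) : pr2 ω x = (ω x).2 := rfl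
@[simp] lemma sh_apply (η : Cf) (x : ℤ) : sh η x = η (x - 1) := rfl
@[simp] lemma io_apply (η : Cf) (x : ℤ) : io η x = (η x, η (x - 1)) := rfl
lemma rem_apply (z : ℤ) (η : Cf) : rem z η = update η z false := rfl

lemma pr1_io (η : Cf) : pr1 (io η) = η := rfl
lemma pr2_io (η : Cf) : pr2 (io η) = sh η := rfl

lemma pr1_mv (b : ℤ × ℤ) (ω : Pf) : mv b (pr1 ω) = pr1 (mv b ω) :=
  mv_comp Prod.fst (fun _ _ => rfl) (fun _ _ => rfl) b ω

lemma pr2_mv (b : ℤ × ℤ) (ω : Pf) : mv b (pr2 ω) = pr2 (mv b ω) :=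
  mv_comp Prod.snd (fun _ _ => rfl) (fun _ _ => rfl) b ω

lemma res_pr1 {c : ℤ × ℤ → ℝ} (hc : Adm p c) {lam : ℝ} (hlam : 0 < lam) (f : C(Cf, ℝ)) :
    res hc lam (f.comp pr1) = (res hc lam f).comp pr1 := by
  refine res_comp hc hc hlam pr1 ?_ ?_ f
  · rintro h ⟨S, hS⟩
    exact ⟨S, fun ω ω' e => hS _ _ fun x hx => by simp [e x hx]⟩
  · intro h _ ω
    unfold gen
    simp only [pr1_mv]

lemma res_pr2 {c : ℤ × ℤ → ℝ} (hc : Adm p c) {lam : ℝ} (hlam : 0 < lam) (f : C(Cf, ℝ)) :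
    res hc lam (f.comp pr2) = (res hc lam f).comp pr2 := by
  refine res_comp hc hc hlam pr2 ?_ ?_ f
  · rintro h ⟨S, hS⟩
    exact ⟨S, fun ω ω' e => hS _ _ fun x hx => by simp [e x hx]⟩
  · intro h _ ω
    unfold gen
    simp only [pr2_mv]

/-- the shift of arrows -/
def eqS : ℤ × ℤ ≃ ℤ × ℤ where
  toFun b := (b.1 + 1, b.2 + 1)
  invFun b := (b.1 - 1, b.2 - 1)
  left_inv b := by ext <;> simp
  right_inv b := by ext <;> simp

lemma res_sh (hp : Kern p) {lam : ℝ} (hlam : 0 < lam) (f : C(Cf, ℝ)) :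
    res (adm_rt hp) lam (f.comp sh) = (res (adm_rt hp) lam f).comp sh := by
  refine res_comp (adm_rt hp) (adm_rt hp) hlam sh ?_ ?_ f
  · rintro h ⟨S, hS⟩
    refine ⟨S.image (fun x => x - 1), fun ω ω' e => hS _ _ fun x hx => ?_⟩
    simp only [sh_apply]
    exact e _ (Finset.mem_image_of_mem _ hx)
  · intro h _ η
    unfold gen
    rw [← eqS.tsum_eq (fun b => rt p b * (h (mv b (sh η)) - h (sh η)))]
    refine tsum_congr fun b => ?_
    have h1 : rt p (eqS b) = rt p b := by simp [rt, eqS]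
    have h2 : mv (eqS b) (sh η) = sh (mv b η) := mv_shift b η
    rw [h1, h2]

lemma rem_mv (z : ℤ) (b : ℤ × ℤ) (h1 : b.1 ≠ z) (h2 : b.2 ≠ z) (η : Cf) :
    mv b (rem z η) = rem z (mv b η) := by
  funext w
  simp only [rem_apply]
  by_cases hw : w = z
  · subst hw
    rw [mv_of_ne _ _ (Ne.symm h1) (Ne.symm h2)]
    simp
  · rw [update_of_ne hw]
    unfold mv
    rw [update_of_ne h1, update_of_ne h2, update_of_ne hw]

lemma res_rem (hp : Kern p) (z : ℤ) {lam : ℝ} (hlam : 0 < lam) (f : C(Cf, ℝ)) :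
    res (adm_rz hp z) lam (f.comp (rem z)) = (res (adm_rz hp z) lam f).comp (rem z) := by
  refine res_comp (adm_rz hp z) (adm_rz hp z) hlam (rem z) ?_ ?_ f
  · rintro h ⟨S, hS⟩
    refine ⟨S, fun ω ω' e => hS _ _ fun x hx => ?_⟩
    simp only [rem_apply]
    by_cases hxz : x = z
    · subst hxz; simp
    · rw [update_of_ne hxz, update_of_ne hxz]; exact e x hx
  · intro h _ η
    unfold gen
    refine tsum_congr fun b => ?_
    by_cases hb : b.1 = z ∨ b.2 = z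
    · simp [rz, hb]
    · push Not at hb
      rw [rem_mv z b hb.1 hb.2]

/-- the frozen set -/
def Fz (z : ℤ) : Set Cf := {η | η z = true}

lemma isClosed_Fz (z : ℤ) : IsClosed (Fz z) :=
  isClosed_eq (continuous_apply z) continuous_const

lemma absb_Fz (z : ℤ) : Absb (rz p z) (Fz z) := by
  intro b hb η hη
  have hne : ¬ (b.1 = z ∨ b.2 = z) := by
    intro h; exact hb (by simp [rz, h])
  push Not at hne
  have : mv b η z = η z := mv_of_ne _ _ (Ne.symm hne.1) (Ne.symm hne.2)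
  simp only [Fz, Set.mem_ofPred_eq] at hη ⊢
  rw [this]; exact hη

/-- pairs with `ξ ≤ η` -/
def Oge : Set Pf := {ω | ∀ x, (ω x).2 ≤ (ω x).1}

/-- pairs with `η ≤ ξ` -/
def Ole : Set Pf := {ω | ∀ x, (ω x).1 ≤ (ω x).2}

lemma isClosed_cond (F : Bool × Bool → Prop) (x : ℤ) : IsClosed {ω : Pf | F (ω x)} := by
  have h : IsClosed {a : Bool × Bool | F a} := isClosed_discrete _
  exact h.preimage (continuous_apply x)

lemma isClosed_Oge : IsClosed Oge := by
  have h : Oge = ⋂ x, {ω : Pf | (ω x).2 ≤ (ω x).1} := by ext ω; simp [Oge]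
  rw [h]
  exact isClosed_iInter fun x => isClosed_cond (fun a => a.2 ≤ a.1) x

lemma isClosed_Ole : IsClosed Ole := by
  have h : Ole = ⋂ x, {ω : Pf | (ω x).1 ≤ (ω x).2} := by ext ω; simp [Ole]
  rw [h]
  exact isClosed_iInter fun x => isClosed_cond (fun a => a.1 ≤ a.2) x

lemma absb_Oge (c : ℤ × ℤ → ℝ) : Absb c Oge := by
  intro b _ ω hω x
  have h := mv_mono b (η := pr2 ω) (ξ := pr1 ω) hω x
  rw [pr1_mv, pr2_mv] at h
  exact h

lemma absb_Ole (c : ℤ × ℤ → ℝ) : Absb c Ole := by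
  intro b _ ω hω x
  have h := mv_mono b (η := pr1 ω) (ξ := pr2 ω) hω x
  rw [pr1_mv, pr2_mv] at h
  exact h

end Pool.Agent.Q298.Excl
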