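import Mathlib

/-!
# Exclusion moves on configurations over a lattice alphabet

`mv b η` is the configuration obtained from `η : ℤ → A` when the arrow `b = (x, y)` rings: the
contents of `x` and `y` are replaced by `η x ⊓ η y` and `η x ⊔ η y`. For `A = Bool` this is the
exclusion jump from `x` to `y`.
-/

open Set Filter Topology MeasureTheory Function

namespace Pool.Agent.Q298.Excl

variable {A B : Type*}

/-- The move along the arrow `b`. -/
def mv [Lattice A] (b : ℤ × ℤ) (η : ℤ → A) : ℤ → A :=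
  fun z => if z = b.2 then η b.1 ⊔ η b.2 else if z = b.1 then η b.1 ⊓ η b.2 else η z

lemma mv_snd [Lattice A] (b : ℤ × ℤ) (η : ℤ → A) : mv b η b.2 = η b.1 ⊔ η b.2 := by
  simp [mv]

lemma mv_fst [Lattice A] (b : ℤ × ℤ) (η : ℤ → A) : mv b η b.1 = η b.1 ⊓ η b.2 := by
  unfold mv
  by_cases h : b.1 = b.2
  · simp [h]
  · simp [h]

lemma mv_of_ne [Lattice A] (b : ℤ × ℤ) (η : ℤ → A) {z : ℤ} (h1 : z ≠ b.1) (h2 : z ≠ b.2) :
    mv b η z = η z := by
  simp [mv, h1, h2]

lemma mv_comp [Lattice A] [Lattice B] (f : A → B) (hs : ∀ a a', f (a ⊔ a') = f a ⊔ f a')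
    (hi : ∀ a a', f (a ⊓ a') = f a ⊓ f a') (b : ℤ × ℤ) (η : ℤ → A) :
    mv b (fun x => f (η x)) = fun x => f (mv b η x) := by
  funext z
  unfold mv
  split_ifs <;> simp [hs, hi]

lemma mv_mono [Lattice A] (b : ℤ × ℤ) {η ξ : ℤ → A} (h : ∀ x, η x ≤ ξ x) (z : ℤ) :
    mv b η z ≤ mv b ξ z := by
  unfold mv
  split_ifs
  · exact sup_le_sup (h _) (h _)
  · exact inf_le_inf (h _) (h _)
  · exact h _

lemma mv_shift [Lattice A] (b : ℤ × ℤ) (η : ℤ → A) :
    mv (b.1 + 1, b.2 + 1) (fun x => η (x - 1)) = fun x => mv b η (x - 1) := by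
  funext z
  unfold mv
  have e2 : (z = b.2 + 1) ↔ (z - 1 = b.2) := by constructor <;> intro h <;> omega
  have e1 : (z = b.1 + 1) ↔ (z - 1 = b.1) := by constructor <;> intro h <;> omega
  simp only [e1, e2, add_sub_cancel_right]

lemma mv_agree [Lattice A] (b : ℤ × ℤ) {η ξ : ℤ → A} {S : Set ℤ}
    (h1 : b.1 ∈ S) (h2 : b.2 ∈ S) (h : ∀ x ∈ S, η x = ξ x) : ∀ x ∈ S, mv b η x = mv b ξ x := by
  intro x hx
  unfold mv
  split_ifs
  · rw [h _ h1, h _ h2]
  · rw [h _ h1, h _ h2]
  · exact h _ hx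

lemma mv_agree_off [Lattice A] (b : ℤ × ℤ) (η : ℤ → A) {S : Set ℤ}
    (h1 : b.1 ∉ S) (h2 : b.2 ∉ S) : ∀ x ∈ S, mv b η x = η x := by
  intro x hx
  apply mv_of_ne
  · rintro rfl; exact h1 hx
  · rintro rfl; exact h2 hx

section top

variable [TopologicalSpace A] [DiscreteTopology A]

lemma continuous_mv [Lattice A] (b : ℤ × ℤ) : Continuous (mv b : (ℤ → A) → (ℤ → A)) := by
  refine continuous_pi fun z => ?_
  unfold mv
  have hc : ∀ (g : A → A → A), Continuous fun η : ℤ → A => g (η b.1) (η b.2) := by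
    intro g
    have h1 : Continuous fun q : A × A => g q.1 q.2 := continuous_of_discreteTopology
    have h2 : Continuous fun η : ℤ → A => (η b.1, η b.2) :=
      Continuous.prodMk (continuous_apply b.1) (continuous_apply b.2)
    exact h1.comp h2
  by_cases h2 : z = b.2
  · simp only [h2, if_true]
    exact hc (fun a a' => a ⊔ a')
  · by_cases h1 : z = b.1
    · simp only [h1] at h2
      simp only [h1, h2, if_true, if_false]
      exact hc (fun a a' => a ⊓ a')
    · simp only [h2, h1, if_false]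
      exact continuous_apply z

/-- the move as a continuous map -/
def mvC [Lattice A] (b : ℤ × ℤ) : C(ℤ → A, ℤ → A) := ⟨mv b, continuous_mv b⟩

@[simp] lemma mvC_apply [Lattice A] (b : ℤ × ℤ) (η : ℤ → A) : mvC b η = mv b η := rfl

end top

end Pool.Agent.Q298.Excl
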