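import Pool.Agent.Q298.Excl.Ord
import Pool.Agent.Q298.Excl.Irr

/-!
# Exactly one discrepancy
-/

open Set Filter Topology MeasureTheory Function

set_option linter.unusedSectionVars false

namespace Pool.Agent.Q298.Excl

variable {p : ℤ → ℝ} {hp : Kern p} {μ : Measure Cf} {ν : Measure Pf}

/-- the density -/
noncomputable def rho (μ : Measure Cf) (x : ℤ) : ℝ := ∫ η, ex x η ∂μ

lemma Cpl.int1 (hν : Cpl hp μ ν) (x : ℤ) : ∫ ω, ex x (pr1 ω) ∂ν = rho μ x := hν.m1 (ex x)

lemma Cpl.int2 (hν : Cpl hp μ ν) (x : ℤ) : ∫ ω, ex x (pr2 ω) ∂ν = rho μ (x - 1) := by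
  rw [hν.m2 (ex x)]
  rfl

lemma rho_small (hμ : Prof p μ) {κ : ℝ} (hκ : 0 < κ) : ∃ N : ℕ,
    (∀ y : ℤ, y ≤ -(N : ℤ) → rho μ y ≤ κ) ∧ ∀ y : ℤ, (N : ℤ) ≤ y → 1 - rho μ y ≤ κ := by
  have h1 : ∀ᶠ y in atBot, rho μ y < κ := hμ.left.eventually (gt_mem_nhds hκ)
  have h2 : ∀ᶠ y in atTop, 1 - κ < rho μ y := hμ.right.eventually (lt_mem_nhds (by linarith))
  obtain ⟨a, ha⟩ := eventually_atBot.1 h1
  obtain ⟨b, hb⟩ := eventually_atTop.1 h2
  refine ⟨a.natAbs + b.natAbs, fun y hy => ?_, fun y hy => ?_⟩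
  · exact (ha y (by omega)).le
  · have := hb y (by omega)
    linarith

lemma dcl1 (a : Bool × Bool) : dc a
    ≤ (if a.1 = true then (1 : ℝ) else 0) + (if a.2 = true then 1 else 0) := by
  rcases a with ⟨a, b⟩
  cases a <;> cases b <;> simp [dc]

lemma dcl2 (a : Bool × Bool) : dc a
    ≤ (1 - if a.1 = true then (1 : ℝ) else 0) + (1 - if a.2 = true then (1 : ℝ) else 0) := by
  rcases a with ⟨a, b⟩
  cases a <;> cases b <;> simp [dc]

lemma dc_le1 (ω : Pf) (y : ℤ) : dc (ω y) ≤ ex y (pr1 ω) + ex y (pr2 ω) := dcl1 (ω y)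

lemma dc_le2 (ω : Pf) (y : ℤ) : dc (ω y) ≤ (1 - ex y (pr1 ω)) + (1 - ex y (pr2 ω)) := dcl2 (ω y)

lemma Cpl.dc_small [IsProbabilityMeasure μ] (hμ : Prof p μ) (hν : Cpl hp μ ν) :
    ∀ κ : ℝ, 0 < κ → ∃ N : ℕ, ∀ y : ℤ, (N : ℤ) ≤ |y| → ∫ ω, dc (ω y) ∂ν ≤ κ := by
  have := hν.prob
  intro κ hκ
  obtain ⟨N, hN1, hN2⟩ := rho_small hμ (half_pos hκ)
  have j0 : ∀ y : ℤ, Integrable (fun ω : Pf => dc (ω y)) ν := fun y =>
    integrable_C ν ⟨_, continuous_val dc y⟩
  have j1 : ∀ y : ℤ, Integrable (fun ω : Pf => ex y (pr1 ω)) ν := fun y =>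
    integrable_C ν ((ex y).comp pr1)
  have j2 : ∀ y : ℤ, Integrable (fun ω : Pf => ex y (pr2 ω)) ν := fun y =>
    integrable_C ν ((ex y).comp pr2)
  refine ⟨N + 1, fun y hy => ?_⟩
  push_cast at hy
  rcases le_or_gt 0 y with h0 | h0
  · rw [abs_of_nonneg h0] at hy
    have h1 := integral_mono (j0 y) (((integrable_const (1 : ℝ)).sub (j1 y)).add
      ((integrable_const (1 : ℝ)).sub (j2 y))) (fun ω => dc_le2 ω y)
    have e : ∫ ω, (((fun _ : Pf => (1 : ℝ)) - fun ω : Pf => ex y (pr1 ω))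
        + ((fun _ : Pf => (1 : ℝ)) - fun ω : Pf => ex y (pr2 ω))) ω ∂ν
        = (1 - rho μ y) + (1 - rho μ (y - 1)) := by
      rw [integral_add' ((integrable_const (1 : ℝ)).sub (j1 y))
        ((integrable_const (1 : ℝ)).sub (j2 y)), integral_sub' (integrable_const _) (j1 y),
        integral_sub' (integrable_const _) (j2 y), hν.int1, hν.int2]
      simp
    rw [e] at h1
    have h2 := hN2 y (by omega)
    have h3 := hN2 (y - 1) (by omega)
    linarith
  · rw [abs_of_neg h0] at hy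
    have h1 := integral_mono (j0 y) ((j1 y).add (j2 y)) (fun ω => dc_le1 ω y)
    rw [integral_add' (j1 y) (j2 y), hν.int1, hν.int2] at h1
    have h2 := hN1 y (by omega)
    have h3 := hN1 (y - 1) (by omega)
    linarith

lemma op_set_null (hp : Kern p) (ν : Measure Pf) [IsProbabilityMeasure ν] (hν : Stat (rt p) ν)
    (hD : ∀ κ : ℝ, 0 < κ → ∃ N : ℕ, ∀ y : ℤ, (N : ℤ) ≤ |y| → ∫ ω, dc (ω y) ∂ν ≤ κ)
    (x y : ℤ) (hxy : 0 < p (y - x)) :
    ν (P2 x (true, false) y (false, true)) = 0 ∧ ν (P2 x (false, true) y (true, false)) = 0 := by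
  have h1 := opp_zero hp ν hν hD (x, y) hxy
  rw [integral_eq_zero_iff_of_nonneg (fun ω => op_nonneg _ _)
    (integrable_C ν ⟨_, continuous_val2 op x y⟩)] at h1
  have h2 : ν {ω | ¬ op (ω x) (ω y) = 0} = 0 := h1
  constructor
  · refine measure_mono_null ?_ h2
    rintro ω ⟨hx, hy⟩
    simp [hx, hy, op]
  · refine measure_mono_null ?_ h2
    rintro ω ⟨hx, hy⟩
    simp [hx, hy, op]

lemma hall1 (a : Bool × Bool) : a = (false, false) ∨ a = (true, true) ∨ a = (true, false) ∨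
    a = (false, true) := by
  rcases a with ⟨a, b⟩
  cases a <;> cases b <;> simp

lemma hall2 (a : Bool × Bool) : a = (false, false) ∨ a = (true, true) ∨ a = (false, true) ∨
    a = (true, false) := by
  rcases a with ⟨a, b⟩
  cases a <;> cases b <;> simp

lemma Cpl.opp_ae [IsProbabilityMeasure μ] (hμ : Prof p μ) (hν : Cpl hp μ ν)
    (hirr : Irred p) : ∀ᵐ ω ∂ν, ∀ x y : ℤ, x ≠ y → op (ω x) (ω y) = 0 := by
  have := hν.prob
  rw [ae_all_iff]
  intro x
  rw [ae_all_iff]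
  intro y
  by_cases hxy : x = y
  · exact Eventually.of_forall fun ω h => absurd hxy h
  obtain ⟨n, hn⟩ := hirr.path x y
  have hn1 : 1 ≤ n := by
    rcases Nat.eq_zero_or_pos n with h | h
    · subst h
      exact absurd hn hxy
    · exact h
  have hD := hν.dc_small hμ
  have h1 : ν (P2 x (true, false) y (false, true)) = 0 :=
    P_null hp ν hν.stat (true, false) (false, true) (by simp) hall1 (by simp) (by simp) (by simp)
      (by simp) (fun x y h => (op_set_null hp ν hν.stat hD x y h).1) n hn1 x y hn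
  have h2 : ν (P2 x (false, true) y (true, false)) = 0 :=
    P_null hp ν hν.stat (false, true) (true, false) (by simp) hall2 (by simp) (by simp) (by simp)
      (by simp) (fun x y h => (op_set_null hp ν hν.stat hD x y h).2) n hn1 x y hn
  have h3 : ∀ᵐ ω ∂ν, ω ∉ P2 x (true, false) y (false, true) := measure_eq_zero_iff_ae_notMem.1 h1
  have h4 : ∀ᵐ ω ∂ν, ω ∉ P2 x (false, true) y (true, false) := measure_eq_zero_iff_ae_notMem.1 h2
  filter_upwards [h3, h4] with ω k3 k4 _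
  unfold op
  rw [if_neg]
  rintro (⟨hx, hy⟩ | ⟨hx, hy⟩)
  · exact k3 ⟨hx, hy⟩
  · exact k4 ⟨hx, hy⟩

lemma not_le_iff1 (a : Bool × Bool) (h : ¬ a.1 ≤ a.2) : a = (true, false) := by
  rcases a with ⟨a, b⟩
  revert h
  cases a <;> cases b <;> simp

lemma not_le_iff2 (a : Bool × Bool) (h : ¬ a.2 ≤ a.1) : a = (false, true) := by
  rcases a with ⟨a, b⟩
  revert h
  cases a <;> cases b <;> simp

lemma Cpl.oge_ae [IsProbabilityMeasure μ] (hμ : Prof p μ) (hν : Cpl hp μ ν)
    (hirr : Irred p) : ∀ᵐ ω ∂ν, ω ∈ Oge := by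
  have h1 := hν.opp_ae hμ hirr
  have h2 : ∀ᵐ ω ∂ν, ω ∉ Ole := by
    rw [ae_iff]
    simpa using hν.Ole_null hμ
  filter_upwards [h1, h2] with ω hω1 hω2
  by_contra h3
  simp only [Ole, Oge, Set.mem_ofPred_eq, not_forall] at hω2 h3
  obtain ⟨x, hx⟩ := hω2
  obtain ⟨y, hy⟩ := h3
  have ex1 := not_le_iff1 _ hx
  have ey1 := not_le_iff2 _ hy
  have hxy : x ≠ y := by
    rintro rfl
    rw [ex1] at ey1
    simp at ey1
  have := hω1 x y hxy
  rw [ex1, ey1] at this
  simp [op] at this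

/-- discrepancy of type `(1, 0)` -/
def dd (a : Bool × Bool) : ℝ := if a = (true, false) then 1 else 0

lemma dd_01 (a : Bool × Bool) : dd a = 0 ∨ dd a = 1 := by unfold dd; split_ifs <;> simp

lemma dd_nonneg (a : Bool × Bool) : 0 ≤ dd a := by unfold dd; split_ifs <;> norm_num
lemma dd_le (a : Bool × Bool) : dd a ≤ 1 := by unfold dd; split_ifs <;> norm_num

lemma dd_val (a : Bool × Bool) (h : a.2 ≤ a.1) : dd a
    = (if a.1 = true then (1 : ℝ) else 0) - (if a.2 = true then 1 else 0) := by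
  rcases a with ⟨a, b⟩
  revert h
  cases a <;> cases b <;> simp [dd]

lemma dd_eq {ω : Pf} (hω : ω ∈ Oge) (x : ℤ) : dd (ω x) = ex x (pr1 ω) - ex x (pr2 ω) :=
  dd_val (ω x) (hω x)

lemma Cpl.int_dd [IsProbabilityMeasure μ] (hμ : Prof p μ) (hν : Cpl hp μ ν)
    (hirr : Irred p) (x : ℤ) : ∫ ω, dd (ω x) ∂ν = rho μ x - rho μ (x - 1) := by
  have := hν.prob
  have h1 : ∫ ω, dd (ω x) ∂ν = ∫ ω, (ex x (pr1 ω) - ex x (pr2 ω)) ∂ν := by
    refine integral_congr_ae ?_
    filter_upwards [hν.oge_ae hμ hirr] with ω hω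
    exact dd_eq hω x
  have j1 : Integrable (fun ω : Pf => ex x (pr1 ω)) ν := integrable_C ν ((ex x).comp pr1)
  have j2 : Integrable (fun ω : Pf => ex x (pr2 ω)) ν := integrable_C ν ((ex x).comp pr2)
  rw [h1, integral_sub j1 j2, hν.int1, hν.int2]

lemma Bx_succ (n : ℕ) (f : ℤ → ℝ) :
    ∑ x ∈ Bx (n + 1), f x = ∑ x ∈ Bx n, f x + f (n + 1) + f (-(n + 1)) := by
  have h : Bx (n + 1) = insert ((n : ℤ) + 1) (insert (-((n : ℤ) + 1)) (Bx n)) := by
    ext z
    simp only [Finset.mem_insert, mem_Bx]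
    push_cast
    omega
  rw [h, Finset.sum_insert, Finset.sum_insert]
  · ring
  · rw [mem_Bx]; omega
  · simp only [Finset.mem_insert, mem_Bx]; omega

lemma sum_tele (r : ℤ → ℝ) (n : ℕ) : ∑ x ∈ Bx n, (r x - r (x - 1)) = r n - r (-(n : ℤ) - 1) := by
  induction n with
  | zero =>
    have : Bx 0 = {0} := by
      ext z; simp only [mem_Bx, Finset.mem_singleton]; push_cast; omega
    rw [this, Finset.sum_singleton]
    simp
  | succ n ih =>
    rw [Bx_succ, ih]
    push_cast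
    have e1 : (n : ℤ) + 1 - 1 = n := by ring
    have e2 : -((n : ℤ) + 1) = -(n : ℤ) - 1 := by ring
    rw [e1, e2]
    ring


lemma dd_eq_zero_iff (a : Bool × Bool) : dd a = 0 ↔ a.1 ≤ a.2 := by
  rcases a with ⟨a, b⟩
  cases a <;> cases b <;> simp [dd]

/-- at most one discrepancy -/
lemma Cpl.two_null [IsProbabilityMeasure μ] (hμ : Prof p μ) (hν : Cpl hp μ ν)
    (hirr : Irred p) (x y : ℤ) (hxy : x ≠ y) :
    ∫ ω, dd (ω x) * dd (ω y) ∂ν = 0 := by
  have := hν.prob
  set Z : ℕ → Set Pf := fun n => {ω | ∀ z ∈ Bx n, (ω z).1 ≤ (ω z).2} with hZ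
  have hZc : ∀ n, IsClosed (Z n) := by
    intro n
    have h : Z n = ⋂ z ∈ Bx n, {ω : Pf | (ω z).1 ≤ (ω z).2} := by ext ω; simp [hZ]
    rw [h]
    exact isClosed_biInter fun z _ => isClosed_cond (fun a => a.1 ≤ a.2) z
  have hZlim : Tendsto (fun n => ν (Z n)) atTop (𝓝 0) := by
    have h1 : ⋂ n, Z n = Ole := by
      ext ω
      simp only [hZ, mem_iInter, Ole, Set.mem_ofPred_eq]
      constructor
      · intro h z
        refine h z.natAbs z ?_
        rw [mem_Bx]; omega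
      · intro h n z _
        exact h z
    have h2 : Antitone Z := by
      intro m n hmn ω hω z hz
      refine hω z ?_
      rw [mem_Bx] at hz ⊢
      omega
    have h3 := tendsto_measure_iInter_atTop (μ := ν) (s := Z)
      (fun n => (hZc n).measurableSet.nullMeasurableSet) h2 ⟨0, measure_ne_top _ _⟩
    rw [h1, hν.Ole_null hμ] at h3
    exact h3
  have hZr : Tendsto (fun n => ν.real (Z n)) atTop (𝓝 0) := by
    have h := (ENNReal.tendsto_toReal ENNReal.zero_ne_top).comp hZlim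
    rw [ENNReal.toReal_zero] at h
    exact h
  refine le_antisymm ?_ (integral_nonneg fun ω => mul_nonneg (dd_nonneg _) (dd_nonneg _))
  have key : ∀ n, x ∈ Bx n → y ∈ Bx n → ∫ ω, dd (ω x) * dd (ω y) ∂ν ≤ ν.real (Z n) := by
    intro n hx hy
    have jd : ∀ z : ℤ, Integrable (fun ω : Pf => dd (ω z)) ν := fun z =>
      integrable_C ν ⟨_, continuous_val dd z⟩
    have jdd : Integrable (fun ω : Pf => dd (ω x) * dd (ω y)) ν :=
      integrable_C ν ⟨_, continuous_val2 (fun a b => dd a * dd b) x y⟩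
    have jN : Integrable (fun ω : Pf => ∑ z ∈ Bx n, dd (ω z)) ν :=
      integrable_finsetSum _ fun z _ => jd z
    have jZ : Integrable ((Z n).indicator fun _ : Pf => (1 : ℝ)) ν :=
      (integrable_const _).indicator (hZc n).measurableSet
    have hpt : ∀ ω : Pf, dd (ω x) * dd (ω y)
        ≤ (∑ z ∈ Bx n, dd (ω z) - 1) + (Z n).indicator (fun _ => (1 : ℝ)) ω := by
      intro ω
      by_cases hω : ω ∈ Z n
      · have h0 : dd (ω x) = 0 := (dd_eq_zero_iff _).2 (hω x hx)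
        have h1 : 0 ≤ ∑ z ∈ Bx n, dd (ω z) := Finset.sum_nonneg fun z _ => dd_nonneg _
        rw [indicator_of_mem hω, h0]
        linarith
      · rw [indicator_of_notMem hω]
        have hω' : ∃ z ∈ Bx n, ¬ (ω z).1 ≤ (ω z).2 := by
          simpa [hZ] using hω
        obtain ⟨z, hz, hz2⟩ := hω'
        have h2 : dd (ω z) = 1 := by rw [not_le_iff1 _ hz2]; simp [dd]
        have h3 : dd (ω z) ≤ ∑ z ∈ Bx n, dd (ω z) :=
          Finset.single_le_sum (fun w _ => dd_nonneg _) hz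
        have h4 : dd (ω x) + dd (ω y) ≤ ∑ z ∈ Bx n, dd (ω z) := by
          rw [← Finset.sum_pair (f := fun w => dd (ω w)) hxy]
          refine Finset.sum_le_sum_of_subset_of_nonneg ?_ fun w _ _ => dd_nonneg _
          intro w hw
          simp only [Finset.mem_insert, Finset.mem_singleton] at hw
          rcases hw with rfl | rfl <;> assumption
        rcases dd_01 (ω x) with h5 | h5 <;> rcases dd_01 (ω y) with h6 | h6 <;>
          rw [h5, h6] <;> linarith
    have h9 := integral_mono jdd ((jN.sub (integrable_const (1 : ℝ))).add jZ) hpt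
    have e : ∫ ω, (((fun ω : Pf => ∑ z ∈ Bx n, dd (ω z)) - fun _ : Pf => (1 : ℝ))
        + (Z n).indicator fun _ : Pf => (1 : ℝ)) ω ∂ν
        = (rho μ n - rho μ (-(n : ℤ) - 1)) - 1 + ν.real (Z n) := by
      rw [integral_add' (jN.sub (integrable_const (1 : ℝ))) jZ,
        integral_sub' jN (integrable_const (1 : ℝ)), integral_finsetSum _ (fun z _ => jd z),
        integral_indicator_const _ (hZc n).measurableSet]
      rw [Finset.sum_congr rfl (fun z _ => hν.int_dd hμ hirr z), sum_tele]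
      simp
    rw [e] at h9
    have h10 : rho μ n ≤ 1 := by
      have h11 := integral_mono (integrable_C μ (ex n)) (integrable_const (1 : ℝ))
        (fun η => ex_le n η)
      simp only [integral_const, probReal_univ, smul_eq_mul, mul_one] at h11
      exact h11
    have h12 : 0 ≤ rho μ (-(n : ℤ) - 1) := integral_nonneg fun η => ex_nonneg _ η
    linarith
  refine ge_of_tendsto hZr ?_
  filter_upwards [eventually_ge_atTop (x.natAbs + y.natAbs)] with n hn
  refine key n ?_ ?_ <;> rw [mem_Bx] <;> omega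

lemma Cpl.exists_z [IsProbabilityMeasure μ] (hμ : Prof p μ) (hν : Cpl hp μ ν)
    (hirr : Irred p) : ∃ z : ℤ, 0 < ∫ ω, dd (ω z) ∂ν := by
  by_contra hcon
  push Not at hcon
  obtain ⟨N, hN1, hN2⟩ := rho_small hμ (κ := 1 / 4) (by norm_num)
  have h1 := sum_tele (rho μ) (N + 1)
  have h2 : ∑ x ∈ Bx (N + 1), (rho μ x - rho μ (x - 1)) ≤ 0 := by
    refine Finset.sum_nonpos fun x _ => ?_
    rw [← hν.int_dd hμ hirr x]
    exact hcon x
  have h3 := hN2 ((N + 1 : ℕ) : ℤ) (by push_cast; omega)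
  have h4 := hN1 (-((N + 1 : ℕ) : ℤ) - 1) (by push_cast; omega)
  linarith

end Pool.Agent.Q298.Excl
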