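import Pool.Agent.Q298.Excl.Cpl

/-!
# No opposite discrepancies
-/

open Set Filter Topology MeasureTheory Function

set_option linter.unusedSectionVars false

namespace Pool.Agent.Q298.Excl

section gen

variable {A : Type*} [TopologicalSpace A] [DiscreteTopology A] [Lattice A] [Finite A]
  [MeasurableSpace (ℤ → A)] [BorelSpace (ℤ → A)]
variable {p : ℤ → ℝ} {c : ℤ × ℤ → ℝ}

lemma int_gen (hc : Adm p c) {f : (ℤ → A) → ℝ} (hf : Cyl f) (μ : Measure (ℤ → A))
    [IsFiniteMeasure μ] :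
    HasSum (fun b => c b * ∫ η, (f (mv b η) - f η) ∂μ) (∫ η, gen c f η ∂μ) := by
  obtain ⟨D, hD⟩ := hf.bdd
  have hcont := hf.continuous
  obtain ⟨S, hS⟩ := id hf
  have hint : ∀ b, Integrable (fun η => c b * (f (mv b η) - f η)) μ := fun b =>
    integrable_C μ ⟨fun η => c b * (f (mv b η) - f η),
      continuous_const.mul ((hcont.comp (continuous_mv b)).sub hcont)⟩
  have hb : ∀ b, ∫ η, ‖c b * (f (mv b η) - f η)‖ ∂μ ≤ tch p S b * (2 * D) * μ.real univ := by
    intro b
    have h1 := norm_integral_le_of_norm_le_const (μ := μ) (C := tch p S b * (2 * D))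
      (f := fun η => ‖c b * (f (mv b η) - f η)‖)
      (Eventually.of_forall fun η => by rw [norm_norm]; exact term_bound hc hS hD b η)
    exact (le_abs_self _).trans h1
  have hsum : Summable fun b => ∫ η, ‖c b * (f (mv b η) - f η)‖ ∂μ := by
    refine Summable.of_nonneg_of_le (fun b => integral_nonneg fun η => norm_nonneg _) hb ?_
    exact ((hc.kern.hasSum_tch S).summable.mul_right _).mul_right _
  have h := hasSum_integral_of_summable_integral_norm hint hsum
  have e : (fun b => ∫ η, c b * (f (mv b η) - f η) ∂μ)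
      = fun b => c b * ∫ η, (f (mv b η) - f η) ∂μ := by
    funext b
    exact integral_const_mul _ _
  rw [e] at h
  exact h

/-- effect of a move on an additive functional -/
lemma sum_mv (S : Finset ℤ) (w : ℤ → ℝ) (F : A → ℝ) (b : ℤ × ℤ) (ω : ℤ → A) :
    ∑ z ∈ S, w z * F (mv b ω z) - ∑ z ∈ S, w z * F (ω z)
      = (if b.1 ∈ S then w b.1 * (F (ω b.1 ⊓ ω b.2) - F (ω b.1)) else 0)
        + (if b.2 ∈ S then w b.2 * (F (ω b.1 ⊔ ω b.2) - F (ω b.2)) else 0) := by
  rw [← Finset.sum_sub_distrib]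
  have h : ∀ z ∈ S, w z * F (mv b ω z) - w z * F (ω z)
      = (if z = b.1 then w b.1 * (F (ω b.1 ⊓ ω b.2) - F (ω b.1)) else 0)
        + (if z = b.2 then w b.2 * (F (ω b.1 ⊔ ω b.2) - F (ω b.2)) else 0) := by
    intro z _
    by_cases h2 : z = b.2
    · subst h2
      by_cases h1 : b.2 = b.1
      · simp [h1, mv]
      · simp [h1, mv_snd]; ring
    · by_cases h1 : z = b.1
      · subst h1
        simp [h2, mv_fst]; ring
      · simp [h1, h2, mv_of_ne]
  rw [Finset.sum_congr rfl h, Finset.sum_add_distrib, Finset.sum_ite_eq', Finset.sum_ite_eq']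

end gen


variable {p : ℤ → ℝ}

/-- first absolute moment -/
noncomputable def MM (p : ℤ → ℝ) : ℝ := ∑' k : ℤ, |(k : ℝ)| * p k

lemma MM_nonneg (hp : Kern p) : 0 ≤ MM p :=
  tsum_nonneg fun k => mul_nonneg (abs_nonneg _) (hp.nonneg k)

lemma card_out (n : ℕ) (k : ℤ) :
    (((Bx n).filter fun x => x + k ∉ Bx n).card : ℝ) ≤ |(k : ℝ)| := by
  have h1 : ((Bx n).filter fun x => x + k ∉ Bx n).card ≤ k.natAbs := by
    rcases le_or_gt 0 k with hk | hk
    · have h2 : ((Bx n).filter fun x => x + k ∉ Bx n) ⊆ Finset.Ioc ((n : ℤ) - k) n := by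
        intro x hx
        rw [Finset.mem_filter, mem_Bx, mem_Bx] at hx
        rw [Finset.mem_Ioc]
        omega
      have h3 := Finset.card_le_card h2
      rw [Int.card_Ioc] at h3
      omega
    · have h2 : ((Bx n).filter fun x => x + k ∉ Bx n) ⊆ Finset.Ico (-(n : ℤ)) (-(n : ℤ) - k) := by
        intro x hx
        rw [Finset.mem_filter, mem_Bx, mem_Bx] at hx
        rw [Finset.mem_Ico]
        omega
      have h3 := Finset.card_le_card h2
      rw [Int.card_Ico] at h3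
      omega
  have h2 : ((k.natAbs : ℕ) : ℝ) = |(k : ℝ)| := by
    rw [Nat.cast_natAbs]; simp
  rw [← h2]
  exact_mod_cast h1

lemma sum_box (hp : Kern p) (n : ℕ) (σ : ℤ → ℤ) (hσ : ∀ k, |((σ k : ℤ) : ℝ)| = |(k : ℝ)|)
    (hs : Summable fun q : ℤ × ℤ => if q.2 ∈ Bx n ∧ q.2 + σ q.1 ∉ Bx n then p q.1 else 0) :
    ∑' q : ℤ × ℤ, (if q.2 ∈ Bx n ∧ q.2 + σ q.1 ∉ Bx n then p q.1 else 0) ≤ MM p := by
  rw [hs.tsum_prod]
  have h1 : ∀ k : ℤ, ∑' x : ℤ, (if x ∈ Bx n ∧ x + σ k ∉ Bx n then p k else 0)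
      ≤ |(k : ℝ)| * p k := by
    intro k
    rw [tsum_eq_sum (s := (Bx n).filter fun x => x + σ k ∉ Bx n) (fun x hx => by
      rw [Finset.mem_filter] at hx
      simp [hx])]
    rw [Finset.sum_congr rfl (g := fun _ => p k) (fun x hx => by
      rw [Finset.mem_filter] at hx
      simp [hx])]
    rw [Finset.sum_const, nsmul_eq_mul]
    refine mul_le_mul_of_nonneg_right ?_ (hp.nonneg k)
    rw [← hσ k]
    exact card_out n (σ k)
  refine Summable.tsum_le_tsum h1 ?_ hp.mom
  exact Summable.of_nonneg_of_le (fun k => tsum_nonneg fun x => by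
    split_ifs
    · exact hp.nonneg k
    · exact le_rfl) h1 hp.mom

/-- `(k, x) ↦ (x, x + k)` -/
def eqL' : ℤ × ℤ ≃ ℤ × ℤ where
  toFun q := (q.2, q.2 + q.1)
  invFun b := (b.2 - b.1, b.1)
  left_inv q := by ext <;> simp
  right_inv b := by ext <;> simp

/-- `(k, x) ↦ (x - k, x)` -/
def eqR' : ℤ × ℤ ≃ ℤ × ℤ where
  toFun q := (q.2 + -q.1, q.2)
  invFun b := (b.2 - b.1, b.2)
  left_inv q := by ext <;> simp
  right_inv b := by ext <;> simp

lemma bdry_out (hp : Kern p) (n : ℕ) : ∃ s, HasSum (fun b : ℤ × ℤ =>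
    if b.1 ∈ Bx n ∧ b.2 ∉ Bx n then p (b.2 - b.1) else 0) s ∧ s ≤ MM p := by
  have hs : Summable fun b : ℤ × ℤ => if b.1 ∈ Bx n ∧ b.2 ∉ Bx n then p (b.2 - b.1) else 0 := by
    refine Summable.of_nonneg_of_le (fun b => ?_) (fun b => ?_) (hp.hasSum_tch (Bx n)).summable
    · split_ifs
      · exact hp.nonneg _
      · exact le_rfl
    · split_ifs with h
      · exact (adm_rt hp).le_tch (Or.inl h.1)
      · exact tch_nonneg hp _ _
  refine ⟨_, hs.hasSum, ?_⟩
  rw [← eqL'.summable_iff] at hs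
  rw [← eqL'.tsum_eq]
  have e : (fun b : ℤ × ℤ => if b.1 ∈ Bx n ∧ b.2 ∉ Bx n then p (b.2 - b.1) else 0) ∘ eqL'
      = fun q : ℤ × ℤ => if q.2 ∈ Bx n ∧ q.2 + q.1 ∉ Bx n then p q.1 else 0 := by
    funext q; simp [eqL']
  rw [e] at hs
  have h := sum_box hp n (fun k => k) (fun _ => rfl) hs
  refine le_trans (le_of_eq (tsum_congr fun q => ?_)) h
  exact congrFun e q

lemma bdry_in (hp : Kern p) (n : ℕ) : ∃ s, HasSum (fun b : ℤ × ℤ =>
    if b.2 ∈ Bx n ∧ b.1 ∉ Bx n then p (b.2 - b.1) else 0) s ∧ s ≤ MM p := by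
  have hs : Summable fun b : ℤ × ℤ => if b.2 ∈ Bx n ∧ b.1 ∉ Bx n then p (b.2 - b.1) else 0 := by
    refine Summable.of_nonneg_of_le (fun b => ?_) (fun b => ?_) (hp.hasSum_tch (Bx n)).summable
    · split_ifs
      · exact hp.nonneg _
      · exact le_rfl
    · split_ifs with h
      · exact (adm_rt hp).le_tch (Or.inr h.1)
      · exact tch_nonneg hp _ _
  refine ⟨_, hs.hasSum, ?_⟩
  rw [← eqR'.summable_iff] at hs
  rw [← eqR'.tsum_eq]
  have e : (fun b : ℤ × ℤ => if b.2 ∈ Bx n ∧ b.1 ∉ Bx n then p (b.2 - b.1) else 0) ∘ eqR'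
      = fun q : ℤ × ℤ => if q.2 ∈ Bx n ∧ q.2 + -q.1 ∉ Bx n then p q.1 else 0 := by
    funext q
    have : q.2 - (q.2 + -q.1) = q.1 := by ring
    simp [eqR', this]
  rw [e] at hs
  have h := sum_box hp n (fun k => -k) (fun k => by push_cast; exact abs_neg _) hs
  refine le_trans (le_of_eq (tsum_congr fun q => ?_)) h
  exact congrFun e q

/-- discrepancy indicator -/
def dc (a : Bool × Bool) : ℝ := if a.1 = a.2 then 0 else 1

/-- opposite discrepancies -/
def op (a a' : Bool × Bool) : ℝ :=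
  if (a = (true, false) ∧ a' = (false, true)) ∨ (a = (false, true) ∧ a' = (true, false))
  then 1 else 0

lemma dc_move (a a' : Bool × Bool) : dc (a ⊓ a') + dc (a ⊔ a') = dc a + dc a' - 2 * op a a' := by
  rcases a with ⟨a1, a2⟩
  rcases a' with ⟨b1, b2⟩
  cases a1 <;> cases a2 <;> cases b1 <;> cases b2 <;> simp [dc, op] <;> norm_num

lemma dc_inf (a a' : Bool × Bool) : dc (a ⊓ a') ≤ dc a + dc a' := by
  rcases a with ⟨a1, a2⟩
  rcases a' with ⟨b1, b2⟩
  cases a1 <;> cases a2 <;> cases b1 <;> cases b2 <;> simp [dc]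

lemma dc_sup (a a' : Bool × Bool) : dc (a ⊔ a') ≤ dc a + dc a' := by
  rcases a with ⟨a1, a2⟩
  rcases a' with ⟨b1, b2⟩
  cases a1 <;> cases a2 <;> cases b1 <;> cases b2 <;> simp [dc]

lemma dc_nonneg (a : Bool × Bool) : 0 ≤ dc a := by unfold dc; split_ifs <;> norm_num

lemma dc_le (a : Bool × Bool) : dc a ≤ 1 := by unfold dc; split_ifs <;> norm_num

lemma op_nonneg (a a' : Bool × Bool) : 0 ≤ op a a' := by unfold op; split_ifs <;> norm_num


lemma continuous_val (F : Bool × Bool → ℝ) (x : ℤ) : Continuous fun ω : Pf => F (ω x) :=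
  (continuous_of_discreteTopology (f := F)).comp (continuous_apply x)

lemma continuous_val2 (F : Bool × Bool → Bool × Bool → ℝ) (x y : ℤ) :
    Continuous fun ω : Pf => F (ω x) (ω y) := by
  have h1 : Continuous fun q : (Bool × Bool) × (Bool × Bool) => F q.1 q.2 :=
    continuous_of_discreteTopology
  have h2 : Continuous fun ω : Pf => (ω x, ω y) :=
    Continuous.prodMk (continuous_apply x) (continuous_apply y)
  exact h1.comp h2

lemma opp_zero (hp : Kern p) (ν : Measure Pf) [IsProbabilityMeasure ν] (hν : Stat (rt p) ν)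
    (hD : ∀ κ : ℝ, 0 < κ → ∃ N : ℕ, ∀ y : ℤ, (N : ℤ) ≤ |y| → ∫ ω, dc (ω y) ∂ν ≤ κ)
    (b0 : ℤ × ℤ) (hc : 0 < rt p b0) : ∫ ω, op (ω b0.1) (ω b0.2) ∂ν = 0 := by
  have hP0 : 0 ≤ ∫ ω, op (ω b0.1) (ω b0.2) ∂ν := integral_nonneg fun ω => op_nonneg _ _
  set P := ∫ ω, op (ω b0.1) (ω b0.2) ∂ν with hP
  have hid : ∀ x : ℤ, Integrable (fun ω : Pf => dc (ω x)) ν := fun x =>
    integrable_C ν ⟨_, continuous_val dc x⟩
  have hio : Integrable (fun ω : Pf => op (ω b0.1) (ω b0.2)) ν :=
    integrable_C ν ⟨_, continuous_val2 op b0.1 b0.2⟩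
  have key : ∀ κ : ℝ, 0 < κ → 2 * rt p b0 * P ≤ κ * (2 * MM p) := by
    intro κ hκ
    obtain ⟨N, hN⟩ := hD κ hκ
    set n : ℕ := N + b0.1.natAbs + b0.2.natAbs with hn
    have hb1 : b0.1 ∈ Bx n := by rw [mem_Bx]; omega
    have hb2 : b0.2 ∈ Bx n := by rw [mem_Bx]; omega
    have hout : ∀ y, y ∉ Bx n → ∫ ω, dc (ω y) ∂ν ≤ κ := by
      intro y hy
      refine hN y ?_
      rw [mem_Bx] at hy
      rcases abs_cases y with ⟨h1, _⟩ | ⟨h1, _⟩ <;> rw [h1] <;> omega
    set h : Pf → ℝ := fun ω => ∑ z ∈ Bx n, (1 : ℝ) * dc (ω z) with hh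
    have hcyl : Cyl h := ⟨Bx n, fun ω ω' e => by
      simp only [hh]
      exact Finset.sum_congr rfl fun z hz => by rw [e z hz]⟩
    have hsum := int_gen (adm_rt hp) hcyl ν
    rw [hν h hcyl] at hsum
    obtain ⟨s1, hs1, hs1'⟩ := bdry_out hp n
    obtain ⟨s2, hs2, hs2'⟩ := bdry_in hp n
    have hpt : ∀ (b : ℤ × ℤ) (ω : Pf), h (mv b ω) - h ω
        ≤ (if b.1 ∈ Bx n ∧ b.2 ∉ Bx n then dc (ω b.2) else 0)
          + (if b.2 ∈ Bx n ∧ b.1 ∉ Bx n then dc (ω b.1) else 0)
          - (if b = b0 then 2 * op (ω b0.1) (ω b0.2) else 0) := by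
      intro b ω
      simp only [hh]
      rw [sum_mv (Bx n) (fun _ => 1) dc b ω]
      have m1 := dc_move (ω b.1) (ω b.2)
      have m2 := dc_inf (ω b.1) (ω b.2)
      have m3 := dc_sup (ω b.1) (ω b.2)
      have m4 := op_nonneg (ω b.1) (ω b.2)
      by_cases h1 : b.1 ∈ Bx n
      · by_cases h2 : b.2 ∈ Bx n
        · by_cases h3 : b = b0
          · subst h3
            simp only [h1, h2, not_true_eq_false, and_false, if_false, if_true]
            linarith
          · simp only [h1, h2, h3, not_true_eq_false, and_false, if_false, if_true]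
            linarith
        · have h3 : b ≠ b0 := by rintro rfl; exact h2 hb2
          simp only [h1, h2, h3, not_false_eq_true, and_self, if_true, if_false, false_and]
          linarith
      · have h3 : b ≠ b0 := by rintro rfl; exact h1 hb1
        by_cases h2 : b.2 ∈ Bx n
        · simp only [h1, h2, h3, not_false_eq_true, and_self, if_true, if_false, false_and]
          linarith
        · simp only [h1, h2, h3, if_false, false_and]
          linarith
    have hψ : ∀ b : ℤ × ℤ, rt p b * ∫ ω, (h (mv b ω) - h ω) ∂ν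
        ≤ κ * ((if b.1 ∈ Bx n ∧ b.2 ∉ Bx n then p (b.2 - b.1) else 0)
          + (if b.2 ∈ Bx n ∧ b.1 ∉ Bx n then p (b.2 - b.1) else 0))
          - (if b = b0 then 2 * rt p b0 * P else 0) := by
      intro b
      have hint1 : Integrable (fun ω : Pf => h (mv b ω) - h ω) ν :=
        integrable_C ν ⟨fun ω => h (mv b ω) - h ω,
          (hcyl.continuous.comp (continuous_mv b)).sub hcyl.continuous⟩
      have i1 : Integrable (fun ω : Pf => if b.1 ∈ Bx n ∧ b.2 ∉ Bx n then dc (ω b.2) else 0) ν := by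
        split_ifs
        · exact hid _
        · exact integrable_zero _ _ _
      have i2 : Integrable (fun ω : Pf => if b.2 ∈ Bx n ∧ b.1 ∉ Bx n then dc (ω b.1) else 0) ν := by
        split_ifs
        · exact hid _
        · exact integrable_zero _ _ _
      have i3 : Integrable (fun ω : Pf => if b = b0 then 2 * op (ω b0.1) (ω b0.2) else 0) ν := by
        split_ifs
        · exact hio.const_mul 2
        · exact integrable_zero _ _ _
      have h4 := integral_mono hint1 ((i1.add i2).sub i3) (hpt b)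
      have e4 : ∫ ω, (((fun ω : Pf => if b.1 ∈ Bx n ∧ b.2 ∉ Bx n then dc (ω b.2) else 0)
          + fun ω : Pf => if b.2 ∈ Bx n ∧ b.1 ∉ Bx n then dc (ω b.1) else 0)
          - fun ω : Pf => if b = b0 then 2 * op (ω b0.1) (ω b0.2) else 0) ω ∂ν
          = (if b.1 ∈ Bx n ∧ b.2 ∉ Bx n then ∫ ω, dc (ω b.2) ∂ν else 0)
          + (if b.2 ∈ Bx n ∧ b.1 ∉ Bx n then ∫ ω, dc (ω b.1) ∂ν else 0)
          - (if b = b0 then 2 * P else 0) := by
        rw [integral_sub' (i1.add i2) i3, integral_add' i1 i2]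
        congr 1
        · congr 1
          · split_ifs
            · rfl
            · simp
          · split_ifs
            · rfl
            · simp
        · split_ifs
          · rw [integral_const_mul]
          · simp
      rw [e4] at h4
      have h5 : rt p b * ∫ ω, (h (mv b ω) - h ω) ∂ν ≤ rt p b *
          ((if b.1 ∈ Bx n ∧ b.2 ∉ Bx n then ∫ ω, dc (ω b.2) ∂ν else 0)
          + (if b.2 ∈ Bx n ∧ b.1 ∉ Bx n then ∫ ω, dc (ω b.1) ∂ν else 0)
          - (if b = b0 then 2 * P else 0)) := mul_le_mul_of_nonneg_left h4 ((adm_rt hp).nonneg b)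
      refine h5.trans ?_
      have hb : 0 ≤ p (b.2 - b.1) := hp.nonneg _
      have e5 : rt p b = p (b.2 - b.1) := rfl
      rw [e5]
      have t1 : p (b.2 - b.1) * (if b.1 ∈ Bx n ∧ b.2 ∉ Bx n then ∫ ω, dc (ω b.2) ∂ν else 0)
          ≤ κ * (if b.1 ∈ Bx n ∧ b.2 ∉ Bx n then p (b.2 - b.1) else 0) := by
        split_ifs with h
        · rw [mul_comm κ]; exact mul_le_mul_of_nonneg_left (hout _ h.2) hb
        · simp
      have t2 : p (b.2 - b.1) * (if b.2 ∈ Bx n ∧ b.1 ∉ Bx n then ∫ ω, dc (ω b.1) ∂ν else 0)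
          ≤ κ * (if b.2 ∈ Bx n ∧ b.1 ∉ Bx n then p (b.2 - b.1) else 0) := by
        split_ifs with h
        · rw [mul_comm κ]; exact mul_le_mul_of_nonneg_left (hout _ h.2) hb
        · simp
      have t3 : p (b.2 - b.1) * (if b = b0 then 2 * P else 0)
          = if b = b0 then 2 * rt p b0 * P else 0 := by
        split_ifs with h
        · subst h; rw [e5]; ring
        · simp
      rw [mul_sub, mul_add, t3, mul_add]
      linarith
    have hs3 : HasSum (fun b : ℤ × ℤ => if b = b0 then 2 * rt p b0 * P else 0)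
        (2 * rt p b0 * P) := hasSum_ite_eq b0 _
    have hs4 := ((hs1.add hs2).mul_left κ).sub hs3
    have h6 := hasSum_le hψ hsum hs4
    nlinarith
  have h7 : 2 * rt p b0 * P ≤ 0 := by
    refine le_of_forall_pos_le_add fun ε hε => ?_
    have hM := MM_nonneg hp
    have hpos : 0 < 2 * MM p + 1 := by linarith
    have h8 := key (ε / (2 * MM p + 1)) (div_pos hε hpos)
    have h9 : ε / (2 * MM p + 1) * (2 * MM p) ≤ ε := by
      rw [div_mul_eq_mul_div, div_le_iff₀ hpos]; nlinarith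
    linarith
  nlinarith

end Pool.Agent.Q298.Excl
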