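import Pool.Agent.Q298.Excl.Opp

/-!
# The coupling is ordered
-/

open Set Filter Topology MeasureTheory Function

set_option linter.unusedSectionVars false

namespace Pool.Agent.Q298.Excl

section quad

variable {A : Type*} [TopologicalSpace A] [DiscreteTopology A] [Lattice A] [Finite A]
variable {p : ℤ → ℝ} {c : ℤ × ℤ → ℝ}

lemma res_quad (hc : Adm p c) {lam : ℝ} (hlam : 0 < lam) (f : C(ℤ → A, ℝ)) (a : ℝ)
    (η : ℤ → A) : res hc lam ((f - ContinuousMap.const _ a) ^ 2) η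
      = res hc lam (f ^ 2) η - 2 * a * res hc lam f η + a ^ 2 := by
  have e : (f - ContinuousMap.const _ a) ^ 2
      = f ^ 2 - (2 * a) • f + ContinuousMap.const _ (a ^ 2) := by
    ext ζ
    simp only [ContinuousMap.pow_apply, ContinuousMap.sub_apply, ContinuousMap.const_apply,
      ContinuousMap.add_apply, ContinuousMap.smul_apply, smul_eq_mul]
    ring
  rw [e, res_add hc hlam, res_sub hc hlam, res_smul hc hlam, res_const hc hlam]
  simp only [ContinuousMap.sub_apply, ContinuousMap.const_apply,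
      ContinuousMap.add_apply, ContinuousMap.smul_apply, smul_eq_mul]

lemma res_quad_nonneg (hc : Adm p c) {lam : ℝ} (hlam : 0 < lam) (f : C(ℤ → A, ℝ)) (a : ℝ)
    (η : ℤ → A) : 0 ≤ res hc lam (f ^ 2) η - 2 * a * res hc lam f η + a ^ 2 := by
  rw [← res_quad hc hlam]
  refine res_ge hc hlam (fun ζ => ?_) η
  simp only [ContinuousMap.pow_apply]
  positivity

lemma res_sq (hc : Adm p c) {lam : ℝ} (hlam : 0 < lam) (f : C(ℤ → A, ℝ))
    (η : ℤ → A) : (res hc lam f η) ^ 2 ≤ res hc lam (f ^ 2) η := by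
  have h := res_quad_nonneg hc hlam f (res hc lam f η) η
  nlinarith

end quad

variable {p : ℤ → ℝ}

lemma int_lin3 {X : Type*} [MeasurableSpace X] {μ : Measure X} {f g h : X → ℝ}
    (hf : Integrable f μ) (hg : Integrable g μ) (hh : Integrable h μ) (a b c : ℝ) :
    ∫ x, (a * f x + b * g x + c * h x) ∂μ
      = a * ∫ x, f x ∂μ + b * ∫ x, g x ∂μ + c * ∫ x, h x ∂μ := by
  have h1 : Integrable (fun x => a * f x) μ := hf.const_mul a
  have h2 : Integrable (fun x => b * g x) μ := hg.const_mul b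
  have h3 : Integrable (fun x => c * h x) μ := hh.const_mul c
  have h4 : Integrable (fun x => a * f x + b * g x) μ := h1.add h2
  rw [integral_add h4 h3, integral_add h1 h2, integral_const_mul, integral_const_mul,
    integral_const_mul]

lemma bool_le : ∀ a b : Bool, a ≤ b → (if a = true then (1 : ℝ) else 0) ≤ if b = true then 1 else 0 := by
  intro a b
  cases a <;> cases b <;> simp

lemma near_min {X : Type*} {S : Set X} (V : X → ℝ) (hne : S.Nonempty) (h0 : ∀ a ∈ S, 0 ≤ V a)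
    {δ : ℝ} (hδ : 0 < δ) : ∃ a ∈ S, ∀ a' ∈ S, V a ≤ V a' + δ := by
  obtain ⟨v, ⟨a, ha, rfl⟩, hv⟩ := Real.lt_sInf_add_pos (hne.image V) hδ
  refine ⟨a, ha, fun a' ha' => ?_⟩
  have hb : BddBelow (V '' S) := ⟨0, by rintro _ ⟨x, hx, rfl⟩; exact h0 x hx⟩
  have := csInf_le hb (mem_image_of_mem V ha')
  linarith

/-- occupation of `x` -/
noncomputable def ex (x : ℤ) : C(Cf, ℝ) :=
  ⟨fun η => if η x then 1 else 0, by
    have h : Continuous fun a : Bool => (if a then (1 : ℝ) else 0) := continuous_of_discreteTopology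
    exact h.comp (continuous_apply x)⟩

lemma ex_apply (x : ℤ) (η : Cf) : ex x η = if η x then 1 else 0 := rfl

lemma ex_nonneg (x : ℤ) (η : Cf) : 0 ≤ ex x η := by rw [ex_apply]; split_ifs <;> norm_num

lemma ex_le (x : ℤ) (η : Cf) : ex x η ≤ 1 := by rw [ex_apply]; split_ifs <;> norm_num

lemma ex_sh (x : ℤ) (η : Cf) : ex x (sh η) = ex (x - 1) η := rfl

/-- a stationary profile measure -/
structure Prof (p : ℤ → ℝ) (μ : Measure Cf) : Prop where
  stat : Stat (rt p) μ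
  left : Tendsto (fun x : ℤ => ∫ η, ex x η ∂μ) atBot (𝓝 0)
  right : Tendsto (fun x : ℤ => ∫ η, ex x η ∂μ) atTop (𝓝 1)

/-- a good coupling -/
structure Cpl (hp : Kern p) (μ : Measure Cf) (ν : Measure Pf) : Prop where
  prob : IsProbabilityMeasure ν
  stat : Stat (rt p) ν
  m1 : ∀ f : C(Cf, ℝ), ∫ ω, f (pr1 ω) ∂ν = ∫ η, f η ∂μ
  m2 : ∀ f : C(Cf, ℝ), ∫ ω, f (pr2 ω) ∂ν = ∫ η, f (sh η) ∂μ
  le : ∀ (F : C(Pf, ℝ)) (m : ℝ), (∀ lam : ℝ, 0 < lam →
        ∫ η, res (adm_rt hp) lam F (io η) ∂μ ≤ m) → ∫ ω, F ω ∂ν ≤ m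

lemma abs_le_quad {t s : ℝ} (hs : 0 < s) : |t| ≤ s + t ^ 2 / (4 * s) := by
  have h1 : t ^ 2 = |t| ^ 2 := (sq_abs t).symm
  rw [h1]
  have h2 : 0 ≤ (|t| - 2 * s) ^ 2 / (4 * s) := by positivity
  have h3 : s + |t| ^ 2 / (4 * s) - |t| = (|t| - 2 * s) ^ 2 / (4 * s) := by
    field_simp
    ring
  linarith

/-- the `L¹` comparison of the ergodic averages of the two marginals -/
lemma Cpl.close {hp : Kern p} {μ : Measure Cf} {ν : Measure Pf} [IsProbabilityMeasure μ]
    (hμ : Stat (rt p) μ) (hν : Cpl hp μ ν) (a : C(Cf, ℝ)) {s δ : ℝ} (hs : 0 < s)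
    (hδ : ∀ lam : ℝ, 0 < lam →
      ∫ η, a (sh η) ^ 2 ∂μ - ∫ η, a (sh η) * res (adm_rt hp) lam a (sh η) ∂μ ≤ 2 * δ) :
    ∫ ω, |a (pr2 ω) - a (sh (pr1 ω))| ∂ν ≤ 2 * s + 2 * δ / s := by
  have hF : Continuous fun ω : Pf => |a (pr2 ω) - a (sh (pr1 ω))| := by fun_prop
  refine hν.le ⟨_, hF⟩ _ fun lam hlam => ?_
  set K := res (A := Bool) (adm_rt hp) lam with hK
  -- pointwise bound
  have hpt : ∀ η : Cf, res (adm_rt hp) lam (⟨_, hF⟩ : C(Pf, ℝ)) (io η)
      ≤ 2 * s + 1 / (2 * s) * (K (a ^ 2) (sh η) - 2 * a (sh η) * K a (sh η) + a (sh η) ^ 2) := by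
    intro η
    set cc : ℝ := a (sh η) with hcc
    set q : C(Cf, ℝ) := (a - ContinuousMap.const _ cc) ^ 2 with hq
    set G : C(Pf, ℝ) := ContinuousMap.const _ (2 * s)
      + (1 / (4 * s)) • (q.comp pr2 + (q.comp sh).comp pr1) with hG
    have h1 : ∀ ω, (⟨_, hF⟩ : C(Pf, ℝ)) ω ≤ G ω := by
      intro ω
      simp only [hG, hq, ContinuousMap.coe_mk, ContinuousMap.add_apply, ContinuousMap.const_apply,
        ContinuousMap.smul_apply, ContinuousMap.comp_apply, ContinuousMap.pow_apply,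
        ContinuousMap.sub_apply, smul_eq_mul]
      have t1 := abs_le_quad (t := a (pr2 ω) - cc) hs
      have t2 := abs_le_quad (t := a (sh (pr1 ω)) - cc) hs
      have t3 : |a (pr2 ω) - a (sh (pr1 ω))| ≤ |a (pr2 ω) - cc| + |a (sh (pr1 ω)) - cc| := by
        have := abs_sub (a (pr2 ω) - cc) (a (sh (pr1 ω)) - cc)
        have e : a (pr2 ω) - cc - (a (sh (pr1 ω)) - cc) = a (pr2 ω) - a (sh (pr1 ω)) := by ring
        rwa [e] at this
      have e2 : 2 * s + 1 / (4 * s) * ((a (pr2 ω) - cc) ^ 2 + (a (sh (pr1 ω)) - cc) ^ 2)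
          = (s + (a (pr2 ω) - cc) ^ 2 / (4 * s)) + (s + (a (sh (pr1 ω)) - cc) ^ 2 / (4 * s)) := by
        ring
      rw [e2]
      linarith
    have h2 := res_mono (adm_rt hp) hlam h1 (io η)
    refine h2.trans (le_of_eq ?_)
    rw [hG, res_add (adm_rt hp) hlam, res_smul (adm_rt hp) hlam, res_add (adm_rt hp) hlam,
      res_const (adm_rt hp) hlam, res_pr1 (adm_rt hp) hlam, res_pr2 (adm_rt hp) hlam,
      res_sh hp hlam]
    simp only [ContinuousMap.add_apply, ContinuousMap.const_apply,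
        ContinuousMap.smul_apply, ContinuousMap.comp_apply, smul_eq_mul, pr1_io, pr2_io]
    rw [hq, res_quad (adm_rt hp) hlam, hK]
    field_simp
    ring
  have i0 : Integrable (fun η => res (adm_rt hp) lam (⟨_, hF⟩ : C(Pf, ℝ)) (io η)) μ :=
    integrable_C μ ((res (adm_rt hp) lam (⟨_, hF⟩ : C(Pf, ℝ))).comp io)
  have i1 : Integrable (fun η => K (a ^ 2) (sh η)) μ := integrable_C μ ((K (a ^ 2)).comp sh)
  have i2 : Integrable (fun η => a (sh η) * K a (sh η)) μ :=
    integrable_C μ ((a * K a).comp sh)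
  have i3 : Integrable (fun η => a (sh η) ^ 2) μ := by
    have h0 := integrable_C μ ((a ^ 2).comp sh)
    simp only [ContinuousMap.comp_apply, ContinuousMap.pow_apply] at h0
    exact h0
  have j1 : Integrable (fun η => K (a ^ 2) (sh η) - 2 * (a (sh η) * K a (sh η))) μ :=
    i1.sub (i2.const_mul 2)
  have j2 : Integrable (fun η => K (a ^ 2) (sh η) - 2 * (a (sh η) * K a (sh η))
    + a (sh η) ^ 2) μ := j1.add i3
  have e5 : (fun η => 2 * s + 1 / (2 * s) *
      (K (a ^ 2) (sh η) - 2 * a (sh η) * K a (sh η) + a (sh η) ^ 2))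
      = fun η => 2 * s + (1 / (2 * s)) *
      ((K (a ^ 2) (sh η) - 2 * (a (sh η) * K a (sh η))) + a (sh η) ^ 2) := by
    funext η; ring
  have i4 : Integrable (fun η => 2 * s + 1 / (2 * s) *
      (K (a ^ 2) (sh η) - 2 * a (sh η) * K a (sh η) + a (sh η) ^ 2)) μ := by
    rw [e5]
    exact (integrable_const _).add (j2.const_mul _)
  have h3 := integral_mono i0 i4 hpt
  refine h3.trans ?_
  have e8 : ∫ η, 2 * (a (sh η) * K a (sh η)) ∂μ = 2 * ∫ η, a (sh η) * K a (sh η) ∂μ :=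
    integral_const_mul 2 _
  rw [e5, integral_add (integrable_const _) (j2.const_mul _),
    integral_const_mul (1 / (2 * s)), integral_add j1 i3,
    integral_sub i1 (i2.const_mul 2), e8]
  have h4 : ∫ η, K (a ^ 2) (sh η) ∂μ = ∫ η, a (sh η) ^ 2 ∂μ := by
    have h5 := hμ.inv (hc := adm_rt hp) hlam ((a ^ 2).comp sh)
    rw [res_sh hp hlam] at h5
    simp only [ContinuousMap.comp_apply, ContinuousMap.pow_apply] at h5
    exact h5
  rw [h4]
  have h6 := hδ lam hlam
  simp only [integral_const, probReal_univ, smul_eq_mul, one_mul]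
  have e6 : 2 * δ / s = 1 / (2 * s) * (4 * δ) := by field_simp; ring
  rw [e6]
  have h7 : 0 ≤ 1 / (2 * s) := by positivity
  have h8 := mul_le_mul_of_nonneg_left (show ∫ η, a (sh η) ^ 2 ∂μ
    - 2 * ∫ η, a (sh η) * K a (sh η) ∂μ + ∫ η, a (sh η) ^ 2 ∂μ ≤ 4 * δ by linarith) h7
  linarith


lemma Cpl.shift_le {hp : Kern p} {μ : Measure Cf} {ν : Measure Pf} [IsProbabilityMeasure μ]
    (hμ : Stat (rt p) μ) (hν : Cpl hp μ ν) (x : ℤ) {s : ℝ} (hs : 0 < s) :
    ∫ ω in Ole, ex x (pr1 ω) ∂ν ≤ ∫ ω in Ole, ex (x - 1) (pr1 ω) ∂ν + 4 * s := by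
  have := hν.prob
  set S : Set C(Cf, ℝ) := {a | ∫ ω in Ole, a (pr2 ω) ∂ν = ∫ ω in Ole, ex x (pr2 ω) ∂ν ∧
    ∫ ω in Ole, a (sh (pr1 ω)) ∂ν = ∫ ω in Ole, ex x (sh (pr1 ω)) ∂ν} with hS
  set V : C(Cf, ℝ) → ℝ := fun a => ∫ η, a (sh η) ^ 2 ∂μ with hV
  have hδ : 0 < s ^ 2 := by positivity
  obtain ⟨a, ⟨ha1, ha2⟩, hmin⟩ := near_min (S := S) V ⟨ex x, rfl, rfl⟩
    (fun a _ => integral_nonneg fun η => sq_nonneg _) hδ
  have i2 : ∀ f : C(Cf, ℝ), Integrable (fun ω => f (pr2 ω)) (ν.restrict Ole) := fun f =>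
    integrable_C _ (f.comp pr2)
  have i1 : ∀ f : C(Cf, ℝ), Integrable (fun ω => f (sh (pr1 ω))) (ν.restrict Ole) := fun f =>
    integrable_C _ ((f.comp sh).comp pr1)
  -- invariance of averages
  have hδ2 : ∀ lam : ℝ, 0 < lam →
      ∫ η, a (sh η) ^ 2 ∂μ - ∫ η, a (sh η) * res (adm_rt hp) lam a (sh η) ∂μ ≤ 2 * s ^ 2 := by
    intro lam hlam
    set K := res (A := Bool) (adm_rt hp) lam with hK
    have hm : (1 / 2 : ℝ) • (a + K a) ∈ S := by
      constructor
      · have h1 := hν.stat.restrict (hc := adm_rt hp) isClosed_Ole (absb_Ole _) hlam (a.comp pr2)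
        rw [res_pr2 (adm_rt hp) hlam] at h1
        have h2 : ∫ ω in Ole, K a (pr2 ω) ∂ν = ∫ ω in Ole, a (pr2 ω) ∂ν := h1
        have h3 : ∀ ω, ((1 / 2 : ℝ) • (a + K a)) (pr2 ω) = (1 / 2) * (a (pr2 ω) + K a (pr2 ω)) :=
          fun ω => rfl
        simp only [h3]
        rw [integral_const_mul, integral_add (i2 a) (i2 (K a)), h2, ha1]
        ring
      · have h1 := hν.stat.restrict (hc := adm_rt hp) isClosed_Ole (absb_Ole _) hlam
          ((a.comp sh).comp pr1)
        rw [res_pr1 (adm_rt hp) hlam, res_sh hp hlam] at h1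
        have h2 : ∫ ω in Ole, K a (sh (pr1 ω)) ∂ν = ∫ ω in Ole, a (sh (pr1 ω)) ∂ν := h1
        have h3 : ∀ ω, ((1 / 2 : ℝ) • (a + K a)) (sh (pr1 ω))
          = (1 / 2) * (a (sh (pr1 ω)) + K a (sh (pr1 ω))) := fun ω => rfl
        simp only [h3]
        rw [integral_const_mul, integral_add (i1 a) (i1 (K a)), h2, ha2]
        ring
    have h4 := hmin _ hm
    simp only [hV] at h4
    have j1 : Integrable (fun η => a (sh η) ^ 2) μ := by
      have h0 := integrable_C μ ((a ^ 2).comp sh)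
      simp only [ContinuousMap.comp_apply, ContinuousMap.pow_apply] at h0
      exact h0
    have j2 : Integrable (fun η => a (sh η) * K a (sh η)) μ := integrable_C μ ((a * K a).comp sh)
    have j3 : Integrable (fun η => K (a ^ 2) (sh η)) μ := integrable_C μ ((K (a ^ 2)).comp sh)
    have j4 : Integrable (fun η => ((1 / 2 : ℝ) • (a + K a)) (sh η) ^ 2) μ := by
      have h0 := integrable_C μ ((((1 / 2 : ℝ) • (a + K a)) ^ 2).comp sh)
      simp only [ContinuousMap.comp_apply, ContinuousMap.pow_apply] at h0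
      exact h0
    have h5 : ∫ η, ((1 / 2 : ℝ) • (a + K a)) (sh η) ^ 2 ∂μ
        ≤ ∫ η, (1 / 4 * a (sh η) ^ 2 + 1 / 2 * (a (sh η) * K a (sh η))
          + 1 / 4 * K (a ^ 2) (sh η)) ∂μ := by
      refine integral_mono j4 (((j1.const_mul _).add (j2.const_mul _)).add (j3.const_mul _)) ?_
      intro η
      have h6 := res_sq (adm_rt hp) hlam a (sh η)
      have h3 : ((1 / 2 : ℝ) • (a + K a)) (sh η) = (1 / 2) * (a (sh η) + K a (sh η)) := rfl
      simp only [h3]
      simp only [← hK] at h6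
      nlinarith
    rw [int_lin3 j1 j2 j3] at h5
    have e4 : ∫ η, K (a ^ 2) (sh η) ∂μ = ∫ η, a (sh η) ^ 2 ∂μ := by
      have h5 := hμ.inv (hc := adm_rt hp) hlam ((a ^ 2).comp sh)
      rw [res_sh hp hlam] at h5
      simp only [ContinuousMap.comp_apply, ContinuousMap.pow_apply] at h5
      exact h5
    rw [e4] at h5
    linarith
  have hclose := hν.close hμ a hs hδ2
  have e5 : 2 * s + 2 * s ^ 2 / s = 4 * s := by field_simp; ring
  rw [e5] at hclose
  -- chain
  have c1 : ∫ ω in Ole, ex x (pr1 ω) ∂ν ≤ ∫ ω in Ole, ex x (pr2 ω) ∂ν := by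
    refine setIntegral_mono_on (integrable_C _ ((ex x).comp pr1)) (i2 (ex x))
      isClosed_Ole.measurableSet fun ω hω => ?_
    have h1 : (ω x).1 ≤ (ω x).2 := hω x
    simp only [ex_apply, pr1_apply, pr2_apply]
    exact bool_le _ _ h1
  have iF : Integrable (fun ω => |a (pr2 ω) - a (sh (pr1 ω))|) ν :=
    integrable_C ν ⟨fun ω => |a (pr2 ω) - a (sh (pr1 ω))|, by fun_prop⟩
  have c2 : ∫ ω in Ole, a (pr2 ω) ∂ν ≤ ∫ ω in Ole, a (sh (pr1 ω)) ∂ν
      + ∫ ω in Ole, |a (pr2 ω) - a (sh (pr1 ω))| ∂ν := by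
    rw [← integral_add (i1 a) iF.integrableOn]
    refine integral_mono (i2 a) ((i1 a).add iF.integrableOn) fun ω => ?_
    have := le_abs_self (a (pr2 ω) - a (sh (pr1 ω)))
    linarith
  have c3 : ∫ ω in Ole, |a (pr2 ω) - a (sh (pr1 ω))| ∂ν ≤ ∫ ω, |a (pr2 ω) - a (sh (pr1 ω))| ∂ν :=
    setIntegral_le_integral iF (Eventually.of_forall fun ω => abs_nonneg _)
  have c4 : ∫ ω in Ole, ex x (sh (pr1 ω)) ∂ν = ∫ ω in Ole, ex (x - 1) (pr1 ω) ∂ν := rfl
  linarith

/-- the exceptional ordering has probability zero -/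
lemma Cpl.Ole_null {hp : Kern p} {μ : Measure Cf} {ν : Measure Pf} [IsProbabilityMeasure μ]
    (hμ : Prof p μ) (hν : Cpl hp μ ν) : ν Ole = 0 := by
  have := hν.prob
  set b : ℤ → ℝ := fun x => ∫ ω in Ole, ex x (pr1 ω) ∂ν with hb
  have hb0 : ∀ x, 0 ≤ b x := fun x => integral_nonneg fun ω => ex_nonneg x _
  have hstep : ∀ x, b x ≤ b (x - 1) := by
    intro x
    refine le_of_forall_pos_le_add fun ε hε => ?_
    have := hν.shift_le hμ.stat x (s := ε / 4) (by linarith)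
    simp only [hb]
    linarith
  have hstep2 : ∀ (n : ℕ) x, b x ≤ b (x - n) := by
    intro n
    induction n with
    | zero => intro x; simp
    | succ n ih =>
      intro x
      refine (ih x).trans ((hstep _).trans (le_of_eq ?_))
      congr 1
      push_cast
      ring
  have hint : ∀ x, Integrable (fun ω => ex x (pr1 ω)) ν := fun x => integrable_C ν ((ex x).comp pr1)
  have hble : ∀ x, b x ≤ ∫ η, ex x η ∂μ := by
    intro x
    rw [← hν.m1 (ex x)]
    exact setIntegral_le_integral (hint x) (Eventually.of_forall fun ω => ex_nonneg x _)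
  have hbz : ∀ x, b x = 0 := by
    intro x
    refine le_antisymm ?_ (hb0 x)
    have h1 : Tendsto (fun n : ℕ => x - (n : ℤ)) atTop atBot := by
      refine tendsto_atBot.2 fun m => ?_
      filter_upwards [eventually_ge_atTop (x - m).natAbs] with n hn
      omega
    have h2 := hμ.left.comp h1
    refine ge_of_tendsto h2 (Eventually.of_forall fun n => ?_)
    exact (hstep2 n x).trans (hble _)
  -- conclude
  have h3 : ∀ x, ν.real Ole ≤ 1 - ∫ η, ex x η ∂μ := by
    intro x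
    have h4 : ν.real Ole = ∫ ω in Ole, (1 - ex x (pr1 ω)) ∂ν := by
      rw [integral_sub (integrable_const _) (hint x).integrableOn]
      have h5 : ∫ ω in Ole, ex x (pr1 ω) ∂ν = 0 := hbz x
      rw [h5]
      simp
    have i5 : Integrable (fun ω => 1 - ex x (pr1 ω)) ν := (integrable_const _).sub (hint x)
    have h6 : ∫ ω in Ole, (1 - ex x (pr1 ω)) ∂ν ≤ ∫ ω, (1 - ex x (pr1 ω)) ∂ν :=
      setIntegral_le_integral i5
        (Eventually.of_forall fun ω => sub_nonneg.2 (ex_le x _))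
    rw [integral_sub (integrable_const _) (hint x), hν.m1 (ex x)] at h6
    simp only [integral_const, probReal_univ, smul_eq_mul, mul_one] at h6
    linarith
  have h7 : ν.real Ole ≤ 0 := by
    have h8 : Tendsto (fun x : ℤ => 1 - ∫ η, ex x η ∂μ) atTop (𝓝 (1 - 1)) :=
      tendsto_const_nhds.sub hμ.right
    rw [sub_self] at h8
    exact ge_of_tendsto h8 (Eventually.of_forall h3)
  have h9 : ν.real Ole = 0 := le_antisymm h7 measureReal_nonneg
  rw [measureReal_eq_zero_iff] at h9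
  exact h9

end Pool.Agent.Q298.Excl
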