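import Pool.Agent.Q298.Excl.End

/-!
# Power law tails
-/

open Set Filter Topology MeasureTheory Function

set_option linter.unusedSectionVars false

namespace Pool.Agent.Q298.Excl

variable {p : ℤ → ℝ}

lemma exists_delta {α : ℝ} (h2 : 2 < α) (hg : α ^ 2 - 3 * α + 1 < 0) :
    ∃ δ : ℝ, α - 1 < δ ∧ δ * (α - 2) < 1 := by
  have h : α - 1 < 1 / (α - 2) := by
    rw [lt_div_iff₀ (by linarith)]
    nlinarith
  obtain ⟨δ, h1, h3⟩ := exists_between h
  refine ⟨δ, h1, ?_⟩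
  rwa [lt_div_iff₀ (by linarith)] at h3

theorem heavy_of_pow (hp : Kern p) {α c : ℝ} (h2 : 2 < α) (hg : α ^ 2 - 3 * α + 1 < 0)
    (hc : 0 < c) (hpow : ∀ᶠ k : ℕ in atTop, c * (k : ℝ) ^ (-α) ≤ p (-(k : ℤ))) : Heavy p := by
  obtain ⟨δ, hδ1, hδ2⟩ := exists_delta h2 hg
  have hδ0 : 0 < δ := by linarith
  intro C
  obtain ⟨k0, hk0⟩ := eventually_atTop.1 hpow
  have t0 : Tendsto (fun X : ℕ => (X : ℝ)) atTop atTop := tendsto_natCast_atTop_atTop
  -- the four requirements for large X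
  have e1 : ∀ᶠ X : ℕ in atTop, C ≤ (X : ℝ) := t0.eventually_ge_atTop C
  have e2 : ∀ᶠ X : ℕ in atTop, 2 * |C| ≤ (X : ℝ) ^ (δ - 1) :=
    ((tendsto_rpow_atTop (by linarith : (0 : ℝ) < δ - 1)).comp t0).eventually_ge_atTop _
  have e3 : ∀ᶠ X : ℕ in atTop, C / (c * 2 ^ (-α)) ≤ (X : ℝ) ^ (δ + 1 - α) :=
    ((tendsto_rpow_atTop (by linarith : (0 : ℝ) < δ + 1 - α)).comp t0).eventually_ge_atTop _
  have e4 : ∀ᶠ X : ℕ in atTop, C / (c * 2 ^ (-α) * 2 ^ (2 - α)) ≤ (X : ℝ) ^ (1 - δ * (α - 2)) :=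
    ((tendsto_rpow_atTop (by linarith : (0 : ℝ) < 1 - δ * (α - 2))).comp t0).eventually_ge_atTop _
  obtain ⟨X, h1, h2', h3, h4, h5, h6⟩ := (e1.and (e2.and (e3.and (e4.and
    ((eventually_ge_atTop k0).and (eventually_ge_atTop 1)))))).exists
  have hX1 : (1 : ℝ) ≤ X := by exact_mod_cast h6
  have hX0 : (0 : ℝ) < X := by linarith
  obtain ⟨t, ht⟩ : ∃ t : ℕ, t = ⌈(X : ℝ) ^ δ⌉₊ := ⟨_, rfl⟩
  have hXδ : (X : ℝ) ≤ (X : ℝ) ^ δ := by
    conv_lhs => rw [← Real.rpow_one (X : ℝ)]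
    exact Real.rpow_le_rpow_of_exponent_le hX1 (by linarith)
  have ht1 : (X : ℝ) ^ δ ≤ t := by rw [ht]; exact Nat.le_ceil _
  have ht2 : (t : ℝ) ≤ 2 * (X : ℝ) ^ δ := by
    have := Nat.ceil_lt_add_one (a := (X : ℝ) ^ δ) (by positivity)
    rw [← ht] at this
    linarith
  have htX : X ≤ t := by
    have : (X : ℝ) ≤ t := hXδ.trans ht1
    exact_mod_cast this
  have ht0 : (0 : ℝ) < t := by linarith
  refine ⟨t, Finset.Ico X (2 * X), ?_, ?_, ?_⟩
  · intro j hj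
    rw [Finset.mem_Ico] at hj
    have j1 : (X : ℝ) ≤ j := by exact_mod_cast hj.1
    have j2 : (j : ℝ) ≤ 2 * X := by exact_mod_cast hj.2.le
    refine ⟨h1.trans j1, ?_⟩
    calc C * j ≤ |C| * j := mul_le_mul_of_nonneg_right (le_abs_self C) (by linarith)
      _ ≤ |C| * (2 * X) := mul_le_mul_of_nonneg_left j2 (abs_nonneg C)
      _ = (2 * |C|) * X := by ring
      _ ≤ (X : ℝ) ^ (δ - 1) * X := mul_le_mul_of_nonneg_right h2' hX0.le
      _ = (X : ℝ) ^ δ := by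
        rw [← Real.rpow_add_one hX0.ne']; congr 1; ring
      _ ≤ t := ht1
  · intro j hj
    rw [Finset.mem_Ico] at hj
    have hcard : ((Finset.Ico X (2 * X)).card : ℝ) = X := by
      rw [Nat.card_Ico]
      congr 1
      omega
    rw [hcard]
    have j2 : (j : ℝ) ≤ 2 * X := by exact_mod_cast hj.2.le
    have hj0 : (0 : ℝ) < j := by
      have : (X : ℝ) ≤ j := by exact_mod_cast hj.1
      linarith
    have h7 := hk0 j (by omega)
    have h8 : c * ((2 : ℝ) * X) ^ (-α) ≤ p (-(j : ℤ)) := by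
      refine le_trans (mul_le_mul_of_nonneg_left ?_ hc.le) h7
      exact Real.rpow_le_rpow_of_nonpos hj0 j2 (by linarith)
    have h9 : (X : ℝ) ^ δ * X * (c * ((2 : ℝ) * X) ^ (-α)) ≤ t * X * p (-(j : ℤ)) := by
      refine mul_le_mul (mul_le_mul_of_nonneg_right ht1 hX0.le) h8 (by positivity) (by positivity)
    refine le_trans ?_ h9
    have h10 : (X : ℝ) ^ δ * X * (c * ((2 : ℝ) * X) ^ (-α))
        = (c * 2 ^ (-α)) * (X : ℝ) ^ (δ + 1 - α) := by
      rw [Real.mul_rpow (by norm_num) hX0.le]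
      have : (X : ℝ) ^ (δ + 1 - α) = (X : ℝ) ^ δ * X * (X : ℝ) ^ (-α) := by
        rw [show δ + 1 - α = δ + 1 + (-α) by ring, Real.rpow_add hX0, Real.rpow_add_one hX0.ne']
      rw [this]
      ring
    rw [h10]
    rw [div_le_iff₀ (by positivity)] at h3
    linarith
  · have hcard : ((Finset.Ico X (2 * X)).card : ℝ) = X := by
      rw [Nat.card_Ico]
      congr 1
      omega
    rw [hcard]
    have hsum : Summable fun k : ℕ => p (-((t : ℤ) + k)) := by
      have hi : Function.Injective fun k : ℕ => -((t : ℤ) + k) := by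
        intro a b h
        simp only at h
        omega
      exact hp.summ.comp_injective hi
    have h7 : ∑ k ∈ Finset.range t, p (-((t : ℤ) + k)) ≤ ∑' k : ℕ, p (-((t : ℤ) + k)) :=
      hsum.sum_le_tsum _ (fun k _ => hp.nonneg _)
    have h8 : ∑ k ∈ Finset.range t, c * ((2 : ℝ) * t) ^ (-α)
        ≤ ∑ k ∈ Finset.range t, p (-((t : ℤ) + k)) := by
      refine Finset.sum_le_sum fun k hk => ?_
      rw [Finset.mem_range] at hk
      have h9 := hk0 (t + k) (by omega)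
      push_cast at h9
      refine le_trans (mul_le_mul_of_nonneg_left ?_ hc.le) h9
      have hkt : (k : ℝ) ≤ t := by exact_mod_cast hk.le
      have hk00 : (0 : ℝ) ≤ k := Nat.cast_nonneg k
      exact Real.rpow_le_rpow_of_nonpos (by linarith) (by linarith) (by linarith)
    rw [Finset.sum_const, Finset.card_range, nsmul_eq_mul] at h8
    have h9 : (t : ℝ) * X * (t * (c * ((2 : ℝ) * t) ^ (-α)))
        ≤ t * X * ∑' k : ℕ, p (-((t : ℤ) + k)) :=
      mul_le_mul_of_nonneg_left (h8.trans h7) (by positivity)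
    refine le_trans ?_ h9
    have h10 : (t : ℝ) * X * (t * (c * ((2 : ℝ) * t) ^ (-α)))
        = (c * 2 ^ (-α)) * (X * (t : ℝ) ^ (2 - α)) := by
      rw [Real.mul_rpow (by norm_num) ht0.le]
      have : (t : ℝ) ^ (2 - α) = t * t * (t : ℝ) ^ (-α) := by
        rw [show (2 : ℝ) - α = 2 + (-α) by ring, Real.rpow_add ht0, Real.rpow_two]
        ring
      rw [this]
      ring
    rw [h10]
    have h11 : (2 * (X : ℝ) ^ δ) ^ (2 - α) ≤ (t : ℝ) ^ (2 - α) :=
      Real.rpow_le_rpow_of_nonpos ht0 ht2 (by linarith)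
    have h12 : X * (2 * (X : ℝ) ^ δ) ^ (2 - α) = 2 ^ (2 - α) * (X : ℝ) ^ (1 - δ * (α - 2)) := by
      rw [Real.mul_rpow (by norm_num) (by positivity), ← Real.rpow_mul hX0.le]
      have : (X : ℝ) ^ (1 - δ * (α - 2)) = X * (X : ℝ) ^ (δ * (2 - α)) := by
        rw [show 1 - δ * (α - 2) = δ * (2 - α) + 1 by ring, Real.rpow_add_one hX0.ne']
        ring
      rw [this]
      ring
    have h13 : (2 : ℝ) ^ (2 - α) * (X : ℝ) ^ (1 - δ * (α - 2)) ≤ X * (t : ℝ) ^ (2 - α) := by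
      rw [← h12]
      exact mul_le_mul_of_nonneg_left h11 hX0.le
    have h14 : c * 2 ^ (-α) * (2 ^ (2 - α) * (X : ℝ) ^ (1 - δ * (α - 2)))
        ≤ c * 2 ^ (-α) * (X * (t : ℝ) ^ (2 - α)) :=
      mul_le_mul_of_nonneg_left h13 (by positivity)
    refine le_trans ?_ h14
    rw [div_le_iff₀ (by positivity)] at h4
    linarith

end Pool.Agent.Q298.Excl
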