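import Pool.Agent.Q298.Excl.Ins

/-!
# The pointwise second class particle estimate
-/

open Set Filter Topology MeasureTheory Function

set_option linter.unusedSectionVars false

namespace Pool.Agent.Q298.Excl

variable {p : ℤ → ℝ}

lemma res_sum {A : Type*} [TopologicalSpace A] [DiscreteTopology A] [Lattice A] [Finite A]
    {c : ℤ × ℤ → ℝ} (hc : Adm p c) {lam : ℝ} (hlam : 0 < lam) {ι : Type*}
    (s : Finset ι) (f : ι → C(ℤ → A, ℝ)) :
    res hc lam (∑ i ∈ s, f i) = ∑ i ∈ s, res hc lam (f i) := by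
  classical
  induction s using Finset.induction with
  | empty =>
    have := res_const (A := A) hc hlam 0
    simpa using this
  | insert i s hi ih => rw [Finset.sum_insert hi, Finset.sum_insert hi, res_add hc hlam, ih]

lemma key_mv {z0 x : ℤ} (hx : x ≠ z0) {ζ : Cf} (hζ : ζ z0 = true) :
    mv (x, z0) (rem z0 ζ) = if ζ x = true then rem x ζ else rem z0 ζ := by
  funext w
  unfold mv
  simp only [rem_apply]
  by_cases h1 : w = z0
  · subst h1
    cases h : ζ x <;> simp [h, update_of_ne hx, update_of_ne (Ne.symm hx), hζ]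
  · by_cases h2 : w = x
    · subst h2
      cases h : ζ w <;> simp [h, h1]
    · cases h : ζ x <;> simp [h1, h2]

section

variable (hp : Kern p) (z0 : ℤ) {L θ : ℝ} (hL : 0 < L) (hθ : 0 < θ)

/-- the slow resolvent of the occupation of `z0` -/
noncomputable def uu (hp : Kern p) (z0 : ℤ) (lam : ℝ) : C(Cf, ℝ) := res (adm_rt hp) lam (ex z0)

include hL hθ

lemma uu_nonneg (η : Cf) : 0 ≤ uu hp z0 (θ * L) η :=
  res_ge (adm_rt hp) (mul_pos hθ hL) (fun ζ => ex_nonneg z0 ζ) η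

lemma uu_le (η : Cf) : uu hp z0 (θ * L) η ≤ 1 :=
  res_le (adm_rt hp) (mul_pos hθ hL) (fun ζ => ex_le z0 ζ) η

lemma uu_mono {η ξ : Cf} (h : ∀ x, η x ≤ ξ x) : uu hp z0 (θ * L) η ≤ uu hp z0 (θ * L) ξ := by
  set ω : Pf := fun x => (ξ x, η x) with hω
  have hmem : ω ∈ Oge := h
  have h1 := res_mono_on (adm_rt hp) (mul_pos hθ hL) isClosed_Oge (absb_Oge _)
    (f := (ex z0).comp pr2) (g := (ex z0).comp pr1) (fun ω' hω' => by
      have := dd_eq hω' z0
      have h2 := dd_nonneg (ω' z0)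
      simp only [ContinuousMap.comp_apply]
      linarith) ω hmem
  rw [res_pr1 (adm_rt hp) (mul_pos hθ hL), res_pr2 (adm_rt hp) (mul_pos hθ hL)] at h1
  exact h1

lemma uu_K (η : Cf) : |uu hp z0 (θ * L) η - res (adm_rt hp) L (uu hp z0 (θ * L)) η| ≤ θ := by
  have h1 := res_res (adm_rt hp) hL (mul_pos hθ hL) (ex z0)
  have e : θ * L / L = θ := by field_simp
  rw [e, res_add (adm_rt hp) hL, res_smul (adm_rt hp) hL] at h1
  have h2 : uu hp z0 (θ * L) η - res (adm_rt hp) L (uu hp z0 (θ * L)) η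
      = θ * res (adm_rt hp) L (ex z0 - uu hp z0 (θ * L)) η := by
    have h3 := congrArg (fun f : C(Cf, ℝ) => f η) h1
    simp only [ContinuousMap.add_apply, ContinuousMap.smul_apply, smul_eq_mul] at h3
    unfold uu
    linarith
  rw [h2, abs_mul, abs_of_pos hθ]
  have h4 := res_abs (adm_rt hp) hL (f := ex z0 - uu hp z0 (θ * L)) (m := 1) (fun ζ => by
    rw [ContinuousMap.sub_apply, abs_le]
    have a1 := uu_nonneg hp z0 hL hθ ζ
    have a2 := uu_le hp z0 hL hθ ζ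
    have a3 := ex_nonneg z0 ζ
    have a4 := ex_le z0 ζ
    constructor <;> linarith) η
  nlinarith

end

/-- the conditional variance type quantity -/
noncomputable def WW (hp : Kern p) (z0 : ℤ) (L θ : ℝ) (η : Cf) : ℝ :=
  res (adm_rt hp) L ((uu hp z0 (θ * L)) ^ 2) η
    - 2 * uu hp z0 (θ * L) η * res (adm_rt hp) L (uu hp z0 (θ * L)) η + uu hp z0 (θ * L) η ^ 2

/-- the `J` quantity -/
noncomputable def JJ (hp : Kern p) (z0 : ℤ) (L θ Λ : ℝ) (η : Cf) (x : ℤ) : ℝ :=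
  L / (L + Λ) * res (adm_rz hp z0) (L + Λ)
    (ex x * ((uu hp z0 (θ * L)).comp (rem x)
      - ContinuousMap.const _ (uu hp z0 (θ * L) (rem z0 η))) ^ 2) η

lemma JJ_bound (hp : Kern p) (z0 : ℤ) {L θ Λ : ℝ} (hL : 0 < L) (hθ : 0 < θ)
    (hΛ : HasSum (cz p z0) Λ) (hΛ0 : 0 ≤ Λ) {η : Cf} (hη : η z0 = true) (I : Finset ℤ)
    (hI : ∀ x ∈ I, x ≠ z0) :
    ∑ x ∈ I, p (z0 - x) * JJ hp z0 L θ Λ η x
      ≤ 2 * L * WW hp z0 L θ (rem z0 η) + 2 * θ ^ 2 * ∑' k, p k := by
  set u := uu hp z0 (θ * L) with hu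
  set K := res (A := Bool) (adm_rt hp) L with hK
  set G := res (A := Bool) (adm_rz hp z0) (L + Λ) with hG
  set ξ := rem z0 η with hξ
  set c := u ξ with hc
  have hpos : 0 < L + Λ := by linarith
  set f : C(Cf, ℝ) := (u - ContinuousMap.const _ c) ^ 2 with hf
  have hf0 : ∀ ζ, 0 ≤ f ζ := fun ζ => by
    rw [hf, ContinuousMap.pow_apply]; positivity
  have hinj : Set.InjOn (fun x : ℤ => ((x, z0) : ℤ × ℤ)) (I : Set ℤ) := by
    intro x _ y _ h
    exact (Prod.ext_iff.1 h).1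
  have hcomp := compare (adm_rt hp) (adm_rz hp z0) (cz_nonneg hp z0) (rz_add_cz z0) hΛ hL hf0
    (I.image fun x => ((x, z0) : ℤ × ℤ)) ξ
  rw [Finset.sum_image hinj] at hcomp
  -- value of K f at ξ
  have hW : K f ξ = WW hp z0 L θ ξ := by
    rw [hf, hK, res_quad (adm_rt hp) hL]
    rfl
  -- lower bound for K f
  have hKf : ∀ ζ, 1 / 2 * (u ζ - c) ^ 2 - θ ^ 2 ≤ K f ζ := by
    intro ζ
    have h1 := res_sq (adm_rt hp) hL (u - ContinuousMap.const _ c) ζ
    rw [res_sub (adm_rt hp) hL, res_const (adm_rt hp) hL] at h1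
    simp only [ContinuousMap.sub_apply, ContinuousMap.const_apply] at h1
    have h2 := uu_K hp z0 hL hθ ζ
    have h3 : (u ζ - K u ζ) ^ 2 ≤ θ ^ 2 := by
      rw [← sq_abs]
      exact pow_le_pow_left₀ (abs_nonneg _) h2 2
    have h4 : (K u ζ - c) ^ 2 ≤ K f ζ := h1
    nlinarith [sq_nonneg (2 * (u ζ - K u ζ) - (u ζ - c))]
  have hKf0 : ∀ ζ, 0 ≤ K f ζ := fun ζ => res_ge (adm_rt hp) hL hf0 ζ
  -- the lower function
  set q : ℤ → C(Cf, ℝ) := fun x => ex x * (u.comp (rem x) - ContinuousMap.const _ c) ^ 2 with hq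
  set Q : C(Cf, ℝ) := ∑ x ∈ I, (p (z0 - x) / L) • ((1 / 2 : ℝ) • q x - ContinuousMap.const _ (θ ^ 2))
    with hQ
  set R : C(Cf, ℝ) := f + ∑ x ∈ I, (cz p z0 (x, z0) / L) • (K f).comp (mvC (x, z0)) with hR
  have hQR : ∀ ζ ∈ Fz z0, Q ζ ≤ (R.comp (rem z0)) ζ := by
    intro ζ hζ
    have hζ' : ζ z0 = true := hζ
    simp only [hQ, hR, ContinuousMap.comp_apply, ContinuousMap.add_apply, ContinuousMap.sum_apply,
      ContinuousMap.smul_apply, ContinuousMap.sub_apply, ContinuousMap.const_apply, smul_eq_mul,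
      mvC_apply]
    have h1 : ∑ x ∈ I, p (z0 - x) / L * (1 / 2 * q x ζ - θ ^ 2)
        ≤ ∑ x ∈ I, cz p z0 (x, z0) / L * K f (mv (x, z0) (rem z0 ζ)) := by
      refine Finset.sum_le_sum fun x hx => ?_
      have e1 : cz p z0 (x, z0) = p (z0 - x) := by simp [cz]
      rw [e1]
      refine mul_le_mul_of_nonneg_left ?_ (div_nonneg (hp.nonneg _) hL.le)
      rw [key_mv (hI x hx) hζ']
      simp only [hq, ContinuousMap.mul_apply, ContinuousMap.pow_apply, ContinuousMap.sub_apply,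
        ContinuousMap.comp_apply, ContinuousMap.const_apply, ex_apply]
      by_cases h : ζ x = true
      · simp only [h, if_true, one_mul]
        exact hKf _
      · have h0 := hKf0 (rem z0 ζ)
        simp only [h, Bool.false_eq_true, if_false]
        nlinarith [sq_nonneg θ]
    have h2 := hf0 (rem z0 ζ)
    linarith
  have h3 := res_mono_on (adm_rz hp z0) hpos (isClosed_Fz z0) (absb_Fz z0) hQR η hη
  rw [res_rem hp z0 hpos] at h3
  have h4 : G Q η ≤ G R ξ := h3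
  have h5 : L / (L + Λ) * G R ξ ≤ K f ξ := hcomp
  have h6 : G Q η = ∑ x ∈ I, p (z0 - x) / L * (1 / 2 * G (q x) η - θ ^ 2) := by
    rw [hQ, hG, res_sum (adm_rz hp z0) hpos, ContinuousMap.sum_apply]
    refine Finset.sum_congr rfl fun x _ => ?_
    rw [res_smul (adm_rz hp z0) hpos, res_sub (adm_rz hp z0) hpos, res_smul (adm_rz hp z0) hpos,
      res_const (adm_rz hp z0) hpos]
    simp only [ContinuousMap.smul_apply, ContinuousMap.sub_apply, ContinuousMap.const_apply,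
      smul_eq_mul]
  have hJ : ∀ x, JJ hp z0 L θ Λ η x = L / (L + Λ) * G (q x) η := fun x => rfl
  have hg : L / (L + Λ) ≤ 1 := by rw [div_le_one hpos]; linarith
  have hg0 : 0 ≤ L / (L + Λ) := div_nonneg hL.le hpos.le
  have h7 : L / (L + Λ) * G Q η ≤ WW hp z0 L θ ξ := by
    rw [← hW]
    exact (mul_le_mul_of_nonneg_left h4 hg0).trans h5
  -- rewrite in terms of J
  have h8 : L / (L + Λ) * G Q η
      = (1 / (2 * L)) * (∑ x ∈ I, p (z0 - x) * JJ hp z0 L θ Λ η x)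
        - L / (L + Λ) * (θ ^ 2 / L) * ∑ x ∈ I, p (z0 - x) := by
    rw [h6, Finset.mul_sum, Finset.mul_sum, Finset.mul_sum, ← Finset.sum_sub_distrib]
    refine Finset.sum_congr rfl fun x _ => ?_
    rw [hJ]
    field_simp
  have h9 : ∑ x ∈ I, p (z0 - x) ≤ ∑' k, p k := by
    have hinj2 : Set.InjOn (fun x : ℤ => z0 - x) (I : Set ℤ) := by
      intro x _ y _ h
      simp only at h
      omega
    rw [← Finset.sum_image (f := p) hinj2]
    exact hp.summ.sum_le_tsum _ fun k _ => hp.nonneg k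
  have h10 : 0 ≤ ∑ x ∈ I, p (z0 - x) := Finset.sum_nonneg fun x _ => hp.nonneg _
  rw [h8] at h7
  have h11 : L / (L + Λ) * (θ ^ 2 / L) * ∑ x ∈ I, p (z0 - x) ≤ θ ^ 2 / L * ∑' k, p k := by
    refine mul_le_mul ?_ h9 h10 (by positivity)
    have : 0 ≤ θ ^ 2 / L := by positivity
    nlinarith
  have h12 : 1 / (2 * L) * ∑ x ∈ I, p (z0 - x) * JJ hp z0 L θ Λ η x
      ≤ WW hp z0 L θ ξ + θ ^ 2 / L * ∑' k, p k := by linarith
  have h13 := mul_le_mul_of_nonneg_left h12 (by linarith : (0 : ℝ) ≤ 2 * L)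
  have e1 : 2 * L * (1 / (2 * L) * ∑ x ∈ I, p (z0 - x) * JJ hp z0 L θ Λ η x)
      = ∑ x ∈ I, p (z0 - x) * JJ hp z0 L θ Λ η x := by field_simp
  have e2 : 2 * L * (WW hp z0 L θ ξ + θ ^ 2 / L * ∑' k, p k)
      = 2 * L * WW hp z0 L θ ξ + 2 * θ ^ 2 * ∑' k, p k := by field_simp
  rw [e1, e2] at h13
  exact h13


lemma rem_le (x : ℤ) (ζ : Cf) (w : ℤ) : rem x ζ w ≤ ζ w := by
  rw [rem_apply]
  by_cases h : w = x
  · subst h; simp
  · rw [update_of_ne h]

lemma rem_of_false {x : ℤ} {ζ : Cf} (h : ζ x = false) : rem x ζ = ζ := by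
  rw [rem_apply, ← h, update_eq_self]

/-- the discrete derivative at `x` -/
noncomputable def vv (hp : Kern p) (z0 : ℤ) (lam : ℝ) (x : ℤ) : C(Cf, ℝ) :=
  uu hp z0 lam - (uu hp z0 lam).comp (rem x)

lemma vv_nonneg (hp : Kern p) (z0 : ℤ) {L θ : ℝ} (hL : 0 < L) (hθ : 0 < θ) (x : ℤ) (ζ : Cf) :
    0 ≤ vv hp z0 (θ * L) x ζ := by
  have h := uu_mono hp z0 hL hθ (η := rem x ζ) (ξ := ζ) (rem_le x ζ)
  simp only [vv, ContinuousMap.sub_apply, ContinuousMap.comp_apply]
  linarith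

lemma Kv_bound (hp : Kern p) (z0 : ℤ) {L θ Λ r : ℝ} (hL : 0 < L) (hθ : 0 < θ) (hr : 0 < r)
    (hΛ : HasSum (cz p z0) Λ) (hΛ0 : 0 ≤ Λ) (η : Cf) (x : ℤ) :
    (uu hp z0 (θ * L) η - uu hp z0 (θ * L) (rem z0 η)) * (L / (L + Λ))
      - res (adm_rt hp) L (1 - ex x) η - 2 * r - WW hp z0 L θ η / (4 * r)
      - JJ hp z0 L θ Λ η x / (4 * r) ≤ res (adm_rt hp) L (vv hp z0 (θ * L) x) η := by
  set u := uu hp z0 (θ * L) with hu
  set K := res (A := Bool) (adm_rt hp) L with hK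
  set G := res (A := Bool) (adm_rz hp z0) (L + Λ) with hG
  set cη := u η with hcη
  set cξ := u (rem z0 η) with hcξ
  set g := L / (L + Λ) with hg
  have hpos : 0 < L + Λ := by linarith
  have hg1 : g ≤ 1 := by rw [hg, div_le_one hpos]; linarith
  have hg0 : 0 ≤ g := div_nonneg hL.le hpos.le
  have hcmp : ∀ f : C(Cf, ℝ), (∀ ζ, 0 ≤ f ζ) → g * G f η ≤ K f η := by
    intro f hf
    have h := compare (adm_rt hp) (adm_rz hp z0) (cz_nonneg hp z0) (rz_add_cz z0) hΛ hL hf ∅ η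
    rw [Finset.sum_empty, add_zero] at h
    exact h
  set s := cη - cξ with hs
  have hs0 : 0 ≤ s := by
    have := uu_mono hp z0 hL hθ (η := rem z0 η) (ξ := η) (rem_le z0 η)
    linarith
  have hs1 : s ≤ 1 := by
    have a1 := uu_le hp z0 hL hθ η
    have a2 := uu_nonneg hp z0 hL hθ (rem z0 η)
    linarith
  set q : C(Cf, ℝ) := ex x * (u.comp (rem x) - ContinuousMap.const _ cξ) ^ 2 with hq
  set w : C(Cf, ℝ) := (u - ContinuousMap.const _ cη) ^ 2 with hw
  set Lf : C(Cf, ℝ) := s • ex x - ContinuousMap.const _ (2 * r) - (1 / (4 * r)) • w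
    - (1 / (4 * r)) • q with hLf
  have hle : ∀ ζ, Lf ζ ≤ vv hp z0 (θ * L) x ζ := by
    intro ζ
    have hv0 := vv_nonneg hp z0 hL hθ x ζ
    simp only [hLf, hw, hq, ContinuousMap.sub_apply, ContinuousMap.smul_apply,
      ContinuousMap.const_apply, ContinuousMap.pow_apply, ContinuousMap.mul_apply,
      ContinuousMap.comp_apply, smul_eq_mul, ex_apply]
    have t1 := abs_le_quad (t := u ζ - cη) hr
    have t2 := abs_le_quad (t := u (rem x ζ) - cξ) hr
    have t3 := abs_le.1 (le_refl |u ζ - cη|)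
    have t4 := abs_le.1 (le_refl |u (rem x ζ) - cξ|)
    have e1 : 1 / (4 * r) * (u ζ - cη) ^ 2 = (u ζ - cη) ^ 2 / (4 * r) := by ring
    by_cases h : ζ x = true
    · simp only [h, if_true, one_mul, mul_one]
      have e2 : 1 / (4 * r) * (u (rem x ζ) - cξ) ^ 2 = (u (rem x ζ) - cξ) ^ 2 / (4 * r) := by ring
      rw [e1, e2]
      have e3 : vv hp z0 (θ * L) x ζ = u ζ - u (rem x ζ) := rfl
      rw [e3]
      linarith [t3.1, t4.2]
    · simp only [h, Bool.false_eq_true, if_false]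
      have : 0 ≤ 1 / (4 * r) * (u ζ - cη) ^ 2 := by positivity
      nlinarith
  have h1 := hcmp _ (vv_nonneg hp z0 hL hθ x)
  have h2 : G Lf η ≤ G (vv hp z0 (θ * L) x) η := res_mono (adm_rz hp z0) hpos hle η
  have h3 : G Lf η = s * G (ex x) η - 2 * r - 1 / (4 * r) * G w η - 1 / (4 * r) * G q η := by
    rw [hLf, hG, res_sub (adm_rz hp z0) hpos, res_sub (adm_rz hp z0) hpos,
      res_sub (adm_rz hp z0) hpos, res_smul (adm_rz hp z0) hpos, res_smul (adm_rz hp z0) hpos,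
      res_smul (adm_rz hp z0) hpos, res_const (adm_rz hp z0) hpos]
    simp only [ContinuousMap.smul_apply, ContinuousMap.sub_apply, ContinuousMap.const_apply,
      smul_eq_mul]
  have h4 : g * G w η ≤ WW hp z0 L θ η := by
    have h5 := hcmp w (fun ζ => by rw [hw, ContinuousMap.pow_apply]; positivity)
    refine h5.trans (le_of_eq ?_)
    rw [hw, hK, res_quad (adm_rt hp) hL]
    rfl
  have h6 : g * G (1 - ex x) η ≤ K (1 - ex x) η := by
    refine hcmp _ fun ζ => ?_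
    rw [ContinuousMap.sub_apply, ContinuousMap.one_apply]
    linarith [ex_le x ζ]
  have h7 : G (1 - ex x) η = 1 - G (ex x) η := by
    rw [hG, res_sub (adm_rz hp z0) hpos]
    have : res (A := Bool) (adm_rz hp z0) (L + Λ) 1 = 1 := res_const (adm_rz hp z0) hpos 1
    rw [this]
    rfl
  have h8 : g * G q η = JJ hp z0 L θ Λ η x := rfl
  have hK0 : 0 ≤ K (1 - ex x) η := by
    refine res_ge (adm_rt hp) hL (fun ζ => ?_) η
    rw [ContinuousMap.sub_apply, ContinuousMap.one_apply]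
    linarith [ex_le x ζ]
  rw [h7] at h6
  have h9 : s * (g - K (1 - ex x) η) ≤ s * (g * G (ex x) η) :=
    mul_le_mul_of_nonneg_left (by linarith) hs0
  have h10 : g * G Lf η ≤ K (vv hp z0 (θ * L) x) η :=
    (mul_le_mul_of_nonneg_left h2 hg0).trans h1
  rw [h3] at h10
  have h11 : s * K (1 - ex x) η ≤ K (1 - ex x) η := by nlinarith
  have h12 : g * (2 * r) ≤ 2 * r := by nlinarith
  have h13 : 0 ≤ 1 / (4 * r) := by positivity
  have h14 := mul_le_mul_of_nonneg_left h4 h13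
  have e5 : g * (s * G (ex x) η - 2 * r - 1 / (4 * r) * G w η - 1 / (4 * r) * G q η)
      = s * (g * G (ex x) η) - g * (2 * r) - 1 / (4 * r) * (g * G w η)
        - 1 / (4 * r) * (g * G q η) := by ring
  rw [e5, h8] at h10
  have e6 : WW hp z0 L θ η / (4 * r) = 1 / (4 * r) * WW hp z0 L θ η := by ring
  have e7 : JJ hp z0 L θ Λ η x / (4 * r) = 1 / (4 * r) * JJ hp z0 L θ Λ η x := by ring
  rw [e6, e7]
  nlinarith

end Pool.Agent.Q298.Excl
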