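import Pool.Agent.Q298.Excl.Dens

/-!
# Existence of the resolvent
-/

open Set Filter Topology MeasureTheory Function

set_option linter.unusedSectionVars false

namespace Pool.Agent.Q298.Excl

variable {A B : Type*} [TopologicalSpace A] [DiscreteTopology A] [Lattice A] [Finite A]
  [TopologicalSpace B] [DiscreteTopology B] [Lattice B] [Finite B]
variable {p : ℤ → ℝ} {c : ℤ × ℤ → ℝ}

lemma exists_Bx (S : Finset ℤ) : ∃ n0 : ℕ, ∀ n, n0 ≤ n → S ⊆ Bx n := by
  refine ⟨∑ z ∈ S, z.natAbs, fun n hn z hz => ?_⟩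
  have h1 : z.natAbs ≤ ∑ z ∈ S, z.natAbs := Finset.single_le_sum (fun _ _ => Nat.zero_le _) hz
  rw [mem_Bx]
  omega

lemma dense_cyl (hc : Adm p c) {lam : ℝ} (hlam : 0 < lam) (hL : 2 * CC p ≤ lam)
    {f : (ℤ → A) → ℝ} (hf : Cyl f) {ε : ℝ} (hε : 0 < ε) :
    ∃ h : (ℤ → A) → ℝ, Cyl h ∧ ∀ η, |f η - (h η - gen c h η / lam)| ≤ ε := by
  obtain ⟨D, hD⟩ := hf.bdd
  obtain ⟨S, hS⟩ := hf
  by_cases hne : Nonempty (ℤ → A)
  swap
  · exact ⟨fun _ => 0, cyl_const 0, fun η => absurd ⟨η⟩ hne⟩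
  have hD0 : 0 ≤ D := by
    obtain ⟨η⟩ := hne
    exact (abs_nonneg _).trans (hD η)
  obtain ⟨n0, hn0⟩ := exists_Bx S
  set δf : ℤ → ℝ := fun z => if z ∈ S then 2 * D else 0 with hδf
  have d0 : ∀ z, 0 ≤ δf z := by intro z; simp only [hδf]; split_ifs <;> linarith
  have hsens : Sens f δf := by
    intro η z a
    simp only [hδf]
    split_ifs with hz
    · calc |f (update η z a) - f η| ≤ |f (update η z a)| + |f η| := abs_sub _ _
        _ ≤ 2 * D := by linarith [hD (update η z a), hD η]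
    · have : f (update η z a) = f η := by
        refine hS _ _ fun w hw => ?_
        rw [update_of_ne]
        rintro rfl
        exact hz hw
      rw [this]; simp
  set W : ℝ := ∑ z ∈ S, wt z * δf z with hW
  have hWn : ∀ n, n0 ≤ n → ∑ z ∈ Bx n, wt z * δf z = W := by
    intro n hn
    rw [hW]
    symm
    refine Finset.sum_subset (hn0 n hn) fun z _ hz => ?_
    simp [hδf, hz]
  have hW0 : 0 ≤ W := Finset.sum_nonneg fun z _ => mul_nonneg (wt_pos z).le (d0 z)
  -- choose n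
  obtain ⟨n1, hn1⟩ := exists_nat_gt (CC p * (2 * W) * 2 / (lam * ε))
  set n := max n0 n1 with hn
  have hn0' : n0 ≤ n := le_max_left _ _
  have hnn : CC p * (2 * W) / (n + 1) / lam ≤ ε / 2 := by
    have h1 : CC p * (2 * W) * 2 / (lam * ε) < (n : ℝ) + 1 := by
      have : (n1 : ℝ) ≤ n := by exact_mod_cast le_max_right _ _
      linarith
    rw [div_lt_iff₀ (by positivity)] at h1
    rw [div_div, div_le_iff₀ (by positivity)]
    nlinarith
  have hfn : DepOn f (Bx n) := hS.mono (hn0 n hn0')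
  have dS : ∀ z, z ∉ Bx n → δf z = 0 := by
    intro z hz
    have : z ∉ S := fun h => hz (hn0 n hn0' h)
    simp [hδf, this]
  set E := Bx n ×ˢ Bx n with hE
  have hE0 : 0 ≤ ∑ b ∈ E, c b := Finset.sum_nonneg fun b _ => hc.nonneg b
  have hpos : 0 < lam + ∑ b ∈ E, c b := by linarith
  -- choose k
  set r := (∑ b ∈ E, c b) / (lam + ∑ b ∈ E, c b) with hr
  have hr0 : 0 ≤ r := div_nonneg hE0 hpos.le
  have hr1 : r < 1 := by rw [hr, div_lt_one hpos]; linarith
  have hlim : Tendsto (fun k : ℕ => (lam + ∑ b ∈ E, c b) / lam * (r ^ k * (2 * D))) atTop (𝓝 0) := by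
    have h1 := tendsto_pow_atTop_nhds_zero_of_lt_one hr0 hr1
    have h2 := (h1.mul_const (2 * D)).const_mul ((lam + ∑ b ∈ E, c b) / lam)
    simpa using h2
  obtain ⟨k, hk⟩ := (hlim.eventually (gt_mem_nhds (half_pos hε))).exists
  have hdep := its_dep (c := c) (lam := lam) hfn k
  refine ⟨its c lam E f k, ⟨Bx n, hdep⟩, fun η => ?_⟩
  obtain ⟨δ, e0, eS, es, eW⟩ := its_sens hc hlam hL d0 dS hsens k
  rw [hWn n hn0'] at eW
  have hb := bdry hc hdep e0 eS es η (gen_summable hc ⟨Bx n, hdep⟩ η)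
  have hb2 : CC p * (∑ z ∈ Bx n, wt z * δ z) / (n + 1) ≤ CC p * (2 * W) / (n + 1) := by
    refine div_le_div_of_nonneg_right ?_ (by positivity)
    exact mul_le_mul_of_nonneg_left eW (CC_nonneg hc.kern)
  have hd := its_diff hc.nonneg hlam E hD k η
  set g := its c lam E f k with hg
  have e1 : its c lam E f (k + 1) η
      = (lam * f η + ∑ b ∈ E, c b * g (mv b η)) / (lam + ∑ b ∈ E, c b) := rfl
  have e2 : f η - (g η - gen c g η / lam)
      = (lam + ∑ b ∈ E, c b) / lam * (its c lam E f (k + 1) η - g η)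
        + (gen c g η - ∑ b ∈ E, c b * (g (mv b η) - g η)) / lam := by
    rw [e1]
    simp only [mul_sub, Finset.sum_sub_distrib, ← Finset.sum_mul]
    field_simp
    ring
  rw [e2]
  refine (abs_add_le _ _).trans ?_
  rw [abs_mul, abs_div, abs_div, abs_of_pos hlam, abs_of_pos hpos]
  have h3 : (lam + ∑ b ∈ E, c b) / lam * |its c lam E f (k + 1) η - g η| ≤ ε / 2 := by
    refine le_trans ?_ hk.le
    exact mul_le_mul_of_nonneg_left hd (div_nonneg hpos.le hlam.le)
  have h4 : |gen c g η - ∑ b ∈ E, c b * (g (mv b η) - g η)| / lam ≤ ε / 2 := by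
    refine le_trans ?_ hnn
    exact div_le_div_of_nonneg_right (hb.trans hb2) hlam.le
  linarith

/-- cylinder functions as a subalgebra -/
def cylAlg (A : Type*) [TopologicalSpace A] [DiscreteTopology A] [Finite A] :
    Subalgebra ℝ C(ℤ → A, ℝ) where
  carrier := {f | Cyl (f : (ℤ → A) → ℝ)}
  mul_mem' := fun ha hb => Cyl.map2 ha hb (fun x y => x * y)
  add_mem' := fun ha hb => Cyl.map2 ha hb (fun x y => x + y)
  algebraMap_mem' := fun r => cyl_const r

lemma cyl_dense (f : C(ℤ → A, ℝ)) {ε : ℝ} (hε : 0 < ε) :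
    ∃ g : C(ℤ → A, ℝ), Cyl (g : (ℤ → A) → ℝ) ∧ ∀ η, |f η - g η| ≤ ε := by
  classical
  have hsep : (cylAlg A).SeparatesPoints := by
    intro x y hxy
    obtain ⟨z, hz⟩ := Function.ne_iff.1 hxy
    have hcy : Cyl (fun η : ℤ → A => (if η z = x z then (1 : ℝ) else 0)) :=
      cyl_coord z (fun a => if a = x z then (1 : ℝ) else 0)
    refine ⟨_, ⟨⟨fun η => if η z = x z then (1 : ℝ) else 0, hcy.continuous⟩, hcy, rfl⟩, ?_⟩
    simp [Ne.symm hz]
  have h := ContinuousMap.subalgebra_topologicalClosure_eq_top_of_separatesPoints (cylAlg A) hsep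
  have h1 : f ∈ (cylAlg A).topologicalClosure := by rw [h]; trivial
  have h2 : f ∈ closure ((cylAlg A : Subalgebra ℝ C(ℤ → A, ℝ)) : Set C(ℤ → A, ℝ)) := h1
  rw [Metric.mem_closure_iff] at h2
  obtain ⟨g, hg, hd⟩ := h2 ε hε
  refine ⟨g, hg, fun η => ?_⟩
  have h3 := (ContinuousMap.dist_lt_iff hε).1 hd η
  rw [Real.dist_eq] at h3
  exact h3.le

lemma exists_RR_large (hc : Adm p c) {lam : ℝ} (hlam : 0 < lam) (hL : 2 * CC p ≤ lam)
    (f : C(ℤ → A, ℝ)) : ∃ g, RR hc lam f g := by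
  -- a sequence of approximants
  have h1 : ∀ n : ℕ, ∃ q : C(ℤ → A, ℝ) × C(ℤ → A, ℝ), RR hc lam q.1 q.2 ∧
      dist f q.1 ≤ 1 / ((n : ℝ) + 1) := by
    intro n
    have hn : (0 : ℝ) < 1 / ((n : ℝ) + 1) := by positivity
    obtain ⟨f', hf', h1⟩ := cyl_dense f (half_pos hn)
    obtain ⟨h, hh, h2⟩ := dense_cyl hc hlam hL hf' (half_pos hn)
    refine ⟨(pre hc lam ⟨h, hh.continuous⟩ hh, ⟨h, hh.continuous⟩), RR.of_cyl _ _ _ hh, ?_⟩
    rw [ContinuousMap.dist_le hn.le]
    intro η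
    rw [Real.dist_eq]
    have h3 := h1 η
    have h4 := h2 η
    simp only [pre_apply, ContinuousMap.coe_mk]
    calc |f η - (h η - gen c h η / lam)|
        = |(f η - f' η) + (f' η - (h η - gen c h η / lam))| := by ring_nf
      _ ≤ |f η - f' η| + |f' η - (h η - gen c h η / lam)| := abs_add_le _ _
      _ ≤ 1 / ((n : ℝ) + 1) := by linarith
  choose q hq hd using h1
  have hdq : ∀ m n, dist (q m).2 (q n).2 ≤ dist (q m).1 (q n).1 := by
    intro m n
    rw [ContinuousMap.dist_le dist_nonneg]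
    intro η
    rw [Real.dist_eq]
    have h2 := ((hq m).sub (hq n)).norm_le hlam (m := dist (q m).1 (q n).1) (fun ζ => by
      have h3 := ContinuousMap.dist_apply_le_dist (f := (q m).1) (g := (q n).1) ζ
      rw [Real.dist_eq] at h3
      exact h3)
    exact h2 η
  have ht1 : Tendsto (fun n => (q n).1) atTop (𝓝 f) := by
    rw [tendsto_iff_dist_tendsto_zero]
    refine squeeze_zero (fun n => dist_nonneg) (fun n => ?_) tendsto_one_div_add_atTop_nhds_zero_nat
    rw [dist_comm]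
    exact hd n
  have hcau : CauchySeq fun n => (q n).2 := by
    rw [Metric.cauchySeq_iff]
    intro ε hε
    obtain ⟨N, hN⟩ := (Metric.cauchySeq_iff.1 ht1.cauchySeq) ε hε
    exact ⟨N, fun m hm n hn => (hdq m n).trans_lt (hN m hm n hn)⟩
  obtain ⟨g, hg⟩ := cauchySeq_tendsto_of_complete hcau
  refine ⟨g, ?_⟩
  have h5 : Tendsto (fun n => ((q n).1, (q n).2)) atTop (𝓝 (f, g)) := ht1.prodMk_nhds hg
  have h6 : IsClosed (((Gr A hc lam).topologicalClosure :
      Submodule ℝ (C(ℤ → A, ℝ) × C(ℤ → A, ℝ))) : Set (C(ℤ → A, ℝ) × C(ℤ → A, ℝ))) :=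
    Submodule.isClosed_topologicalClosure _
  exact h6.mem_of_tendsto h5 (Eventually.of_forall fun n => hq n)

/-- the resolvent identity -/
lemma RR.change {hc : Adm p c} {lam : ℝ} (hlam : 0 < lam) {lam' : ℝ} (hlam' : 0 < lam')
    {F g : C(ℤ → A, ℝ)} (h : RR hc lam F g) : RR hc lam' ((lam / lam') • (F - g) + g) g := by
  have hcont : Continuous fun q : C(ℤ → A, ℝ) × C(ℤ → A, ℝ) =>
      ((lam / lam') • (q.1 - q.2) + q.2, q.2) := by
    fun_prop
  have hmaps : MapsTo (fun q : C(ℤ → A, ℝ) × C(ℤ → A, ℝ) =>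
      ((lam / lam') • (q.1 - q.2) + q.2, q.2))
      ((Gr A hc lam : Submodule ℝ (C(ℤ → A, ℝ) × C(ℤ → A, ℝ))) : Set _)
      ((Gr A hc lam' : Submodule ℝ (C(ℤ → A, ℝ) × C(ℤ → A, ℝ))) : Set _) := ?_
  · have h7 := map_mem_closure hcont h hmaps
    exact h7
  rintro ⟨f, h⟩ ⟨h1, h2⟩
  refine ⟨h1, fun η => ?_⟩
  have h3 := h2 η
  simp only at h3
  simp only [ContinuousMap.add_apply, ContinuousMap.smul_apply, ContinuousMap.sub_apply,
    smul_eq_mul]
  rw [h3]
  field_simp
  ring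

lemma exists_RR (hc : Adm p c) {lam : ℝ} (hlam : 0 < lam)
    (f : C(ℤ → A, ℝ)) : ∃ g, RR hc lam f g := by
  set L : ℝ := max lam (2 * CC p) with hLdef
  have hL : 0 < L := lt_max_of_lt_left hlam
  have hLl : lam ≤ L := le_max_left _ _
  choose K hK using exists_RR_large (A := A) hc hL (le_max_right _ _)
  set θ : ℝ := lam / L with hθ
  have hθ0 : 0 < θ := div_pos hlam hL
  have hθ1 : θ ≤ 1 := by rw [hθ, div_le_one hL]; exact hLl
  set T : C(ℤ → A, ℝ) → C(ℤ → A, ℝ) := fun g => K (θ • f + (1 - θ) • g) with hT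
  have hTd : ∀ g g', dist (T g) (T g') ≤ (1 - θ) * dist g g' := by
    intro g g'
    rw [ContinuousMap.dist_le (mul_nonneg (by linarith) dist_nonneg)]
    intro η
    rw [Real.dist_eq]
    have h2 := ((hK (θ • f + (1 - θ) • g)).sub (hK (θ • f + (1 - θ) • g'))).norm_le hL
      (m := (1 - θ) * dist g g') (fun ζ => by
        have h3 := ContinuousMap.dist_apply_le_dist (f := g) (g := g') ζ
        rw [Real.dist_eq] at h3
        simp only [ContinuousMap.add_apply, ContinuousMap.smul_apply, ContinuousMap.sub_apply,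
          smul_eq_mul]
        have e : θ * f ζ + (1 - θ) * g ζ - (θ * f ζ + (1 - θ) * g' ζ)
            = (1 - θ) * (g ζ - g' ζ) := by ring
        rw [e, abs_mul, abs_of_nonneg (by linarith : (0:ℝ) ≤ 1 - θ)]
        exact mul_le_mul_of_nonneg_left h3 (by linarith))
    exact h2 η
  have hκ : ((Real.toNNReal (1 - θ) : NNReal) : ℝ) = 1 - θ := Real.coe_toNNReal _ (by linarith)
  have hcon : ContractingWith (Real.toNNReal (1 - θ)) T := by
    refine ⟨?_, ?_⟩
    · rw [← NNReal.coe_lt_coe, hκ, NNReal.coe_one]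
      linarith
    · exact LipschitzWith.of_dist_le_mul fun g g' => by rw [hκ]; exact hTd g g'
  set u := hcon.fixedPoint T with hu
  have hfix : T u = u := hcon.fixedPoint_isFixedPt
  refine ⟨u, ?_⟩
  have h1 : RR hc L (θ • f + (1 - θ) • u) u := by
    have := hK (θ • f + (1 - θ) • u)
    rw [show K (θ • f + (1 - θ) • u) = u from hfix] at this
    exact this
  have h2 := h1.change hL hlam
  have e : (L / lam) • (θ • f + (1 - θ) • u - u) + u = f := by
    ext η
    simp only [ContinuousMap.add_apply, ContinuousMap.smul_apply, ContinuousMap.sub_apply,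
      smul_eq_mul, hθ]
    field_simp
    ring
  rw [e] at h2
  exact h2

/-- the resolvent -/
noncomputable def res (hc : Adm p c) (lam : ℝ) (f : C(ℤ → A, ℝ)) : C(ℤ → A, ℝ) :=
  open Classical in if h : ∃ g, RR hc lam f g then h.choose else 0

lemma res_spec (hc : Adm p c) {lam : ℝ} (hlam : 0 < lam) (f : C(ℤ → A, ℝ)) :
    RR hc lam f (res hc lam f) := by
  have h := exists_RR hc hlam f
  unfold res
  rw [dif_pos h]
  exact h.choose_spec

lemma res_eq {hc : Adm p c} {lam : ℝ} (hlam : 0 < lam) {f g : C(ℤ → A, ℝ)}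
    (h : RR hc lam f g) : res hc lam f = g :=
  (res_spec hc hlam f).unique hlam h

end Pool.Agent.Q298.Excl
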